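import Pool.Agent.Q170.RN.Haar

/-! Averages over the unitary group of functions of the range of a matrix. -/

namespace Q170.RN
open MeasureTheory ProbabilityTheory Matrix
open scoped ComplexOrder

section
variable {𝕜 : Type} [RCLike 𝕜] {κ : Type} [Fintype κ] [DecidableEq κ] {ℓ : ℕ}

/-- A fixed splitting of the index set. -/
noncomputable def spl (h : ℓ ≤ Fintype.card κ) : κ ≃ Fin ℓ ⊕ Fin (Fintype.card κ - ℓ) :=
  (Fintype.equivFin κ).trans ((finCongr (show Fintype.card κ = ℓ + (Fintype.card κ - ℓ) by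
    omega)).trans finSumFinEquiv.symm)

/-- The first `ℓ` coordinate vectors. -/
noncomputable def JJ (𝕜 : Type) [RCLike 𝕜] (h : ℓ ≤ Fintype.card κ) : Matrix κ (Fin ℓ) 𝕜 :=
  (fromRows (1 : Matrix (Fin ℓ) (Fin ℓ) 𝕜)
    (0 : Matrix (Fin (Fintype.card κ - ℓ)) (Fin ℓ) 𝕜)).submatrix (spl h) id

lemma exists_factor0 {N : ℕ} (h : ℓ ≤ N) (Z : Matrix (Fin N) (Fin ℓ) 𝕜) :
    ∃ (U : Matrix (Fin N) (Fin ℓ ⊕ Fin (N - ℓ)) 𝕜) (R : Matrix (Fin ℓ) (Fin ℓ) 𝕜),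
      Uᴴ * U = 1 ∧ Z = U * fromRows R (0 : Matrix (Fin (N - ℓ)) (Fin ℓ) 𝕜) := by
  obtain ⟨U, h1, h2, h3⟩ := exists_unitary h Z
  refine ⟨U, (Uᴴ * Z).toRows₁, h1, ?_⟩
  have h4 : Uᴴ * Z = fromRows (Uᴴ * Z).toRows₁ (0 : Matrix (Fin (N - ℓ)) (Fin ℓ) 𝕜) := by
    ext i j
    rcases i with i | i
    · rfl
    · exact h3 i j
  rw [← h4, ← Matrix.mul_assoc, h2, Matrix.one_mul]

lemma exists_factor (h : ℓ ≤ Fintype.card κ) (Z : Matrix κ (Fin ℓ) 𝕜) :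
    ∃ (W : unitaryGroup κ 𝕜) (R : Matrix (Fin ℓ) (Fin ℓ) 𝕜), Z = (W : Matrix κ κ 𝕜) * JJ 𝕜 h * R := by
  obtain ⟨U, R, h1, h5⟩ := exists_factor0 h (Z.submatrix (Fintype.equivFin κ).symm id)
  have hW : U.submatrix (Fintype.equivFin κ) (spl h) ∈ unitaryGroup κ 𝕜 := by
    rw [mem_unitaryGroup_iff', star_eq_conjTranspose, Matrix.conjTranspose_submatrix]
    change Uᴴ.submatrix (spl h) (Fintype.equivFin κ) * U.submatrix (Fintype.equivFin κ) (spl h) = 1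
    rw [Matrix.submatrix_mul_equiv, h1, Matrix.submatrix_one_equiv]
  refine ⟨⟨U.submatrix (Fintype.equivFin κ) (spl h), hW⟩, R, ?_⟩
  have h6 : Z = (U * fromRows R (0 : Matrix (Fin (Fintype.card κ - ℓ)) (Fin ℓ) 𝕜)).submatrix
      (Fintype.equivFin κ) id := by
    rw [← h5, Matrix.submatrix_submatrix]
    simp
  have h7 : JJ 𝕜 h * R = (fromRows R (0 : Matrix (Fin (Fintype.card κ - ℓ)) (Fin ℓ) 𝕜)).submatrix
      (spl h) id := by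
    have : fromRows R (0 : Matrix (Fin (Fintype.card κ - ℓ)) (Fin ℓ) 𝕜) =
        fromRows (1 : Matrix (Fin ℓ) (Fin ℓ) 𝕜)
          (0 : Matrix (Fin (Fintype.card κ - ℓ)) (Fin ℓ) 𝕜) * R := by
      rw [fromRows_mul, Matrix.one_mul, Matrix.zero_mul]
    rw [this]
    unfold JJ
    change _ = ((fromRows (1 : Matrix (Fin ℓ) (Fin ℓ) 𝕜)
      (0 : Matrix (Fin (Fintype.card κ - ℓ)) (Fin ℓ) 𝕜)) * R).submatrix (spl h) (Equiv.refl _)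
    rw [← Matrix.submatrix_mul_equiv _ _ _ (Equiv.refl _)]
    rfl
  change Z = U.submatrix (Fintype.equivFin κ) (spl h) * JJ 𝕜 h * R
  rw [Matrix.mul_assoc, h7, Matrix.submatrix_mul_equiv]
  exact h6

omit [DecidableEq κ] in
lemma JJ_isom (h : ℓ ≤ Fintype.card κ) : (JJ 𝕜 h : Matrix κ (Fin ℓ) 𝕜)ᴴ * JJ 𝕜 h = 1 := by
  unfold JJ
  rw [Matrix.conjTranspose_submatrix]
  rw [Matrix.submatrix_mul_equiv, conjTranspose_fromRows_eq_fromCols_conjTranspose,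
    fromCols_mul_fromRows]
  simp

omit [Fintype κ] [DecidableEq κ] in
lemma inj_mul_unit {Y : Matrix κ (Fin ℓ) 𝕜} (hY : Inj Y) {R : Matrix (Fin ℓ) (Fin ℓ) 𝕜}
    (hR : IsUnit R) : Inj (Y * R) := by
  intro v hv
  rw [← Matrix.mulVec_mulVec] at hv
  have h1 := hY _ hv
  have h2 : R⁻¹ *ᵥ (R *ᵥ v) = v := by
    rw [Matrix.mulVec_mulVec, Matrix.nonsing_inv_mul _ ((Matrix.isUnit_iff_isUnit_det _).mp hR),
      Matrix.one_mulVec]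
  rw [← h2, h1, Matrix.mulVec_zero]

lemma inj_left_mul {m k : Type} [Fintype m] [Fintype k] {U : Matrix m κ 𝕜} {V : Matrix κ m 𝕜}
    (hUV : V * U = 1) {Y : Matrix κ k 𝕜} (hY : Inj Y) : Inj (U * Y) := by
  intro v hv
  apply hY
  rw [← Matrix.mulVec_mulVec] at hv
  have := congrArg (fun x => V *ᵥ x) hv
  simp only [Matrix.mulVec_mulVec, Matrix.mulVec_zero] at this
  rw [← Matrix.mul_assoc, hUV, Matrix.one_mul] at this
  exact this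

omit [DecidableEq κ] in
lemma inj_JJ (h : ℓ ≤ Fintype.card κ) : Inj (JJ 𝕜 h : Matrix κ (Fin ℓ) 𝕜) := by
  intro v hv
  have := congrArg (fun x => (JJ 𝕜 h : Matrix κ (Fin ℓ) 𝕜)ᴴ *ᵥ x) hv
  simp only [Matrix.mulVec_mulVec, Matrix.mulVec_zero] at this
  rwa [JJ_isom, Matrix.one_mulVec] at this

lemma QQ_mul_unit (Y : Matrix κ (Fin ℓ) 𝕜) {R : Matrix (Fin ℓ) (Fin ℓ) 𝕜} (hR : IsUnit R) :
    QQ (Y * R) = QQ Y := by
  unfold QQ PP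
  congr 1
  have hR' : IsUnit R.det := (Matrix.isUnit_iff_isUnit_det _).mp hR
  have hRH : IsUnit (Rᴴ).det := by
    rw [Matrix.det_conjTranspose]
    exact hR'.star
  have e1 : (Y * R)ᴴ * (Y * R) = Rᴴ * ((Yᴴ * Y) * R) := by
    rw [Matrix.conjTranspose_mul]
    simp only [Matrix.mul_assoc]
  rw [e1, Matrix.mul_inv_rev, Matrix.mul_inv_rev, Matrix.conjTranspose_mul]
  have e2 : R * R⁻¹ = 1 := Matrix.mul_nonsing_inv _ hR'
  have e3 : (Rᴴ)⁻¹ * Rᴴ = 1 := Matrix.nonsing_inv_mul _ hRH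
  calc Y * R * (R⁻¹ * (Yᴴ * Y)⁻¹ * (Rᴴ)⁻¹) * (Rᴴ * Yᴴ)
      = Y * (R * R⁻¹) * (Yᴴ * Y)⁻¹ * ((Rᴴ)⁻¹ * Rᴴ) * Yᴴ := by simp only [Matrix.mul_assoc]
    _ = Y * (Yᴴ * Y)⁻¹ * Yᴴ := by rw [e2, e3, Matrix.mul_one, Matrix.mul_one]

/-- The residual `‖(1 - P) S‖²` where `P` projects onto the range of `S Y`. -/
noncomputable def FF (S : Matrix κ κ 𝕜) (Y : Matrix κ (Fin ℓ) 𝕜) : ℝ := frobSq (QQ (S * Y) * S)

lemma QQ_meas' {m k : Type} [Fintype m] [DecidableEq m] [Fintype k] [DecidableEq k] {Ω : Type*}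
    [MeasurableSpace Ω] {f : Ω → Matrix m k 𝕜} (hf : Measurable f) :
    Measurable fun x => QQ (f x) := by
  unfold QQ PP
  exact sub_meas measurable_const (mul_meas (mul_meas hf
    (inv_meas (mul_meas (conjTranspose_meas hf) hf))) (conjTranspose_meas hf))

lemma FF_meas (S : Matrix κ κ 𝕜) {Ω : Type*} [MeasurableSpace Ω] {f : Ω → Matrix κ (Fin ℓ) 𝕜}
    (hf : Measurable f) : Measurable fun x => ENNReal.ofReal (FF S (f x)) := by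
  unfold FF
  exact ENNReal.measurable_ofReal.comp (frobSq_meas.comp (mul_meas
    (QQ_meas' (mul_meas measurable_const hf)) measurable_const))

/-- The average residual. -/
noncomputable def cc (S : Matrix κ κ 𝕜) (h : ℓ ≤ Fintype.card κ) : ENNReal :=
  ∫⁻ W : unitaryGroup κ 𝕜, ENNReal.ofReal (FF S ((W : Matrix κ κ 𝕜) * JJ 𝕜 h)) ∂(hU κ 𝕜)

lemma cc_eq (S : Matrix κ κ 𝕜) (h : ℓ ≤ Fintype.card κ) (W₀ : unitaryGroup κ 𝕜) :
    ∫⁻ W : unitaryGroup κ 𝕜, ENNReal.ofReal (FF S ((W : Matrix κ κ 𝕜) * (W₀ : Matrix κ κ 𝕜) *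
      JJ 𝕜 h)) ∂(hU κ 𝕜) = cc S h := by
  unfold cc
  rw [← lintegral_mul_right_eq_self (fun W : unitaryGroup κ 𝕜 =>
    ENNReal.ofReal (FF S ((W : Matrix κ κ 𝕜) * JJ 𝕜 h))) W₀]
  rfl

end

section
variable {𝕜 : Type} [RCLike 𝕜] [Coord 𝕜] {κ : Type} [Fintype κ] [DecidableEq κ] {ℓ : ℕ}

/-- Averaging a function of a Gaussian matrix over the unitary group. -/
lemma swap_aux (g : Matrix κ (Fin ℓ) 𝕜 → ENNReal) (hg : Measurable g) :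
    ∫⁻ Z, g Z ∂(gM κ (Fin ℓ) 𝕜) =
      ∫⁻ Z, ∫⁻ W : unitaryGroup κ 𝕜, g ((W : Matrix κ κ 𝕜) * Z) ∂(hU κ 𝕜) ∂(gM κ (Fin ℓ) 𝕜) := by
  have h1 : ∀ W : unitaryGroup κ 𝕜, ∫⁻ Z, g ((W : Matrix κ κ 𝕜) * Z) ∂(gM κ (Fin ℓ) 𝕜) =
      ∫⁻ Z, g Z ∂(gM κ (Fin ℓ) 𝕜) := by
    intro W
    have hm : Measurable (mulL (Fin ℓ) (W : Matrix κ κ 𝕜)) :=
      mul_meas measurable_const measurable_id
    have h2 := gM_map (mulL (Fin ℓ) (W : Matrix κ κ 𝕜)) (fun M => frobSq_unitary (unit_left W) M)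
      (fun M => ⟨(W : Matrix κ κ 𝕜)ᴴ * M, by
        change (W : Matrix κ κ 𝕜) * ((W : Matrix κ κ 𝕜)ᴴ * M) = M
        rw [← Matrix.mul_assoc, unit_right, Matrix.one_mul]⟩) hm
    conv_rhs => rw [← h2]
    rw [lintegral_map hg hm]
    rfl
  have hmul : Measurable fun p : unitaryGroup κ 𝕜 × Matrix κ (Fin ℓ) 𝕜 =>
      (p.1 : Matrix κ κ 𝕜) * p.2 := mul_meas (coe_meas.comp measurable_fst) measurable_snd
  have hjm : Measurable (Function.uncurry fun (W : unitaryGroup κ 𝕜) (Z : Matrix κ (Fin ℓ) 𝕜) =>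
      g ((W : Matrix κ κ 𝕜) * Z)) := hg.comp hmul
  calc ∫⁻ Z, g Z ∂(gM κ (Fin ℓ) 𝕜)
      = ∫⁻ _W : unitaryGroup κ 𝕜, ∫⁻ Z, g Z ∂(gM κ (Fin ℓ) 𝕜) ∂(hU κ 𝕜) := by
        rw [lintegral_const, measure_univ, mul_one]
    _ = ∫⁻ W : unitaryGroup κ 𝕜, ∫⁻ Z, g ((W : Matrix κ κ 𝕜) * Z)
        ∂(gM κ (Fin ℓ) 𝕜) ∂(hU κ 𝕜) := lintegral_congr fun W => (h1 W).symm
    _ = _ := lintegral_lintegral_swap hjm.aemeasurable

omit [Coord 𝕜] in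
lemma inner_avg (S : Matrix κ κ 𝕜) (h : ℓ ≤ Fintype.card κ) {Z : Matrix κ (Fin ℓ) 𝕜}
    (hZ : Inj Z) : ∫⁻ W : unitaryGroup κ 𝕜, ENNReal.ofReal (FF S ((W : Matrix κ κ 𝕜) * Z))
      ∂(hU κ 𝕜) = cc S h := by
  obtain ⟨W₀, R, hR⟩ := exists_factor h Z
  have hRu : IsUnit R := by
    rw [← Matrix.mulVec_injective_iff_isUnit]
    intro v w hvw
    have h3 : Z *ᵥ (v - w) = 0 := by
      rw [hR, ← Matrix.mulVec_mulVec, Matrix.mulVec_sub, sub_eq_zero.mpr hvw,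
        Matrix.mulVec_zero]
    exact sub_eq_zero.mp (hZ _ h3)
  rw [← cc_eq S h W₀]
  refine lintegral_congr fun W => ?_
  have e1 : S * ((W : Matrix κ κ 𝕜) * Z) =
      S * ((W : Matrix κ κ 𝕜) * (W₀ : Matrix κ κ 𝕜) * JJ 𝕜 h) * R := by
    rw [hR]; simp only [Matrix.mul_assoc]
  have e2 : FF S ((W : Matrix κ κ 𝕜) * Z) =
      FF S ((W : Matrix κ κ 𝕜) * (W₀ : Matrix κ κ 𝕜) * JJ 𝕜 h) := by
    unfold FF
    rw [e1, QQ_mul_unit _ hRu]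
  rw [e2]

/-- The Gaussian average of the residual is the average over the unitary group. -/
theorem gauss_eq_cc (S : Matrix κ κ 𝕜) (h : ℓ ≤ Fintype.card κ)
    (hN : 0 ≤ bet 𝕜 * ((Fintype.card κ : ℝ) - ℓ) - Coord.α 𝕜) :
    ∫⁻ Z, ENNReal.ofReal (FF S Z) ∂(gM κ (Fin ℓ) 𝕜) = cc S h := by
  have hFm : Measurable fun Z : Matrix κ (Fin ℓ) 𝕜 => ENNReal.ofReal (FF S Z) :=
    FF_meas S measurable_id
  rw [swap_aux _ hFm]
  have hae := ae_inj (𝕜 := 𝕜) (m := κ) (k := Fin ℓ) (by simpa using hN)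
  have h2 : ∫⁻ Z, ∫⁻ W : unitaryGroup κ 𝕜, ENNReal.ofReal (FF S ((W : Matrix κ κ 𝕜) * Z))
      ∂(hU κ 𝕜) ∂(gM κ (Fin ℓ) 𝕜) = ∫⁻ _Z, cc S h ∂(gM κ (Fin ℓ) 𝕜) := by
    refine lintegral_congr_ae ?_
    filter_upwards [hae] with Z hZ
    exact inner_avg S h hZ
  rw [h2, lintegral_const, measure_univ, mul_one]

end

end Q170.RN
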