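import Pool.Agent.Q170.RN.Post

/-! The lower bound for the loss with a fixed embedding, in adapted coordinates. -/

namespace Q170.RN
open MeasureTheory ProbabilityTheory Matrix
open scoped ComplexOrder

section
variable {𝕜 : Type} [RCLike 𝕜] {ι κ π : Type} [Fintype ι] [Fintype κ] [Fintype π]
  [DecidableEq κ] [DecidableEq ι]

/-- Injectivity of a matrix. -/
def Inj (A : Matrix ι κ 𝕜) : Prop := ∀ v : κ → 𝕜, A *ᵥ v = 0 → v = 0

/-- The orthogonal projection onto the column space (for injective `A`). -/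
noncomputable def PP (A : Matrix ι κ 𝕜) : Matrix ι ι 𝕜 := A * (Aᴴ * A)⁻¹ * Aᴴ

/-- The complementary projection. -/
noncomputable def QQ (A : Matrix ι κ 𝕜) : Matrix ι ι 𝕜 := 1 - PP A

omit [DecidableEq ι] in
lemma isUnit_gram {A : Matrix ι κ 𝕜} (hA : Inj A) : IsUnit (Aᴴ * A) := by
  have h : Function.Injective A.mulVec := by
    intro v w hvw
    have := hA (v - w) (by rw [Matrix.mulVec_sub, sub_eq_zero]; exact hvw)
    exact sub_eq_zero.mp this
  exact (Matrix.PosDef.conjTranspose_mul_self A h).isUnit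

omit [DecidableEq ι] in
lemma PP_mul {A : Matrix ι κ 𝕜} (hA : Inj A) : PP A * A = A := by
  have h := Matrix.nonsing_inv_mul _ ((Matrix.isUnit_iff_isUnit_det _).mp (isUnit_gram hA))
  unfold PP
  rw [Matrix.mul_assoc, Matrix.mul_assoc, h, Matrix.mul_one]

lemma QQ_mul {A : Matrix ι κ 𝕜} (hA : Inj A) : QQ A * A = 0 := by
  unfold QQ
  rw [Matrix.sub_mul, Matrix.one_mul, PP_mul hA, sub_self]

omit [DecidableEq ι] in
lemma PP_herm (A : Matrix ι κ 𝕜) : (PP A)ᴴ = PP A := by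
  unfold PP
  rw [Matrix.conjTranspose_mul, Matrix.conjTranspose_mul, Matrix.conjTranspose_conjTranspose,
    Matrix.conjTranspose_nonsing_inv, Matrix.conjTranspose_mul, Matrix.conjTranspose_conjTranspose,
    Matrix.mul_assoc]

lemma QQ_herm (A : Matrix ι κ 𝕜) : (QQ A)ᴴ = QQ A := by
  unfold QQ
  rw [Matrix.conjTranspose_sub, Matrix.conjTranspose_one, PP_herm]

omit [DecidableEq ι] in
lemma PP_PP {A : Matrix ι κ 𝕜} (hA : Inj A) : PP A * PP A = PP A := by
  conv_lhs => arg 2; unfold PP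
  rw [← Matrix.mul_assoc, ← Matrix.mul_assoc, PP_mul hA]
  rfl

lemma QQ_QQ {A : Matrix ι κ 𝕜} (hA : Inj A) : QQ A * QQ A = QQ A := by
  unfold QQ
  rw [Matrix.sub_mul, Matrix.mul_sub, Matrix.one_mul, Matrix.mul_sub, PP_PP hA, Matrix.one_mul,
    Matrix.mul_one]
  abel

lemma frobSq_QQ {A : Matrix ι κ 𝕜} (hA : Inj A) :
    frobSq (QQ A) = Fintype.card ι - Fintype.card κ := by
  rw [frobSq_eq_re_trace, QQ_herm, QQ_QQ hA]
  unfold QQ PP
  have h := Matrix.nonsing_inv_mul _ ((Matrix.isUnit_iff_isUnit_det _).mp (isUnit_gram hA))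
  rw [Matrix.trace_sub, Matrix.trace_mul_comm, ← Matrix.mul_assoc, Matrix.trace_mul_comm, h]
  simp

lemma frobSq_QQ_le {A : Matrix ι κ 𝕜} (hA : Inj A) (M : Matrix ι π 𝕜) :
    frobSq (QQ A * M) ≤ frobSq M := by
  have h1 : frobSq M = frobSq (QQ A * M) + frobSq (PP A * M) := by
    rw [frobSq_eq_re_trace, frobSq_eq_re_trace (QQ A * M), frobSq_eq_re_trace (PP A * M),
      ← map_add, ← Matrix.trace_add]
    congr 2
    rw [Matrix.conjTranspose_mul, Matrix.conjTranspose_mul, QQ_herm, PP_herm]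
    have e1 : Mᴴ * QQ A * (QQ A * M) = Mᴴ * (QQ A * M) := by
      rw [Matrix.mul_assoc, ← Matrix.mul_assoc (QQ A), QQ_QQ hA]
    have e2 : Mᴴ * PP A * (PP A * M) = Mᴴ * (PP A * M) := by
      rw [Matrix.mul_assoc, ← Matrix.mul_assoc (PP A), PP_PP hA]
    rw [e1, e2, ← Matrix.mul_add, ← Matrix.add_mul]
    congr 1
    unfold QQ
    rw [sub_add_cancel, Matrix.one_mul]
  have := frobSq_nonneg (PP A * M)
  linarith

end

section
variable {𝕜 : Type} [RCLike 𝕜] [Coord 𝕜] {ι ι₁ ι₂ κ π : Type} [Fintype ι] [Fintype ι₁]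
  [Fintype ι₂] [Fintype κ] [Fintype π] [DecidableEq κ]

omit [DecidableEq κ] in
/-- The second block of the loss. -/
lemma blk2 (Y : Matrix κ π 𝕜) : ∫⁻ p, ENNReal.ofReal (frobSq (p.1 * Y + p.2))
    ∂((gM ι₂ κ 𝕜).prod (gM ι₂ π 𝕜)) =
    ENNReal.ofReal (bet 𝕜 * Fintype.card ι₂ * (frobSq Y + Fintype.card π)) := by
  classical
  let u : (Matrix ι₂ κ 𝕜 × Matrix ι₂ π 𝕜) →ₗ[ℝ] Matrix ι₂ (κ ⊕ π) 𝕜 :=
    { toFun := fun p => fromCols p.1 p.2
      map_add' := fun p q => by ext i c; rcases c with c | c <;> rfl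
      map_smul' := fun a p => by ext i c; rcases c with c | c <;> rfl }
  have hum : Measurable u := fromCols_meas measurable_fst measurable_snd
  have hus : Function.Surjective u := fun M => ⟨(M.toCols₁, M.toCols₂), fromCols_toCols M⟩
  have h1 : ((gM ι₂ κ 𝕜).prod (gM ι₂ π 𝕜)).map u = gM ι₂ (κ ⊕ π) 𝕜 :=
    gM_prod_map u (fun M => frobSq_fromCols M.1 M.2) hus hum
  set R : Matrix (κ ⊕ π) π 𝕜 := fromRows Y 1 with hR
  have h2 : ∀ p : Matrix ι₂ κ 𝕜 × Matrix ι₂ π 𝕜, frobSq (p.1 * Y + p.2) = frobSq (u p * R) := by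
    intro p
    change _ = frobSq (fromCols p.1 p.2 * R)
    rw [hR, fromCols_mul_fromRows, Matrix.mul_one]
  have hm : Measurable fun Z : Matrix ι₂ (κ ⊕ π) 𝕜 => ENNReal.ofReal (frobSq (Z * R)) :=
    ENNReal.measurable_ofReal.comp (frobSq_meas.comp (mul_meas measurable_id measurable_const))
  simp only [h2]
  rw [← lintegral_map hm hum, h1, lintegral_mulR, hR, frobSq_fromRows]
  have h3 : frobSq (1 : Matrix π π 𝕜) = Fintype.card π := by
    rw [frobSq_eq_re_trace]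
    simp
  rw [h3]

/-- The first block of the loss. -/
lemma blk1 [DecidableEq ι₁] {A : Matrix ι₁ κ 𝕜} (hA : Inj A) (Y : Matrix ι₁ π 𝕜 → Matrix κ π 𝕜) :
    ENNReal.ofReal (bet 𝕜 * Fintype.card π * (Fintype.card ι₁ - Fintype.card κ)) ≤
      ∫⁻ H, ENNReal.ofReal (frobSq (A * Y H + H)) ∂(gM ι₁ π 𝕜) := by
  rw [← frobSq_QQ hA, ← lintegral_mul]
  refine lintegral_mono fun H => ENNReal.ofReal_le_ofReal ?_
  have h := frobSq_QQ_le hA (A * Y H + H)
  rw [Matrix.mul_add, ← Matrix.mul_assoc, QQ_mul hA, Matrix.zero_mul, zero_add] at h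
  exact h

/-- The loss in adapted coordinates, the estimator seeing only `A₁` and `B₁ = s A₁ X + H₁`. -/
noncomputable def lossF (s : ℝ) (φ : Matrix ι₁ κ 𝕜 × Matrix ι₁ π 𝕜 → Matrix κ π 𝕜)
    (q : Matrix ι₁ κ 𝕜 × ((Matrix κ π 𝕜 × Matrix ι₁ π 𝕜) × (Matrix ι₂ κ 𝕜 × Matrix ι₂ π 𝕜))) : ℝ :=
  frobSq (q.1 * (s • q.2.1.1 - φ (q.1, s • (q.1 * q.2.1.1) + q.2.1.2)) + q.2.1.2) +
  frobSq (q.2.2.1 * (s • q.2.1.1 - φ (q.1, s • (q.1 * q.2.1.1) + q.2.1.2)) + q.2.2.2)

/-- **The Bayes lower bound** in adapted coordinates. -/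
theorem core {ε s : ℝ} (hε : 0 < ε) (hs : s ^ 2 * ε = 1)
    (hN : 0 ≤ bet 𝕜 * (Fintype.card ι₁ - Fintype.card κ) - Coord.α 𝕜)
    (φ : Matrix ι₁ κ 𝕜 × Matrix ι₁ π 𝕜 → Matrix κ π 𝕜) (hφ : Measurable φ) :
    ENNReal.ofReal (bet 𝕜 * Fintype.card π * ((Fintype.card ι₁ - Fintype.card κ) +
      Fintype.card ι₂ * (1 + bet 𝕜 * fe ι₁ κ 𝕜 ε))) ≤
      ∫⁻ q, ENNReal.ofReal (lossF (ι₂ := ι₂) s φ q) ∂((gM ι₁ κ 𝕜).prod
        (((gM κ π 𝕜).prod (gM ι₁ π 𝕜)).prod ((gM ι₂ κ 𝕜).prod (gM ι₂ π 𝕜)))) := by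
  classical
  -- measurability
  let D : Matrix ι₁ κ 𝕜 × (Matrix κ π 𝕜 × Matrix ι₁ π 𝕜) → Matrix κ π 𝕜 :=
    fun q => s • q.2.1 - φ (q.1, s • (q.1 * q.2.1) + q.2.2)
  have hD : Measurable D := by
    refine sub_meas (smul_meas s (measurable_fst.comp measurable_snd)) (hφ.comp ?_)
    exact measurable_fst.prodMk (add_meas (smul_meas s (mul_meas measurable_fst
      (measurable_fst.comp measurable_snd))) (measurable_snd.comp measurable_snd))
  have hDq : Measurable fun q : Matrix ι₁ κ 𝕜 × ((Matrix κ π 𝕜 × Matrix ι₁ π 𝕜) ×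
      (Matrix ι₂ κ 𝕜 × Matrix ι₂ π 𝕜)) => D (q.1, q.2.1) :=
    hD.comp (measurable_fst.prodMk (measurable_fst.comp measurable_snd))
  have hL : Measurable fun q : Matrix ι₁ κ 𝕜 × ((Matrix κ π 𝕜 × Matrix ι₁ π 𝕜) ×
      (Matrix ι₂ κ 𝕜 × Matrix ι₂ π 𝕜)) => ENNReal.ofReal (lossF s φ q) := by
    refine ENNReal.measurable_ofReal.comp (Measurable.add ?_ ?_)
    · exact frobSq_meas.comp (add_meas (mul_meas measurable_fst hDq)
        (measurable_snd.comp (measurable_fst.comp measurable_snd)))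
    · exact frobSq_meas.comp (add_meas (mul_meas
        (measurable_fst.comp (measurable_snd.comp measurable_snd)) hDq)
        (measurable_snd.comp (measurable_snd.comp measurable_snd)))
  rw [lintegral_prod _ hL.aemeasurable]
  -- inner integral
  have hinner : ∀ A : Matrix ι₁ κ 𝕜, Inj A →
      ENNReal.ofReal (bet 𝕜 * Fintype.card π * (Fintype.card ι₁ - Fintype.card κ)) +
        (ENNReal.ofReal (bet 𝕜 * Fintype.card ι₂) *
          ENNReal.ofReal (bet 𝕜 * Fintype.card π * tau ε A) +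
        ENNReal.ofReal (bet 𝕜 * Fintype.card ι₂ * Fintype.card π)) ≤
      ∫⁻ y, ENNReal.ofReal (lossF (ι₂ := ι₂) s φ (A, y))
        ∂(((gM κ π 𝕜).prod (gM ι₁ π 𝕜)).prod ((gM ι₂ κ 𝕜).prod (gM ι₂ π 𝕜))) := by
    intro A hA
    have hLA : Measurable fun y : (Matrix κ π 𝕜 × Matrix ι₁ π 𝕜) ×
        (Matrix ι₂ κ 𝕜 × Matrix ι₂ π 𝕜) => ENNReal.ofReal (lossF s φ (A, y)) :=
      hL.comp measurable_prodMk_left
    rw [lintegral_prod _ hLA.aemeasurable]
    have e1 : ∀ p : Matrix κ π 𝕜 × Matrix ι₁ π 𝕜,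
        ∫⁻ z, ENNReal.ofReal (lossF (ι₂ := ι₂) s φ (A, (p, z)))
          ∂((gM ι₂ κ 𝕜).prod (gM ι₂ π 𝕜)) =
        ENNReal.ofReal (frobSq (A * D (A, p) + p.2)) +
          (ENNReal.ofReal (bet 𝕜 * Fintype.card ι₂) * ENNReal.ofReal (frobSq (D (A, p))) +
        ENNReal.ofReal (bet 𝕜 * Fintype.card ι₂ * Fintype.card π)) := by
      intro p
      have e2 : ∀ z : Matrix ι₂ κ 𝕜 × Matrix ι₂ π 𝕜,
          ENNReal.ofReal (lossF (ι₂ := ι₂) s φ (A, (p, z))) =
          ENNReal.ofReal (frobSq (A * D (A, p) + p.2)) +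
            ENNReal.ofReal (frobSq (z.1 * D (A, p) + z.2)) := by
        intro z
        rw [← ENNReal.ofReal_add (frobSq_nonneg _) (frobSq_nonneg _)]
        rfl
      simp only [e2]
      rw [lintegral_add_left measurable_const, lintegral_const, measure_univ, mul_one, blk2]
      congr 1
      rw [mul_add, ENNReal.ofReal_add, ENNReal.ofReal_mul]
      · exact mul_nonneg bet_nonneg (Nat.cast_nonneg _)
      · exact mul_nonneg (mul_nonneg bet_nonneg (Nat.cast_nonneg _)) (frobSq_nonneg _)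
      · exact mul_nonneg (mul_nonneg bet_nonneg (Nat.cast_nonneg _)) (Nat.cast_nonneg _)
    simp only [e1]
    have hDA : Measurable fun p : Matrix κ π 𝕜 × Matrix ι₁ π 𝕜 => D (A, p) :=
      hD.comp measurable_prodMk_left
    have m1 : Measurable fun p : Matrix κ π 𝕜 × Matrix ι₁ π 𝕜 =>
        ENNReal.ofReal (frobSq (A * D (A, p) + p.2)) :=
      ENNReal.measurable_ofReal.comp (frobSq_meas.comp (add_meas (mul_meas measurable_const hDA)
        measurable_snd))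
    have m2 : Measurable fun p : Matrix κ π 𝕜 × Matrix ι₁ π 𝕜 =>
        ENNReal.ofReal (frobSq (D (A, p))) :=
      ENNReal.measurable_ofReal.comp (frobSq_meas.comp hDA)
    rw [lintegral_add_left m1, lintegral_add_left (m2.const_mul _), lintegral_const_mul _ m2,
      lintegral_const, measure_univ, mul_one]
    refine add_le_add ?_ (add_le_add (mul_le_mul' le_rfl ?_) le_rfl)
    · rw [lintegral_prod _ m1.aemeasurable]
      have h1 : ∀ X : Matrix κ π 𝕜,
          ENNReal.ofReal (bet 𝕜 * Fintype.card π * (Fintype.card ι₁ - Fintype.card κ)) ≤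
          ∫⁻ H, ENNReal.ofReal (frobSq (A * D (A, (X, H)) + H)) ∂(gM ι₁ π 𝕜) :=
        fun X => blk1 hA fun H => D (A, (X, H))
      calc ENNReal.ofReal (bet 𝕜 * Fintype.card π * (Fintype.card ι₁ - Fintype.card κ))
          = ∫⁻ _X : Matrix κ π 𝕜,
            ENNReal.ofReal (bet 𝕜 * Fintype.card π * (Fintype.card ι₁ - Fintype.card κ))
            ∂(gM κ π 𝕜) := by rw [lintegral_const, measure_univ, mul_one]
        _ ≤ _ := lintegral_mono fun X => h1 X
    · have hu : Measurable fun B : Matrix ι₁ π 𝕜 => φ (A, B) := hφ.comp measurable_prodMk_left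
      exact posterior hε hs A (fun B => φ (A, B)) hu
  -- integrate over A
  have hae := ae_inj (𝕜 := 𝕜) (m := ι₁) (k := κ) hN
  have m3 : Measurable fun A : Matrix ι₁ κ 𝕜 =>
      ENNReal.ofReal (bet 𝕜 * Fintype.card π * tau ε A) :=
    ENNReal.measurable_ofReal.comp ((tau_cont hε).measurable.const_mul _)
  have h5 : ∫⁻ A, ENNReal.ofReal (bet 𝕜 * Fintype.card π * tau ε A) ∂(gM ι₁ κ 𝕜) =
      ENNReal.ofReal (bet 𝕜 * Fintype.card π * fe ι₁ κ 𝕜 ε) := by
    have h6 : Integrable (fun x => bet 𝕜 * Fintype.card π * tau ε (toM ι₁ κ 𝕜 x))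
        (G ((ι₁ × κ) × Coord.J 𝕜)) := (tau_int hε).const_mul _
    unfold gM fe
    rw [lintegral_map m3 toM_meas, ← integral_const_mul,
      ofReal_integral_eq_lintegral_ofReal h6 (Filter.Eventually.of_forall fun x =>
        mul_nonneg (mul_nonneg bet_nonneg (Nat.cast_nonneg _)) (tau_nonneg hε _))]
  calc ENNReal.ofReal (bet 𝕜 * Fintype.card π * ((Fintype.card ι₁ - Fintype.card κ) +
      Fintype.card ι₂ * (1 + bet 𝕜 * fe ι₁ κ 𝕜 ε)))
      ≤ ENNReal.ofReal (bet 𝕜 * Fintype.card π * (Fintype.card ι₁ - Fintype.card κ)) +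
        (ENNReal.ofReal (bet 𝕜 * Fintype.card ι₂) *
          ENNReal.ofReal (bet 𝕜 * Fintype.card π * fe ι₁ κ 𝕜 ε) +
        ENNReal.ofReal (bet 𝕜 * Fintype.card ι₂ * Fintype.card π)) := by
        rw [← ENNReal.ofReal_mul (mul_nonneg bet_nonneg (Nat.cast_nonneg _)),
          ← ENNReal.ofReal_add]
        · refine le_trans (ENNReal.ofReal_le_ofReal (le_of_eq ?_)) ENNReal.ofReal_add_le
          ring
        · have := fe_nonneg (𝕜 := 𝕜) (m := ι₁) (k := κ) hε
          have := bet_nonneg (𝕜 := 𝕜)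
          positivity
        · have := bet_nonneg (𝕜 := 𝕜)
          positivity
    _ = ∫⁻ A, (ENNReal.ofReal (bet 𝕜 * Fintype.card π * (Fintype.card ι₁ - Fintype.card κ)) +
        (ENNReal.ofReal (bet 𝕜 * Fintype.card ι₂) *
          ENNReal.ofReal (bet 𝕜 * Fintype.card π * tau ε A) +
        ENNReal.ofReal (bet 𝕜 * Fintype.card ι₂ * Fintype.card π))) ∂(gM ι₁ κ 𝕜) := by
        rw [lintegral_add_left measurable_const, lintegral_add_left (m3.const_mul _),
          lintegral_const_mul _ m3, lintegral_const, measure_univ, mul_one, lintegral_const,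
          measure_univ, mul_one, h5]
    _ ≤ _ := by
        refine lintegral_mono_ae ?_
        filter_upwards [hae] with A hA
        exact hinner A hA

end

end Q170.RN
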