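import Pool.Agent.Q170.RN.Inv

/-! Derivative of `A (Aᴴ A + ε)⁻¹` along a line. -/

namespace Q170.RN
open Matrix
open scoped ComplexOrder

section
variable {𝕜 : Type} [RCLike 𝕜] {m k : Type} [Fintype m] [Fintype k] [DecidableEq k]

open scoped Matrix.Norms.Operator in
lemma hasDerivAt_inv_quad (B0 B1 B2 : Matrix k k 𝕜) (t₀ : ℝ) (hu : IsUnit B0) (a c : k) :
    HasDerivAt (fun t : ℝ => (B0 + (t - t₀) • B1 + (t - t₀) ^ 2 • B2)⁻¹ a c)
      (-(B0⁻¹ * B1 * B0⁻¹) a c) t₀ := by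
  have h1 : HasDerivAt (fun t : ℝ => t - t₀) 1 t₀ := (hasDerivAt_id t₀).sub_const t₀
  have h2 : HasDerivAt (fun t : ℝ => (t - t₀) ^ 2) 0 t₀ := by
    have := h1.fun_pow 2
    simpa using this
  have h3 : HasDerivAt (fun t : ℝ => B0 + (t - t₀) • B1 + (t - t₀) ^ 2 • B2) B1 t₀ := by
    have := ((h1.smul_const B1).const_add B0).fun_add (h2.smul_const B2)
    have e : (1 : ℝ) • B1 + (0 : ℝ) • B2 = B1 := by rw [one_smul, zero_smul, add_zero]
    rw [e] at this
    exact this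
  obtain ⟨u, rfl⟩ := hu
  have h4 := hasFDerivAt_ringInverse (𝕜 := ℝ) u
  have e0 : (fun t : ℝ => (u : Matrix k k 𝕜) + (t - t₀) • B1 + (t - t₀) ^ 2 • B2) t₀ = u := by simp
  rw [← e0] at h4
  have h5 := h4.comp_hasDerivAt t₀ h3
  have h6 : HasDerivAt (fun t : ℝ => ((u : Matrix k k 𝕜) + (t - t₀) • B1 + (t - t₀) ^ 2 • B2)⁻¹)
      (-((u : Matrix k k 𝕜)⁻¹ * B1 * (u : Matrix k k 𝕜)⁻¹)) t₀ := by
    refine (h5.congr_deriv ?_).congr_of_eventuallyEq ?_
    · rw [Matrix.nonsing_inv_eq_ringInverse, Ring.inverse_unit]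
      rfl
    · refine Filter.Eventually.of_forall fun t => ?_
      simp only [Function.comp]
      rw [Matrix.nonsing_inv_eq_ringInverse]
  let ent : Matrix k k 𝕜 →ₗ[ℝ] 𝕜 :=
    { toFun := fun M => M a c
      map_add' := fun _ _ => rfl
      map_smul' := fun _ _ => rfl }
  have h7 := (LinearMap.toContinuousLinearMap ent).hasFDerivAt.comp_hasDerivAt t₀ h6
  exact h7

/-- The derivative of `A T` in the direction `E`. -/
lemma hasDerivAt_AT {ε : ℝ} (hε : 0 < ε) (A E : Matrix m k 𝕜) (t₀ : ℝ) (i : m) (c : k) :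
    HasDerivAt (fun t : ℝ => ((A + (t - t₀) • E) * TT ε (A + (t - t₀) • E)) i c)
      ((E * TT ε A) i c - (A * TT ε A * (Eᴴ * A + Aᴴ * E) * TT ε A) i c) t₀ := by
  have h1 : ∀ t : ℝ, TT ε (A + (t - t₀) • E) =
      ((Aᴴ * A + (ε : 𝕜) • (1 : Matrix k k 𝕜)) + (t - t₀) • (Eᴴ * A + Aᴴ * E) +
        (t - t₀) ^ 2 • (Eᴴ * E))⁻¹ := by
    intro t
    unfold TT
    congr 1
    rw [Matrix.conjTranspose_add, Matrix.conjTranspose_smul, Matrix.add_mul, Matrix.mul_add,
      Matrix.mul_add, Matrix.mul_smul, Matrix.smul_mul, Matrix.smul_mul, Matrix.mul_smul]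
    simp only [star_trivial, smul_smul, smul_add, sq]
    abel
  have h2 := fun a => hasDerivAt_inv_quad (Aᴴ * A + (ε : 𝕜) • (1 : Matrix k k 𝕜))
    (Eᴴ * A + Aᴴ * E) (Eᴴ * E) t₀ (isUnit_aux hε A) a c
  have h3 : ∀ a, HasDerivAt (fun t : ℝ => (A + (t - t₀) • E) i a) (E i a) t₀ := by
    intro a
    have h4 : HasDerivAt (fun t : ℝ => t - t₀) 1 t₀ := (hasDerivAt_id t₀).sub_const t₀
    have h5 := (h4.smul_const (E i a)).const_add (A i a)
    rw [one_smul] at h5
    exact h5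
  have h4 : HasDerivAt (fun t : ℝ => ∑ a, (A + (t - t₀) • E) i a *
      ((Aᴴ * A + (ε : 𝕜) • (1 : Matrix k k 𝕜)) + (t - t₀) • (Eᴴ * A + Aᴴ * E) +
        (t - t₀) ^ 2 • (Eᴴ * E))⁻¹ a c)
      (∑ a, (E i a * TT ε A a c + A i a * (-(TT ε A * (Eᴴ * A + Aᴴ * E) * TT ε A) a c))) t₀ := by
    refine HasDerivAt.fun_sum fun a _ => ?_
    have h6 := (h3 a).fun_mul (h2 a)
    refine h6.congr_deriv ?_
    simp only [sub_self, zero_smul, add_zero, zero_pow, ne_eq, OfNat.ofNat_ne_zero,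
      not_false_eq_true]
    rfl
  refine (h4.congr_deriv ?_).congr_of_eventuallyEq (Filter.Eventually.of_forall fun t => ?_)
  · rw [Finset.sum_add_distrib]
    simp only [mul_neg]
    rw [Finset.sum_neg_distrib, ← sub_eq_add_neg]
    congr 1
    rw [show A * TT ε A * (Eᴴ * A + Aᴴ * E) * TT ε A =
      A * (TT ε A * (Eᴴ * A + Aᴴ * E) * TT ε A) by simp only [Matrix.mul_assoc]]
    rfl
  · simp only []
    rw [Matrix.mul_apply, h1]

/-- The derivative in a coordinate direction. -/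
lemma hasDerivAt_AT_single [DecidableEq m] {ε : ℝ} (hε : 0 < ε) (A : Matrix m k 𝕜) (e : 𝕜)
    (t₀ : ℝ) (i : m) (c : k) :
    HasDerivAt (fun t : ℝ => ((A + (t - t₀) • Matrix.single i c e) *
        TT ε (A + (t - t₀) • Matrix.single i c e)) i c)
      (e * TT ε A c c - (A * TT ε A) i c * star e * (A * TT ε A) i c -
        (A * TT ε A * Aᴴ) i i * e * TT ε A c c) t₀ := by
  refine (hasDerivAt_AT hε A (Matrix.single i c e) t₀ i c).congr_deriv ?_
  rw [Matrix.mul_add, Matrix.add_mul, Matrix.add_apply, sub_add_eq_sub_sub]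
  congr 1
  · congr 1
    · simp
    · rw [show A * TT ε A * ((Matrix.single i c e)ᴴ * A) * TT ε A =
        A * TT ε A * (Matrix.single i c e)ᴴ * (A * TT ε A) by simp only [Matrix.mul_assoc]]
      rw [Matrix.conjTranspose_single, Matrix.mul_apply, Finset.sum_eq_single i]
      · rw [Matrix.mul_single_apply_same]
      · intro b _ hb
        rw [Matrix.mul_single_apply_of_ne _ _ _ _ _ hb, zero_mul]
      · simp
  · rw [show A * TT ε A * (Aᴴ * Matrix.single i c e) * TT ε A =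
        (A * TT ε A * Aᴴ) * Matrix.single i c e * TT ε A by simp only [Matrix.mul_assoc]]
    rw [Matrix.mul_apply, Finset.sum_eq_single c]
    · rw [Matrix.mul_single_apply_same]
    · intro b _ hb
      rw [Matrix.mul_single_apply_of_ne _ _ _ _ _ hb, zero_mul]
    · simp

end

end Q170.RN
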