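import Pool.Agent.Q170.RN.Avg

/-! The residual for a strongly graded matrix: a lower bound by duality. -/

namespace Q170.RN
open MeasureTheory ProbabilityTheory Matrix
open scoped ComplexOrder

section
variable {𝕜 : Type} [RCLike 𝕜]

lemma dual_bound {κ k : Type} [Fintype κ] [DecidableEq κ] [Fintype k] [DecidableEq k]
    (M : Matrix κ k 𝕜) (S Y : Matrix κ κ 𝕜) (hY : Mᴴ * Y = 0) :
    2 * RCLike.re (trace (Yᴴ * S)) - frobSq Y ≤ frobSq (QQ M * S) := by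
  have h1 : QQ M * Y = Y := by
    unfold QQ PP
    rw [Matrix.sub_mul, Matrix.one_mul, Matrix.mul_assoc, hY, Matrix.mul_zero, sub_zero]
  have h2 : Yᴴ * (QQ M * S) = Yᴴ * S := by
    calc Yᴴ * (QQ M * S) = (QQ M * Y)ᴴ * S := by
          rw [Matrix.conjTranspose_mul, QQ_herm, Matrix.mul_assoc]
      _ = _ := by rw [h1]
  have h3 := frobSq_nonneg (QQ M * S - Y)
  rw [frobSq_sub', h2] at h3
  linarith

variable {q w ℓ : ℕ}

/-- The diagonal matrix `diag(t,…,t,1,…,1)`. -/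
noncomputable def SS (𝕜 : Type) [RCLike 𝕜] (q w : ℕ) (t : ℝ) :
    Matrix (Fin q ⊕ Fin w) (Fin q ⊕ Fin w) 𝕜 :=
  fromBlocks (t • (1 : Matrix (Fin q) (Fin q) 𝕜)) (0 : Matrix (Fin q) (Fin w) 𝕜)
    (0 : Matrix (Fin w) (Fin q) 𝕜) (1 : Matrix (Fin w) (Fin w) 𝕜)

lemma SS_mul_rows {k : Type} (t : ℝ) (X : Matrix (Fin q) k 𝕜) (Z : Matrix (Fin w) k 𝕜) :
    SS 𝕜 q w t * fromRows X Z = fromRows (t • X) Z := by
  unfold SS
  rw [fromBlocks_mul_fromRows, Matrix.smul_mul, Matrix.one_mul, Matrix.zero_mul, Matrix.zero_mul,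
    Matrix.one_mul, add_zero, zero_add]

lemma cols_mul_SS {k : Type} (t : ℝ) (X : Matrix k (Fin q) 𝕜) (Z : Matrix k (Fin w) 𝕜) :
    fromCols X Z * SS 𝕜 q w t = fromCols (t • X) Z := by
  unfold SS
  rw [fromCols_mul_fromBlocks, Matrix.mul_smul, Matrix.mul_one, Matrix.mul_zero, Matrix.mul_zero,
    Matrix.mul_one, add_zero, zero_add]

lemma exists_adapted (h : q ≤ ℓ) (A : Matrix (Fin ℓ) (Fin q) 𝕜) (hA : Inj A) :
    ∃ (U : Matrix (Fin ℓ) (Fin q ⊕ Fin (ℓ - q)) 𝕜) (R : Matrix (Fin q) (Fin q) 𝕜),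
      Uᴴ * U = 1 ∧ U * Uᴴ = 1 ∧ A = U * fromRows R (0 : Matrix (Fin (ℓ - q)) (Fin q) 𝕜) ∧
      IsUnit R := by
  obtain ⟨U, h1, h2, h3⟩ := exists_unitary h A
  have h4 : Uᴴ * A = fromRows (Uᴴ * A).toRows₁ (0 : Matrix (Fin (ℓ - q)) (Fin q) 𝕜) := by
    ext i j
    rcases i with i | i
    · rfl
    · exact h3 i j
  have h5 : A = U * fromRows (Uᴴ * A).toRows₁ (0 : Matrix (Fin (ℓ - q)) (Fin q) 𝕜) := by
    rw [← h4, ← Matrix.mul_assoc, h2, Matrix.one_mul]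
  refine ⟨U, (Uᴴ * A).toRows₁, h1, h2, h5, ?_⟩
  rw [← Matrix.mulVec_injective_iff_isUnit]
  intro v w hvw
  have h6 : A *ᵥ (v - w) = 0 := by
    rw [h5, ← Matrix.mulVec_mulVec, fromRows_mulVec, Matrix.mulVec_sub, sub_eq_zero.mpr hvw,
      Matrix.zero_mulVec]
    have : Sum.elim (0 : Fin q → 𝕜) (0 : Fin (ℓ - q) → 𝕜) = 0 := by
      funext i; rcases i with i | i <;> rfl
    rw [this, Matrix.mulVec_zero]
  exact sub_eq_zero.mp (hA _ h6)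

/-- The limiting residual. -/
noncomputable def LL (R : Matrix (Fin q) (Fin q) 𝕜) (G₁ : Matrix (Fin w) (Fin q) 𝕜)
    (G₂ : Matrix (Fin w) (Fin (ℓ - q)) 𝕜) : ℝ :=
  frobSq (QQ G₂ * G₁ * (R⁻¹)ᴴ) + frobSq (QQ G₂)

/-- The error coefficient. -/
noncomputable def KK (R : Matrix (Fin q) (Fin q) 𝕜) (G₁ : Matrix (Fin w) (Fin q) 𝕜)
    (G₂ : Matrix (Fin w) (Fin (ℓ - q)) 𝕜) : ℝ :=
  frobSq (R⁻¹ * (G₁ᴴ * (QQ G₂ * fromCols (-(G₁ * (R⁻¹)ᴴ)) (1 : Matrix (Fin w) (Fin w) 𝕜))))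

theorem FF_lower {t : ℝ} (ht : t ≠ 0) (U : Matrix (Fin ℓ) (Fin q ⊕ Fin (ℓ - q)) 𝕜)
    {R : Matrix (Fin q) (Fin q) 𝕜} (hR : IsUnit R) (G₁ : Matrix (Fin w) (Fin q) 𝕜)
    {G₂ : Matrix (Fin w) (Fin (ℓ - q)) 𝕜} (hG : Inj G₂) :
    LL R G₁ G₂ - (t⁻¹) ^ 2 * KK R G₁ G₂ ≤ FF (SS 𝕜 q w t)
      (fromRows (U * fromRows R (0 : Matrix (Fin (ℓ - q)) (Fin q) 𝕜))ᴴ (fromCols G₁ G₂ * Uᴴ)) := by
  set D : Matrix (Fin w) (Fin q ⊕ Fin w) 𝕜 :=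
    fromCols (-(G₁ * (R⁻¹)ᴴ)) (1 : Matrix (Fin w) (Fin w) 𝕜) with hD
  set X := QQ G₂ * D with hX
  set Ys : Matrix (Fin q) (Fin q ⊕ Fin w) 𝕜 := (-t⁻¹) • (R⁻¹ * (G₁ᴴ * X)) with hYs
  set A := U * fromRows R (0 : Matrix (Fin (ℓ - q)) (Fin q) 𝕜) with hA
  have hRd : R * R⁻¹ = 1 := Matrix.mul_nonsing_inv _ ((Matrix.isUnit_iff_isUnit_det _).mp hR)
  have hGX : G₂ᴴ * X = 0 := by
    have h1 : G₂ᴴ * QQ G₂ = 0 := by
      calc G₂ᴴ * QQ G₂ = (QQ G₂ * G₂)ᴴ := by rw [Matrix.conjTranspose_mul, QQ_herm]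
        _ = 0 := by rw [QQ_mul hG, Matrix.conjTranspose_zero]
    rw [hX, ← Matrix.mul_assoc, h1, Matrix.zero_mul]
  have hAs : ∀ Z : Matrix (Fin q) (Fin q ⊕ Fin w) 𝕜, A * Z =
      U * fromRows (R * Z) (0 : Matrix (Fin (ℓ - q)) (Fin q ⊕ Fin w) 𝕜) := by
    intro Z
    rw [hA, Matrix.mul_assoc, fromRows_mul, Matrix.zero_mul]
  have hw : (fromCols G₁ G₂ * Uᴴ)ᴴ * X = U * fromRows (G₁ᴴ * X)
      (0 : Matrix (Fin (ℓ - q)) (Fin q ⊕ Fin w) 𝕜) := by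
    rw [Matrix.conjTranspose_mul, Matrix.conjTranspose_conjTranspose,
      conjTranspose_fromCols_eq_fromRows_conjTranspose, Matrix.mul_assoc, fromRows_mul, hGX]
  have hRY : R * Ys = (-t⁻¹) • (G₁ᴴ * X) := by
    rw [hYs, Matrix.mul_smul, ← Matrix.mul_assoc, hRd, Matrix.one_mul]
  have hY : (SS 𝕜 q w t * fromRows Aᴴ (fromCols G₁ G₂ * Uᴴ))ᴴ * fromRows Ys X = 0 := by
    rw [SS_mul_rows, conjTranspose_fromRows_eq_fromCols_conjTranspose, fromCols_mul_fromRows,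
      Matrix.conjTranspose_smul, Matrix.conjTranspose_conjTranspose, star_trivial, Matrix.smul_mul,
      hAs, hw, hRY, ← Matrix.mul_smul, ← Matrix.mul_add]
    have h2 : t • fromRows ((-t⁻¹) • (G₁ᴴ * X)) (0 : Matrix (Fin (ℓ - q)) (Fin q ⊕ Fin w) 𝕜) +
        fromRows (G₁ᴴ * X) (0 : Matrix (Fin (ℓ - q)) (Fin q ⊕ Fin w) 𝕜) = 0 := by
      ext i j
      rcases i with i | i
      · simp only [Matrix.add_apply, Matrix.smul_apply, fromRows_apply_inl, Matrix.zero_apply,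
          smul_smul]
        rw [mul_neg, mul_inv_cancel₀ ht, neg_one_smul]
        exact neg_add_cancel _
      · simp only [Matrix.add_apply, Matrix.smul_apply, fromRows_apply_inr, Matrix.zero_apply,
          smul_zero, add_zero]
    rw [h2, Matrix.mul_zero]
  have h3 := dual_bound _ (SS 𝕜 q w t) _ hY
  have h4 : (fromRows Ys X)ᴴ * SS 𝕜 q w t = Xᴴ * D := by
    rw [conjTranspose_fromRows_eq_fromCols_conjTranspose, cols_mul_SS, hD, mul_fromCols,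
      Matrix.mul_one]
    congr 1
    rw [hYs, Matrix.conjTranspose_smul, smul_smul, star_trivial, Matrix.conjTranspose_mul,
      Matrix.conjTranspose_mul, Matrix.conjTranspose_conjTranspose, mul_neg, mul_inv_cancel₀ ht,
      neg_one_smul, Matrix.mul_neg, Matrix.mul_assoc]
  have h5 : RCLike.re (trace (Xᴴ * D)) = frobSq X := by
    rw [frobSq_eq_re_trace, hX, Matrix.conjTranspose_mul, QQ_herm, Matrix.mul_assoc,
      Matrix.mul_assoc, ← Matrix.mul_assoc (QQ G₂) (QQ G₂), QQ_QQ hG]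
  have h6 : frobSq X = LL R G₁ G₂ := by
    rw [hX, hD, mul_fromCols, frobSq_fromCols, Matrix.mul_one, Matrix.mul_neg]
    unfold LL
    rw [← Matrix.mul_assoc]
    congr 1
    have := frobSq_smul (-1) (QQ G₂ * G₁ * (R⁻¹)ᴴ)
    rw [neg_one_smul] at this
    rw [this]
    norm_num
  have h7 : frobSq Ys = (t⁻¹) ^ 2 * KK R G₁ G₂ := by
    rw [hYs, frobSq_smul]
    unfold KK
    rw [neg_sq]
  rw [h4, h5, frobSq_fromRows, h6, h7] at h3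
  unfold FF
  linarith

lemma KK_nonneg (R : Matrix (Fin q) (Fin q) 𝕜) (G₁ : Matrix (Fin w) (Fin q) 𝕜)
    (G₂ : Matrix (Fin w) (Fin (ℓ - q)) 𝕜) : 0 ≤ KK R G₁ G₂ := frobSq_nonneg _

/-- `tau ε A ≤ ‖R⁻¹‖²` when `A = U [R; 0]`. -/
lemma tau_le_inv {ε : ℝ} (hε : 0 < ε) {U : Matrix (Fin ℓ) (Fin q ⊕ Fin (ℓ - q)) 𝕜}
    (hU : Uᴴ * U = 1) {R : Matrix (Fin q) (Fin q) 𝕜} (hR : IsUnit R) :
    tau ε (U * fromRows R (0 : Matrix (Fin (ℓ - q)) (Fin q) 𝕜)) ≤ frobSq (R⁻¹)ᴴ := by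
  set A := U * fromRows R (0 : Matrix (Fin (ℓ - q)) (Fin q) 𝕜) with hA
  have hRd : R * R⁻¹ = 1 := Matrix.mul_nonsing_inv _ ((Matrix.isUnit_iff_isUnit_det _).mp hR)
  have hgram : Aᴴ * A = Rᴴ * R := by
    rw [hA, Matrix.conjTranspose_mul, Matrix.mul_assoc, ← Matrix.mul_assoc Uᴴ, hU, Matrix.one_mul,
      conjTranspose_fromRows_eq_fromCols_conjTranspose, fromCols_mul_fromRows,
      Matrix.mul_zero, add_zero]
  have h1 := TT_left hε A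
  rw [hgram] at h1
  have hN : (Rᴴ * R) * (R⁻¹ * (R⁻¹)ᴴ) = 1 := by
    calc (Rᴴ * R) * (R⁻¹ * (R⁻¹)ᴴ) = Rᴴ * (R * R⁻¹) * (R⁻¹)ᴴ := by simp only [Matrix.mul_assoc]
      _ = (R⁻¹ * R)ᴴ := by rw [hRd, Matrix.mul_one, Matrix.conjTranspose_mul]
      _ = 1 := by
        rw [Matrix.nonsing_inv_mul _ ((Matrix.isUnit_iff_isUnit_det _).mp hR),
          Matrix.conjTranspose_one]
  have h2 : R⁻¹ * (R⁻¹)ᴴ = TT ε A + (ε : 𝕜) • (TT ε A * (R⁻¹ * (R⁻¹)ᴴ)) := by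
    calc R⁻¹ * (R⁻¹)ᴴ = (TT ε A * (Rᴴ * R) + (ε : 𝕜) • TT ε A) * (R⁻¹ * (R⁻¹)ᴴ) := by
          rw [h1, Matrix.one_mul]
      _ = _ := by
        rw [Matrix.add_mul, Matrix.mul_assoc, hN, Matrix.mul_one, Matrix.smul_mul]
  have h3 : frobSq (R⁻¹)ᴴ = RCLike.re (trace (R⁻¹ * (R⁻¹)ᴴ)) := by
    rw [frobSq_eq_re_trace, Matrix.conjTranspose_conjTranspose]
  rw [h3, h2, Matrix.trace_add, Matrix.trace_smul, map_add, smul_eq_mul, RCLike.re_ofReal_mul]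
  have h4 : RCLike.re (trace (TT ε A * (R⁻¹ * (R⁻¹)ᴴ))) =
      frobSq (A * TT ε A * R⁻¹) + ε * frobSq (TT ε A * R⁻¹) := by
    have e1 : trace (TT ε A * (R⁻¹ * (R⁻¹)ᴴ)) = trace ((R⁻¹)ᴴ * TT ε A * R⁻¹) := by
      rw [← Matrix.mul_assoc, Matrix.trace_mul_comm, Matrix.mul_assoc]
    rw [e1, frobSq_eq_re_trace, frobSq_eq_re_trace (TT ε A * R⁻¹)]
    have e2 : (R⁻¹)ᴴ * TT ε A * R⁻¹ = (A * TT ε A * R⁻¹)ᴴ * (A * TT ε A * R⁻¹) +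
        (ε : 𝕜) • ((TT ε A * R⁻¹)ᴴ * (TT ε A * R⁻¹)) := by
      conv_lhs => rw [TT_id hε A]
      rw [Matrix.mul_add, Matrix.add_mul, Matrix.mul_smul, Matrix.smul_mul,
        Matrix.conjTranspose_mul (A * TT ε A), Matrix.conjTranspose_mul (TT ε A) R⁻¹]
      simp only [Matrix.mul_assoc]
    rw [e2, Matrix.trace_add, Matrix.trace_smul, map_add, smul_eq_mul, RCLike.re_ofReal_mul]
  rw [h4]
  have h5 := frobSq_nonneg (A * TT ε A * R⁻¹)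
  have h6 := frobSq_nonneg (TT ε A * R⁻¹)
  have h7 : 0 ≤ ε * (frobSq (A * TT ε A * R⁻¹) + ε * frobSq (TT ε A * R⁻¹)) := by positivity
  unfold tau
  linarith

end

end Q170.RN
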