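import Pool.Agent.Q170.RN.Dual

/-! The average residual for strongly graded matrices. -/

namespace Q170.RN
open MeasureTheory ProbabilityTheory Matrix Filter Topology
open scoped ComplexOrder

section
variable {𝕜 : Type} [RCLike 𝕜] [Coord 𝕜]

/-- Second moment of `M * Z * R`. -/
theorem lintegral_mul_mul {l m k p : Type} [Fintype l] [Fintype m] [Fintype k] [Fintype p]
    (M : Matrix l m 𝕜) (R : Matrix k p 𝕜) :
    ∫⁻ Z, ENNReal.ofReal (frobSq (M * Z * R)) ∂(gM m k 𝕜) =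
      ENNReal.ofReal (bet 𝕜 * frobSq M * frobSq R) := by
  classical
  have hm : Measurable fun Z : Matrix m k 𝕜 => ENNReal.ofReal (frobSq (M * Z * R)) :=
    ENNReal.measurable_ofReal.comp (frobSq_meas.comp
      (mul_meas (mul_meas measurable_const measurable_id) measurable_const))
  let L : Matrix m k 𝕜 →ₗ[ℝ] Matrix l p 𝕜 :=
    { toFun := fun Z => M * Z * R
      map_add' := fun A B => by rw [Matrix.mul_add, Matrix.add_mul]
      map_smul' := fun a A => by rw [Matrix.mul_smul, Matrix.smul_mul, RingHom.id_apply] }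
  unfold gM
  rw [lintegral_map hm toM_meas]
  have h1 := lintegral_frob (L ∘ₗ toM m k 𝕜)
  have h2 : ∀ x, (L ∘ₗ toM m k 𝕜) x = M * toM m k 𝕜 x * R := fun x => rfl
  simp only [h2] at h1
  rw [h1]
  congr 1
  have h3 : ∀ q : (m × k) × Coord.J 𝕜, frobSq (M * toM m k 𝕜 (Pi.single q 1) * R) =
      (∑ i, ‖M i q.1.1‖ ^ 2) * (∑ c, ‖R q.1.2 c‖ ^ 2) := by
    rintro ⟨⟨a, c⟩, j⟩
    rw [toM_single]
    unfold frobSq
    rw [Finset.sum_mul]
    refine Finset.sum_congr rfl fun i _ => ?_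
    rw [Finset.mul_sum]
    refine Finset.sum_congr rfl fun b _ => ?_
    have h4 : (M * Matrix.single a c (Coord.e j) * R) i b = M i a * Coord.e j * R c b := by
      rw [Matrix.mul_assoc, Matrix.mul_apply, Finset.sum_eq_single a]
      · rw [Matrix.single_mul_apply_same, mul_assoc]
      · intro x _ hx
        rw [Matrix.single_mul_apply_of_ne _ _ _ _ _ hx, mul_zero]
      · simp
    rw [h4, norm_mul, norm_mul, norm_e, mul_one, mul_pow]
  simp only [h3]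
  rw [Fintype.sum_prod_type, Fintype.sum_prod_type]
  simp only [Finset.sum_const, Finset.card_univ, nsmul_eq_mul]
  unfold frobSq bet
  rw [Finset.sum_comm (s := (Finset.univ : Finset l)), mul_assoc, Finset.sum_mul, Finset.mul_sum]
  refine Finset.sum_congr rfl fun a _ => ?_
  rw [Finset.mul_sum, Finset.mul_sum]

variable {q w ℓ : ℕ}

/-- The limiting average over the `G₁` block. -/
lemma lintegral_LL (R : Matrix (Fin q) (Fin q) 𝕜) {G₂ : Matrix (Fin w) (Fin (ℓ - q)) 𝕜}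
    (hG : Inj G₂) : ∫⁻ G₁, ENNReal.ofReal (LL R G₁ G₂) ∂(gM (Fin w) (Fin q) 𝕜) =
      ENNReal.ofReal (((w : ℝ) - (ℓ - q : ℕ)) * (1 + bet 𝕜 * frobSq (R⁻¹)ᴴ)) := by
  have hm : Measurable fun G₁ : Matrix (Fin w) (Fin q) 𝕜 =>
      ENNReal.ofReal (frobSq (QQ G₂ * G₁ * (R⁻¹)ᴴ)) :=
    ENNReal.measurable_ofReal.comp (frobSq_meas.comp
      (mul_meas (mul_meas measurable_const measurable_id) measurable_const))
  have h1 : ∀ G₁ : Matrix (Fin w) (Fin q) 𝕜, ENNReal.ofReal (LL R G₁ G₂) =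
      ENNReal.ofReal (frobSq (QQ G₂ * G₁ * (R⁻¹)ᴴ)) + ENNReal.ofReal (frobSq (QQ G₂)) := by
    intro G₁
    unfold LL
    rw [ENNReal.ofReal_add (frobSq_nonneg _) (frobSq_nonneg _)]
  simp only [h1]
  rw [lintegral_add_left hm, lintegral_mul_mul, lintegral_const, measure_univ, mul_one,
    ← ENNReal.ofReal_add (mul_nonneg (mul_nonneg bet_nonneg (frobSq_nonneg _)) (frobSq_nonneg _))
    (frobSq_nonneg _)]
  congr 1
  have h2 := frobSq_QQ hG
  rw [Fintype.card_fin, Fintype.card_fin] at h2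
  rw [h2]
  ring

/-- The limit inferior of the residuals. -/
noncomputable def Lim (q w : ℕ) (Z : Matrix (Fin q ⊕ Fin w) (Fin ℓ) 𝕜) : ENNReal :=
  liminf (fun n : ℕ => ENNReal.ofReal (FF (SS 𝕜 q w ((n : ℝ) + 1)) Z)) atTop

omit [Coord 𝕜] in
lemma Lim_meas : Measurable (Lim (𝕜 := 𝕜) (ℓ := ℓ) q w) := by
  unfold Lim
  exact Measurable.liminf fun n => FF_meas _ measurable_id

omit [Coord 𝕜] in
lemma le_Lim (U : Matrix (Fin ℓ) (Fin q ⊕ Fin (ℓ - q)) 𝕜)
    {R : Matrix (Fin q) (Fin q) 𝕜} (hR : IsUnit R) (G₁ : Matrix (Fin w) (Fin q) 𝕜)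
    {G₂ : Matrix (Fin w) (Fin (ℓ - q)) 𝕜} (hG : Inj G₂) :
    ENNReal.ofReal (LL R G₁ G₂) ≤ Lim q w
      (fromRows (U * fromRows R (0 : Matrix (Fin (ℓ - q)) (Fin q) 𝕜))ᴴ (fromCols G₁ G₂ * Uᴴ)) := by
  have h1 : Tendsto (fun n : ℕ => ENNReal.ofReal (LL R G₁ G₂ -
      (((n : ℝ) + 1)⁻¹) ^ 2 * KK R G₁ G₂)) atTop (𝓝 (ENNReal.ofReal (LL R G₁ G₂))) := by
    refine ENNReal.tendsto_ofReal ?_
    have h2 : Tendsto (fun n : ℕ => ((n : ℝ) + 1)⁻¹) atTop (𝓝 0) := by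
      simpa using (tendsto_one_div_add_atTop_nhds_zero_nat (𝕜 := ℝ))
    have h3 := tendsto_const_nhds (x := LL R G₁ G₂).sub (((h2.pow 2).mul_const (KK R G₁ G₂)))
    simpa using h3
  rw [← h1.liminf_eq]
  unfold Lim
  refine liminf_le_liminf (Eventually.of_forall fun n => ?_)
  exact ENNReal.ofReal_le_ofReal (FF_lower (by positivity) U hR G₁ hG)

/-- Average over the lower block of the Gaussian matrix. -/
lemma inner_lower (hq : q ≤ ℓ) (hN : 0 ≤ bet 𝕜 * ((w : ℝ) - (ℓ - q : ℕ)) - Coord.α 𝕜)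
    {A : Matrix (Fin ℓ) (Fin q) 𝕜} (hA : Inj A) {ε : ℝ} (hε : 0 < ε)
    (hw : 0 ≤ (w : ℝ) - (ℓ - q : ℕ)) :
    ENNReal.ofReal (((w : ℝ) - (ℓ - q : ℕ)) * (1 + bet 𝕜 * tau ε A)) ≤
      ∫⁻ Γ, Lim q w (fromRows Aᴴ Γ) ∂(gM (Fin w) (Fin ℓ) 𝕜) := by
  obtain ⟨U, R, h1, h2, h3, hR⟩ := exists_adapted hq A hA
  let u : (Matrix (Fin w) (Fin (ℓ - q)) 𝕜 × Matrix (Fin w) (Fin q) 𝕜) →ₗ[ℝ]
      Matrix (Fin w) (Fin ℓ) 𝕜 :=
    { toFun := fun p => fromCols p.2 p.1 * Uᴴ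
      map_add' := fun p q => by
        rw [← Matrix.add_mul]
        congr 1
        ext i c; rcases c with c | c <;> rfl
      map_smul' := fun a p => by
        rw [RingHom.id_apply, ← Matrix.smul_mul]
        congr 1
        ext i c; rcases c with c | c <;> rfl }
  have hum : Measurable u := mul_meas (fromCols_meas measurable_snd measurable_fst) measurable_const
  have hus : Function.Surjective u := fun M => ⟨((M * U).toCols₂, (M * U).toCols₁), by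
    change fromCols (M * U).toCols₁ (M * U).toCols₂ * Uᴴ = M
    rw [fromCols_toCols, Matrix.mul_assoc, h2, Matrix.mul_one]⟩
  have hui : ∀ p, frobSq (u p) = frobSq p.1 + frobSq p.2 := by
    intro p
    change frobSq (fromCols p.2 p.1 * Uᴴ) = _
    rw [← frobSq_conjTranspose, Matrix.conjTranspose_mul, Matrix.conjTranspose_conjTranspose,
      frobSq_unitary h1, frobSq_conjTranspose, frobSq_fromCols, add_comm]
  have hmap : ((gM (Fin w) (Fin (ℓ - q)) 𝕜).prod (gM (Fin w) (Fin q) 𝕜)).map u =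
      gM (Fin w) (Fin ℓ) 𝕜 := gM_prod_map u hui hus hum
  have hLm : Measurable fun Γ : Matrix (Fin w) (Fin ℓ) 𝕜 => Lim q w (fromRows Aᴴ Γ) :=
    Lim_meas.comp (fromRows_meas measurable_const measurable_id)
  rw [← hmap, lintegral_map hLm hum]
  have hcm : Measurable fun p : Matrix (Fin w) (Fin (ℓ - q)) 𝕜 × Matrix (Fin w) (Fin q) 𝕜 =>
      Lim q w (fromRows Aᴴ (u p)) := hLm.comp hum
  rw [lintegral_prod _ hcm.aemeasurable]
  have hae := ae_inj (𝕜 := 𝕜) (m := Fin w) (k := Fin (ℓ - q)) (by simpa using hN)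
  have htau : tau ε A ≤ frobSq (R⁻¹)ᴴ := by
    rw [h3]; exact tau_le_inv hε h1 hR
  calc ENNReal.ofReal (((w : ℝ) - (ℓ - q : ℕ)) * (1 + bet 𝕜 * tau ε A))
      ≤ ENNReal.ofReal (((w : ℝ) - (ℓ - q : ℕ)) * (1 + bet 𝕜 * frobSq (R⁻¹)ᴴ)) := by
        refine ENNReal.ofReal_le_ofReal (mul_le_mul_of_nonneg_left ?_ hw)
        have := mul_le_mul_of_nonneg_left htau (bet_nonneg (𝕜 := 𝕜))
        linarith
    _ = ∫⁻ _G₂ : Matrix (Fin w) (Fin (ℓ - q)) 𝕜,
        ENNReal.ofReal (((w : ℝ) - (ℓ - q : ℕ)) * (1 + bet 𝕜 * frobSq (R⁻¹)ᴴ))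
        ∂(gM (Fin w) (Fin (ℓ - q)) 𝕜) := by rw [lintegral_const, measure_univ, mul_one]
    _ ≤ _ := by
        refine lintegral_mono_ae ?_
        filter_upwards [hae] with G₂ hG
        rw [← lintegral_LL R hG]
        refine lintegral_mono fun G₁ => ?_
        have h4 := le_Lim U hR G₁ hG
        rw [← h3] at h4
        exact h4

/-- **Lower bound for the average residuals.** -/
theorem cc_lower (hq : q ≤ ℓ) (hℓ : ℓ ≤ Fintype.card (Fin q ⊕ Fin w))
    (hN : 0 ≤ bet 𝕜 * ((w : ℝ) - (ℓ - q : ℕ)) - Coord.α 𝕜)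
    (hN' : 0 ≤ bet 𝕜 * ((ℓ : ℝ) - q) - Coord.α 𝕜) {ε : ℝ} (hε : 0 < ε) (X : ENNReal)
    (hX : ∀ n : ℕ, cc (SS 𝕜 q w ((n : ℝ) + 1)) hℓ ≤ X) :
    ENNReal.ofReal (((w : ℝ) - (ℓ - q : ℕ)) * (1 + bet 𝕜 * fe (Fin ℓ) (Fin q) 𝕜 ε)) ≤ X := by
  have hw : 0 ≤ (w : ℝ) - (ℓ - q : ℕ) := by
    have h : ℓ ≤ q + w := by simpa using hℓ
    have : ((ℓ - q : ℕ) : ℝ) ≤ w := by exact_mod_cast (show ℓ - q ≤ w by omega)
    linarith
  have hcard : 0 ≤ bet 𝕜 * ((Fintype.card (Fin q ⊕ Fin w) : ℝ) - ℓ) - Coord.α 𝕜 := by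
    have e : (Fintype.card (Fin q ⊕ Fin w) : ℝ) - ℓ = (w : ℝ) - (ℓ - q : ℕ) := by
      rw [Fintype.card_sum, Fintype.card_fin, Fintype.card_fin, Nat.cast_sub hq]
      push_cast
      ring
    rw [e]
    exact hN
  have hF : ∫⁻ Z, Lim q w Z ∂(gM (Fin q ⊕ Fin w) (Fin ℓ) 𝕜) ≤ X := by
    unfold Lim
    refine (lintegral_liminf_le fun n => FF_meas _ measurable_id).trans ?_
    have h1 : liminf (fun _ : ℕ => X) atTop = X := tendsto_const_nhds.liminf_eq
    conv_rhs => rw [← h1]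
    refine liminf_le_liminf (Eventually.of_forall fun n => ?_)
    change ∫⁻ Z, ENNReal.ofReal (FF (SS 𝕜 q w ((n : ℝ) + 1)) Z)
      ∂(gM (Fin q ⊕ Fin w) (Fin ℓ) 𝕜) ≤ X
    rw [gauss_eq_cc _ hℓ hcard]
    exact hX n
  refine le_trans ?_ hF
  let u : (Matrix (Fin ℓ) (Fin q) 𝕜 × Matrix (Fin w) (Fin ℓ) 𝕜) →ₗ[ℝ]
      Matrix (Fin q ⊕ Fin w) (Fin ℓ) 𝕜 :=
    { toFun := fun p => fromRows p.1ᴴ p.2
      map_add' := fun p q => by
        ext i c; rcases i with i | i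
        · exact star_add (p.1 c i) (q.1 c i)
        · rfl
      map_smul' := fun a p => by
        ext i c; rcases i with i | i
        · change star (a • p.1 c i) = a • star (p.1 c i)
          rw [star_smul, star_trivial]
        · rfl }
  have hum : Measurable u :=
    fromRows_meas (conjTranspose_meas measurable_fst) measurable_snd
  have hus : Function.Surjective u := fun M => ⟨(M.toRows₁ᴴ, M.toRows₂), by
    change fromRows M.toRows₁ᴴᴴ M.toRows₂ = M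
    rw [Matrix.conjTranspose_conjTranspose, fromRows_toRows]⟩
  have hui : ∀ p, frobSq (u p) = frobSq p.1 + frobSq p.2 := by
    intro p
    change frobSq (fromRows p.1ᴴ p.2) = _
    rw [frobSq_fromRows, frobSq_conjTranspose]
  have hmap : ((gM (Fin ℓ) (Fin q) 𝕜).prod (gM (Fin w) (Fin ℓ) 𝕜)).map u =
      gM (Fin q ⊕ Fin w) (Fin ℓ) 𝕜 := gM_prod_map u hui hus hum
  have hcm : Measurable fun p : Matrix (Fin ℓ) (Fin q) 𝕜 × Matrix (Fin w) (Fin ℓ) 𝕜 =>
      Lim q w (u p) := Lim_meas.comp hum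
  rw [← hmap, lintegral_map Lim_meas hum, lintegral_prod _ hcm.aemeasurable]
  have hae := ae_inj (𝕜 := 𝕜) (m := Fin ℓ) (k := Fin q) (by simpa using hN')
  have m3 : Measurable fun A : Matrix (Fin ℓ) (Fin q) 𝕜 =>
      ENNReal.ofReal (((w : ℝ) - (ℓ - q : ℕ)) * (1 + bet 𝕜 * tau ε A)) :=
    ENNReal.measurable_ofReal.comp ((((tau_cont hε).measurable.const_mul _).const_add _).const_mul _)
  have h5 : ∫⁻ A, ENNReal.ofReal (((w : ℝ) - (ℓ - q : ℕ)) * (1 + bet 𝕜 * tau ε A))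
      ∂(gM (Fin ℓ) (Fin q) 𝕜) =
      ENNReal.ofReal (((w : ℝ) - (ℓ - q : ℕ)) * (1 + bet 𝕜 * fe (Fin ℓ) (Fin q) 𝕜 ε)) := by
    have h6 : Integrable (fun x => ((w : ℝ) - (ℓ - q : ℕ)) *
        (1 + bet 𝕜 * tau ε (toM (Fin ℓ) (Fin q) 𝕜 x)))
        (G ((Fin ℓ × Fin q) × Coord.J 𝕜)) :=
      ((integrable_const 1).add ((tau_int hε).const_mul _)).const_mul _
    unfold gM fe
    rw [lintegral_map m3 toM_meas, ← ofReal_integral_eq_lintegral_ofReal h6
      (Filter.Eventually.of_forall fun x => mul_nonneg hw (by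
        have := mul_nonneg (bet_nonneg (𝕜 := 𝕜)) (tau_nonneg hε (toM (Fin ℓ) (Fin q) 𝕜 x))
        linarith)), integral_const_mul, integral_add (integrable_const 1)
        ((tau_int hε).const_mul _), integral_const_mul, integral_const]
    simp
  rw [← h5]
  refine lintegral_mono_ae ?_
  filter_upwards [hae] with A hA
  exact inner_lower hq hN hA hε hw

end

end Q170.RN
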