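import Pool.Agent.Q170.RN.Stein

/-! Standard Gaussian matrices over `ℝ` and `ℂ` in a uniform way. -/

namespace Q170.RN
open MeasureTheory ProbabilityTheory Matrix

/-- Real coordinates of the scalar field: an orthonormal basis `e` of `𝕜` over `ℝ`, and the number
`α` (`1` for `ℝ`, `0` for `ℂ`). -/
class Coord (𝕜 : Type) [RCLike 𝕜] where
  J : Type
  [fin : Fintype J]
  [dec : DecidableEq J]
  e : J → 𝕜
  α : ℝ
  orth : ∀ j k, RCLike.re (star (e j) * e k) = if j = k then 1 else 0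
  compl : ∀ z : 𝕜, ∑ j, ((RCLike.re (star (e j) * z) : ℝ) : 𝕜) * e j = z
  sq : ∀ z : 𝕜, ∑ j, RCLike.re (star (e j) * star (e j) * (z * z)) = α * ‖z‖ ^ 2
  card : (Fintype.card J : ℝ) = 2 - α
  alpha_nonneg : 0 ≤ α
  alpha_le : α ≤ 1

attribute [instance] Coord.fin Coord.dec

noncomputable instance coordReal : Coord ℝ where
  J := Unit
  fin := inferInstance
  dec := inferInstance
  e := fun _ => 1
  α := 1
  orth := by intro j k; simp
  compl := by intro z; simp
  sq := by intro z; simp [sq]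
  card := by norm_num
  alpha_nonneg := zero_le_one
  alpha_le := le_rfl

noncomputable instance coordComplex : Coord ℂ where
  J := Bool
  fin := inferInstance
  dec := inferInstance
  e := fun b => if b then Complex.I else 1
  α := 0
  orth := by intro j k; cases j <;> cases k <;> simp
  compl := by
    intro z
    rw [Fintype.sum_bool]
    simp
    rw [add_comm]
    exact Complex.re_add_im z
  sq := by intro z; rw [Fintype.sum_bool]; simp
  card := by norm_num [Fintype.card_bool]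
  alpha_nonneg := le_rfl
  alpha_le := zero_le_one

instance (m k : Type) (𝕜 : Type) [MeasurableSpace 𝕜] : MeasurableSpace (Matrix m k 𝕜) :=
  MeasurableSpace.pi

section
variable {𝕜 : Type} [RCLike 𝕜] [Coord 𝕜]

/-- Parseval in `𝕜`. -/
lemma parseval (z : 𝕜) : ∑ j, (RCLike.re (star (Coord.e (𝕜 := 𝕜) j) * z)) ^ 2 = ‖z‖ ^ 2 := by
  have h1 : ‖z‖ ^ 2 = RCLike.re (star z * z) := by
    have := RCLike.conj_mul z
    rw [RCLike.star_def, this]
    norm_cast
  rw [h1]
  have h0 : star z * z = ∑ j, star z *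
      (((RCLike.re (star (Coord.e (𝕜 := 𝕜) j) * z) : ℝ) : 𝕜) * Coord.e j) := by
    rw [← Finset.mul_sum, Coord.compl z]
  rw [h0, map_sum]
  apply Finset.sum_congr rfl
  intro j _
  have h2 : RCLike.re (star z * (((RCLike.re (star (Coord.e (𝕜 := 𝕜) j) * z) : ℝ) : 𝕜) * Coord.e j)) =
      RCLike.re (star (Coord.e (𝕜 := 𝕜) j) * z) * RCLike.re (star z * Coord.e j) := by
    rw [mul_left_comm, RCLike.re_ofReal_mul]
  rw [h2, sq]
  congr 1
  have h3 : star z * Coord.e j = star (star (Coord.e (𝕜 := 𝕜) j) * z) := by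
    simp [mul_comm]
  rw [h3, RCLike.star_def, RCLike.conj_re]

lemma norm_e (j : Coord.J 𝕜) : ‖Coord.e (𝕜 := 𝕜) j‖ = 1 := by
  have h := Coord.orth (𝕜 := 𝕜) j j
  rw [if_pos rfl, RCLike.star_def, RCLike.conj_mul] at h
  have h2 : ‖Coord.e (𝕜 := 𝕜) j‖ ^ 2 = 1 := by
    have : ((‖Coord.e (𝕜 := 𝕜) j‖ : 𝕜) ^ 2) = ((‖Coord.e (𝕜 := 𝕜) j‖ ^ 2 : ℝ) : 𝕜) := by push_cast; ring
    rw [this, RCLike.ofReal_re] at h
    exact h
  have h3 := norm_nonneg (Coord.e (𝕜 := 𝕜) j)
  nlinarith

end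

section
variable {𝕜 : Type} [RCLike 𝕜] [Coord 𝕜] {m k : Type} [Fintype m] [Fintype k]

/-- The squared Frobenius norm. -/
def frobSq {m k : Type} [Fintype m] [Fintype k] (M : Matrix m k 𝕜) : ℝ := ∑ i, ∑ c, ‖M i c‖ ^ 2

omit [Coord 𝕜] in
lemma frobSq_nonneg (M : Matrix m k 𝕜) : 0 ≤ frobSq M :=
  Finset.sum_nonneg fun _ _ => Finset.sum_nonneg fun _ _ => sq_nonneg _

/-- The matrix with given real coordinates. -/
def toM (m k : Type) (𝕜 : Type) [RCLike 𝕜] [Coord 𝕜] :
    ((m × k) × Coord.J 𝕜 → ℝ) →ₗ[ℝ] Matrix m k 𝕜 where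
  toFun x := Matrix.of fun i c => ∑ j, ((x ((i, c), j) : ℝ) : 𝕜) * Coord.e j
  map_add' x y := by
    ext i c
    simp only [Matrix.of_apply, Matrix.add_apply, Pi.add_apply]
    rw [← Finset.sum_add_distrib]
    apply Finset.sum_congr rfl
    intro j _
    push_cast
    ring
  map_smul' a x := by
    ext i c
    simp only [Matrix.of_apply, Matrix.smul_apply, Pi.smul_apply, RingHom.id_apply, smul_eq_mul]
    rw [Finset.smul_sum]
    apply Finset.sum_congr rfl
    intro j _
    rw [RCLike.real_smul_eq_coe_mul]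
    push_cast
    ring

omit [Fintype m] [Fintype k] in
lemma toM_apply (x : (m × k) × Coord.J 𝕜 → ℝ) (i : m) (c : k) :
    toM m k 𝕜 x i c = ∑ j, ((x ((i, c), j) : ℝ) : 𝕜) * Coord.e j := rfl

omit [Fintype m] [Fintype k] in
lemma re_toM (x : (m × k) × Coord.J 𝕜 → ℝ) (i : m) (c : k) (j : Coord.J 𝕜) :
    RCLike.re (star (Coord.e (𝕜 := 𝕜) j) * toM m k 𝕜 x i c) = x ((i, c), j) := by
  rw [toM_apply, Finset.mul_sum, map_sum]
  have : ∀ l, RCLike.re (star (Coord.e (𝕜 := 𝕜) j) * (((x ((i, c), l) : ℝ) : 𝕜) * Coord.e l)) =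
      x ((i, c), l) * (if j = l then 1 else 0) := by
    intro l
    rw [mul_left_comm, RCLike.re_ofReal_mul, Coord.orth]
  simp only [this]
  simp

lemma frobSq_toM (x : (m × k) × Coord.J 𝕜 → ℝ) : frobSq (toM m k 𝕜 x) = ∑ p, x p ^ 2 := by
  unfold frobSq
  rw [Fintype.sum_prod_type, Fintype.sum_prod_type]
  apply Finset.sum_congr rfl
  intro i _
  apply Finset.sum_congr rfl
  intro c _
  rw [← parseval]
  apply Finset.sum_congr rfl
  intro j _
  rw [re_toM]

omit [Fintype m] [Fintype k] in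
lemma toM_surj : Function.Surjective (toM m k 𝕜) := by
  intro M
  refine ⟨fun p : (m × k) × Coord.J 𝕜 => RCLike.re (star (Coord.e (𝕜 := 𝕜) p.2) * M p.1.1 p.1.2), ?_⟩
  ext i c
  rw [toM_apply]
  exact Coord.compl (M i c)

omit [Fintype m] [Fintype k] in
lemma toM_meas : Measurable (toM m k 𝕜) := by
  refine measurable_pi_iff.mpr fun i => measurable_pi_iff.mpr fun c => ?_
  have : (fun x => toM m k 𝕜 x i c) =
      fun x : (m × k) × Coord.J 𝕜 → ℝ => ∑ j, ((x ((i, c), j) : ℝ) : 𝕜) * Coord.e j := rfl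
  rw [this]
  refine Finset.measurable_sum _ fun j _ => ?_
  exact (RCLike.measurable_ofReal.comp (measurable_pi_apply _)).mul_const _

end

section
variable {K K' V : Type} [Fintype K] [Fintype K'] [AddCommGroup V] [Module ℝ V] [MeasurableSpace V]

/-- Two isometric parametrisations give the same Gaussian measure. -/
theorem G_map_eq (f : (K → ℝ) →ₗ[ℝ] V) (g : (K' → ℝ) →ₗ[ℝ] V) (N : V → ℝ)
    (hf : ∀ x, N (f x) = ∑ i, x i ^ 2) (hg : ∀ x, N (g x) = ∑ i, x i ^ 2)
    (hfs : Function.Surjective f) (hgs : Function.Surjective g) (hgm : Measurable g) :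
    (G K).map f = (G K').map g := by
  have inj : ∀ {L : Type} [Fintype L] (f : (L → ℝ) →ₗ[ℝ] V), (∀ x, N (f x) = ∑ i, x i ^ 2) →
      Function.Injective f := by
    intro L _ f hf
    rw [injective_iff_map_eq_zero]
    intro x hx
    have h1 := hf x
    have h2 := hf 0
    rw [hx] at h1
    rw [map_zero] at h2
    rw [h2] at h1
    simp only [Pi.zero_apply, ne_eq, OfNat.ofNat_ne_zero, not_false_eq_true, zero_pow,
      Finset.sum_const_zero] at h1
    funext i
    have h3 := (Finset.sum_eq_zero_iff_of_nonneg (fun i _ => sq_nonneg (x i))).mp h1.symm i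
      (Finset.mem_univ i)
    simpa using h3
  let ef := LinearEquiv.ofBijective f ⟨inj f hf, hfs⟩
  let eg := LinearEquiv.ofBijective g ⟨inj g hg, hgs⟩
  let u : (K → ℝ) ≃ₗ[ℝ] (K' → ℝ) := ef.trans eg.symm
  have hu : ∀ x, g (u x) = f x := by
    intro x
    change eg (eg.symm (ef x)) = f x
    rw [LinearEquiv.apply_symm_apply]
    rfl
  have hun : ∀ x, ∑ i, (u x) i ^ 2 = ∑ i, x i ^ 2 := by
    intro x
    rw [← hg, hu, hf]
  let φ : EuclideanSpace ℝ K ≃ₗᵢ[ℝ] EuclideanSpace ℝ K' :=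
    { (WithLp.linearEquiv 2 ℝ (K → ℝ)).trans (u.trans (WithLp.linearEquiv 2 ℝ (K' → ℝ)).symm) with
      norm_map' := by
        intro x
        have h1 := EuclideanSpace.real_norm_sq_eq x
        have h2 := EuclideanSpace.real_norm_sq_eq (WithLp.toLp 2 (u (WithLp.ofLp x)))
        have h3 := hun (WithLp.ofLp x)
        have h4 : ‖WithLp.toLp 2 (u (WithLp.ofLp x))‖ ^ 2 = ‖x‖ ^ 2 := by
          rw [h1, h2]
          exact h3
        have h5 : ‖WithLp.toLp 2 (u (WithLp.ofLp x))‖ = ‖x‖ :=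
          (sq_eq_sq₀ (norm_nonneg _) (norm_nonneg _)).mp h4
        exact h5 }
  have h1 := stdGaussian_map φ
  rw [← map_pi_eq_stdGaussian, ← map_pi_eq_stdGaussian] at h1
  have hum : Measurable u := (LinearMap.continuous_of_finiteDimensional u.toLinearMap).measurable
  have hφm : Measurable φ := φ.continuous.measurable
  have hGu : (G K).map u = G K' := by
    have h2 := congrArg (fun μ => μ.map (WithLp.ofLp : EuclideanSpace ℝ K' → (K' → ℝ))) h1
    simp only at h2
    have m1 : Measurable (WithLp.ofLp : EuclideanSpace ℝ K' → (K' → ℝ)) :=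
      (PiLp.continuous_ofLp 2 _).measurable
    have m2 : Measurable (WithLp.toLp 2 : (K' → ℝ) → EuclideanSpace ℝ K') :=
      (PiLp.continuous_toLp 2 _).measurable
    have m3 : Measurable (WithLp.toLp 2 : (K → ℝ) → EuclideanSpace ℝ K) :=
      (PiLp.continuous_toLp 2 _).measurable
    rw [Measure.map_map m1 m2, Measure.map_map m1 hφm, Measure.map_map (m1.comp hφm) m3] at h2
    have e1 : (WithLp.ofLp : EuclideanSpace ℝ K' → (K' → ℝ)) ∘ (WithLp.toLp 2) = id := rfl
    have e2 : ((WithLp.ofLp : EuclideanSpace ℝ K' → (K' → ℝ)) ∘ φ) ∘ (WithLp.toLp 2) = u := rfl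
    rw [e1, e2, Measure.map_id] at h2
    exact h2
  rw [← hGu, Measure.map_map hgm hum]
  congr 1
  funext x
  exact (hu x).symm

end

end Q170.RN
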