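import Pool.Agent.Q170.RN.Main

/-! Haar measure on the unitary group and the reflection bound for sketch-based algorithms. -/

namespace Q170.RN
open MeasureTheory ProbabilityTheory Matrix
open scoped ComplexOrder

section
variable (κ 𝕜 : Type) [RCLike 𝕜] [Fintype κ] [DecidableEq κ]

lemma isCompact_unitary : IsCompact {U : Matrix κ κ 𝕜 | U ∈ unitaryGroup κ 𝕜} := by
  have h1 : IsCompact (Set.pi Set.univ fun _ : κ => Set.pi Set.univ fun _ : κ =>
      Metric.closedBall (0 : 𝕜) 1) :=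
    isCompact_univ_pi fun _ => isCompact_univ_pi fun _ => isCompact_closedBall _ _
  refine IsCompact.of_isClosed_subset h1 ?_ ?_
  · have : {U : Matrix κ κ 𝕜 | U ∈ unitaryGroup κ 𝕜} = {U | Uᴴ * U = 1} := by
      ext U
      exact mem_unitaryGroup_iff'
    rw [this]
    exact isClosed_eq ((continuous_id.matrix_conjTranspose).matrix_mul continuous_id)
      continuous_const
  · intro U hU i _ j _
    have h2 : Uᴴ * U = 1 := mem_unitaryGroup_iff'.mp hU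
    have h3 := entry_sq_le U i j
    rw [h2, Matrix.one_apply_eq] at h3
    have h4 : RCLike.re (1 : 𝕜) = 1 := RCLike.one_re
    rw [h4] at h3
    rw [mem_closedBall_zero_iff]
    have := norm_nonneg (U i j)
    nlinarith

instance : CompactSpace (unitaryGroup κ 𝕜) := isCompact_iff_compactSpace.mp (isCompact_unitary κ 𝕜)

/-- The normalised Haar measure of the unitary group (right invariant version). -/
noncomputable def hU : Measure (unitaryGroup κ 𝕜) :=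
  (Measure.haarMeasure (⊤ : TopologicalSpace.PositiveCompacts (unitaryGroup κ 𝕜))).inv

instance : (hU κ 𝕜).IsMulRightInvariant := by unfold hU; infer_instance

instance : IsProbabilityMeasure (hU κ 𝕜) := by
  constructor
  unfold hU
  rw [Measure.inv_apply, Set.inv_univ]
  exact Measure.haarMeasure_self (K₀ := (⊤ : TopologicalSpace.PositiveCompacts (unitaryGroup κ 𝕜)))

end

section
variable {𝕜 : Type} [RCLike 𝕜] {κ : Type} [Fintype κ] [DecidableEq κ]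

lemma coe_meas : Measurable fun Q : unitaryGroup κ 𝕜 => (Q : Matrix κ κ 𝕜) := measurable_subtype_coe

lemma unit_left (Q : unitaryGroup κ 𝕜) : (Q : Matrix κ κ 𝕜)ᴴ * Q = 1 :=
  mem_unitaryGroup_iff'.mp Q.2

lemma unit_right (Q : unitaryGroup κ 𝕜) : (Q : Matrix κ κ 𝕜) * (Q : Matrix κ κ 𝕜)ᴴ = 1 :=
  mem_unitaryGroup_iff.mp Q.2

/-- The reflection `2P - 1` for an orthogonal projection. -/
noncomputable def rflU (P : Matrix κ κ 𝕜) (h1 : Pᴴ = P) (h2 : P * P = P) : unitaryGroup κ 𝕜 :=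
  ⟨(2 : ℝ) • P - 1, by
    rw [mem_unitaryGroup_iff', star_eq_conjTranspose, Matrix.conjTranspose_sub,
      Matrix.conjTranspose_smul, Matrix.conjTranspose_one, h1, star_trivial, Matrix.sub_mul,
      Matrix.mul_sub, Matrix.mul_sub, Matrix.smul_mul, Matrix.mul_smul, h2, Matrix.one_mul,
      Matrix.mul_one, Matrix.mul_one]
    module⟩

variable {n d ℓ : ℕ}

/-- **Reflection bound**: the data do not distinguish `U₀ Q M` from `U₀ Q (2P-1) M`. -/
theorem refl_bound (U₀ : Matrix (Fin d) κ 𝕜) (hU₀ : U₀ᴴ * U₀ = 1) (M : Matrix κ (Fin n) 𝕜)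
    (Om : Matrix (Fin n) (Fin ℓ) 𝕜) (P : Matrix κ κ 𝕜) (h1 : Pᴴ = P) (h2 : P * P = P)
    (hP : P * (M * Om) = M * Om)
    (ALG : Matrix (Fin n) (Fin ℓ) 𝕜 × Matrix (Fin d) (Fin ℓ) 𝕜 × Matrix (Fin n) (Fin ℓ) 𝕜 →
      Matrix (Fin d) (Fin n) 𝕜) (hALG : Measurable ALG) :
    ENNReal.ofReal (frobSq ((1 - P) * M)) ≤
      ∫⁻ Q : unitaryGroup κ 𝕜, ENNReal.ofReal (frobSq (U₀ * (Q : Matrix κ κ 𝕜) * M -
        ALG (Om, (U₀ * (Q : Matrix κ κ 𝕜) * M) * Om,
          (U₀ * (Q : Matrix κ κ 𝕜) * M)ᴴ * (U₀ * (Q : Matrix κ κ 𝕜) * M) * Om))) ∂(hU κ 𝕜) := by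
  set F : unitaryGroup κ 𝕜 → ENNReal := fun Q =>
    ENNReal.ofReal (frobSq (U₀ * (Q : Matrix κ κ 𝕜) * M -
        ALG (Om, (U₀ * (Q : Matrix κ κ 𝕜) * M) * Om,
          (U₀ * (Q : Matrix κ κ 𝕜) * M)ᴴ * (U₀ * (Q : Matrix κ κ 𝕜) * M) * Om))) with hF
  have hA : Measurable fun Q : unitaryGroup κ 𝕜 => U₀ * (Q : Matrix κ κ 𝕜) * M :=
    mul_meas (mul_meas measurable_const coe_meas) measurable_const
  have hFm : Measurable F := by
    refine ENNReal.measurable_ofReal.comp (frobSq_meas.comp (sub_meas hA (hALG.comp ?_)))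
    exact measurable_const.prodMk ((mul_meas hA measurable_const).prodMk
      (mul_meas (mul_meas (conjTranspose_meas hA) hA) measurable_const))
  set w := rflU P h1 h2 with hw
  have hinv : ∫⁻ Q, F (Q * w) ∂(hU κ 𝕜) = ∫⁻ Q, F Q ∂(hU κ 𝕜) := lintegral_mul_right_eq_self F w
  have hgram : ∀ Q : unitaryGroup κ 𝕜, (U₀ * (Q : Matrix κ κ 𝕜) * M)ᴴ *
      (U₀ * (Q : Matrix κ κ 𝕜) * M) = Mᴴ * M := by
    intro Q
    rw [Matrix.conjTranspose_mul, Matrix.conjTranspose_mul]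
    calc Mᴴ * ((Q : Matrix κ κ 𝕜)ᴴ * U₀ᴴ) * (U₀ * (Q : Matrix κ κ 𝕜) * M)
        = Mᴴ * ((Q : Matrix κ κ 𝕜)ᴴ * (U₀ᴴ * U₀) * (Q : Matrix κ κ 𝕜)) * M := by
          simp only [Matrix.mul_assoc]
      _ = Mᴴ * M := by rw [hU₀, Matrix.mul_one, unit_left, Matrix.mul_one]
  have hdata : ∀ Q : unitaryGroup κ 𝕜, (U₀ * ((Q * w : unitaryGroup κ 𝕜) : Matrix κ κ 𝕜) * M) * Om =
      (U₀ * (Q : Matrix κ κ 𝕜) * M) * Om := by
    intro Q
    have e1 : ((Q * w : unitaryGroup κ 𝕜) : Matrix κ κ 𝕜) = Q * ((2 : ℝ) • P - 1) := rfl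
    have e2 : ((2 : ℝ) • P - 1) * (M * Om) = M * Om := by
      rw [Matrix.sub_mul, Matrix.smul_mul, hP, Matrix.one_mul]
      module
    calc (U₀ * ((Q * w : unitaryGroup κ 𝕜) : Matrix κ κ 𝕜) * M) * Om
        = U₀ * (Q : Matrix κ κ 𝕜) * (((2 : ℝ) • P - 1) * (M * Om)) := by
          rw [e1]; simp only [Matrix.mul_assoc]
      _ = _ := by rw [e2]; simp only [Matrix.mul_assoc]
  have hpt : ∀ Q, ENNReal.ofReal (2 * frobSq ((1 - P) * M)) ≤ F Q + F (Q * w) := by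
    intro Q
    simp only [hF]
    rw [hdata Q, hgram Q, hgram (Q * w), ← ENNReal.ofReal_add (frobSq_nonneg _) (frobSq_nonneg _)]
    refine ENNReal.ofReal_le_ofReal ?_
    have h3 := frobSq_parallel (U₀ * (Q : Matrix κ κ 𝕜) * M)
      (U₀ * ((Q * w : unitaryGroup κ 𝕜) : Matrix κ κ 𝕜) * M)
      (ALG (Om, (U₀ * (Q : Matrix κ κ 𝕜) * M) * Om, Mᴴ * M * Om))
    have h4 : U₀ * (Q : Matrix κ κ 𝕜) * M -
        U₀ * ((Q * w : unitaryGroup κ 𝕜) : Matrix κ κ 𝕜) * M =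
        (2 : ℝ) • (U₀ * ((Q : Matrix κ κ 𝕜) * ((1 - P) * M))) := by
      have e1 : ((Q * w : unitaryGroup κ 𝕜) : Matrix κ κ 𝕜) = Q * ((2 : ℝ) • P - 1) := rfl
      rw [e1]
      have e2 : (1 - P) * M = M - P * M := by rw [Matrix.sub_mul, Matrix.one_mul]
      have e3 : U₀ * ((Q : Matrix κ κ 𝕜) * ((2 : ℝ) • P - 1)) * M =
          (2 : ℝ) • (U₀ * ((Q : Matrix κ κ 𝕜) * (P * M))) - U₀ * ((Q : Matrix κ κ 𝕜) * M) := by
        rw [Matrix.mul_sub, Matrix.mul_one, Matrix.mul_sub, Matrix.sub_mul, Matrix.mul_smul,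
          Matrix.mul_smul, Matrix.smul_mul]
        simp only [Matrix.mul_assoc]
      rw [e3, e2, Matrix.mul_sub, Matrix.mul_sub, Matrix.mul_assoc]
      module
    rw [h4, frobSq_smul, frobSq_unitary hU₀, frobSq_unitary (unit_left Q)] at h3
    linarith
  have h3 : ENNReal.ofReal (2 * frobSq ((1 - P) * M)) ≤ 2 * ∫⁻ Q, F Q ∂(hU κ 𝕜) := by
    calc ENNReal.ofReal (2 * frobSq ((1 - P) * M)) =
        ∫⁻ _Q : unitaryGroup κ 𝕜, ENNReal.ofReal (2 * frobSq ((1 - P) * M)) ∂(hU κ 𝕜) := by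
          rw [lintegral_const, measure_univ, mul_one]
      _ ≤ ∫⁻ Q, (F Q + F (Q * w)) ∂(hU κ 𝕜) := lintegral_mono hpt
      _ = 2 * ∫⁻ Q, F Q ∂(hU κ 𝕜) := by rw [lintegral_add_left hFm, hinv, two_mul]
  rw [ENNReal.ofReal_mul (by norm_num)] at h3
  have h4 : ENNReal.ofReal 2 = 2 := by norm_num
  rw [h4] at h3
  exact (ENNReal.mul_le_mul_iff_right (by norm_num) (by norm_num)).mp h3

end

end Q170.RN
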