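import Pool.Agent.Q170.RN.Mat

/-! The regularised inverse `T = (Aᴴ A + ε)⁻¹` and its derivative. -/

namespace Q170.RN
open Matrix
open scoped ComplexOrder

section
variable {𝕜 : Type} [RCLike 𝕜] {m k l : Type} [Fintype m] [Fintype k] [Fintype l] [DecidableEq k]

omit [DecidableEq k] in
lemma frobSq_eq_trace (M : Matrix m k 𝕜) : ((frobSq M : ℝ) : 𝕜) = trace (Mᴴ * M) := by
  unfold frobSq Matrix.trace
  push_cast
  rw [Finset.sum_comm]
  refine Finset.sum_congr rfl fun c _ => ?_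
  rw [Matrix.diag_apply, Matrix.mul_apply]
  refine Finset.sum_congr rfl fun i _ => ?_
  rw [Matrix.conjTranspose_apply, RCLike.star_def, RCLike.conj_mul]

omit [DecidableEq k] in
lemma frobSq_eq_re_trace (M : Matrix m k 𝕜) : frobSq M = RCLike.re (trace (Mᴴ * M)) := by
  rw [← frobSq_eq_trace, RCLike.ofReal_re]

omit [DecidableEq k] in
lemma frobSq_conjTranspose (M : Matrix m k 𝕜) : frobSq Mᴴ = frobSq M := by
  unfold frobSq
  rw [Finset.sum_comm]
  simp [Matrix.conjTranspose_apply]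

/-- The regularised inverse. -/
noncomputable def TT (ε : ℝ) (A : Matrix m k 𝕜) : Matrix k k 𝕜 :=
  (Aᴴ * A + (ε : 𝕜) • (1 : Matrix k k 𝕜))⁻¹

lemma posDef_aux {ε : ℝ} (hε : 0 < ε) (A : Matrix m k 𝕜) :
    (Aᴴ * A + (ε : 𝕜) • (1 : Matrix k k 𝕜)).PosDef := by
  have h1 : (Aᴴ * A).PosSemidef := Matrix.posSemidef_conjTranspose_mul_self A
  have h2 : ((ε : 𝕜) • (1 : Matrix k k 𝕜)).PosDef := by
    refine Matrix.PosDef.one.smul ?_
    exact RCLike.ofReal_pos.mpr hε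
  exact h2.posSemidef_add h1

lemma isUnit_aux {ε : ℝ} (hε : 0 < ε) (A : Matrix m k 𝕜) :
    IsUnit (Aᴴ * A + (ε : 𝕜) • (1 : Matrix k k 𝕜)) := (posDef_aux hε A).isUnit

lemma TT_left {ε : ℝ} (hε : 0 < ε) (A : Matrix m k 𝕜) :
    TT ε A * (Aᴴ * A) + (ε : 𝕜) • TT ε A = 1 := by
  have h := Matrix.nonsing_inv_mul _ ((Matrix.isUnit_iff_isUnit_det _).mp (isUnit_aux hε A))
  rw [Matrix.mul_add, Matrix.mul_smul, Matrix.mul_one] at h
  exact h

lemma TT_right {ε : ℝ} (hε : 0 < ε) (A : Matrix m k 𝕜) :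
    (Aᴴ * A) * TT ε A + (ε : 𝕜) • TT ε A = 1 := by
  have h := Matrix.mul_nonsing_inv _ ((Matrix.isUnit_iff_isUnit_det _).mp (isUnit_aux hε A))
  rw [Matrix.add_mul, Matrix.smul_mul, Matrix.one_mul] at h
  exact h

lemma TT_herm (ε : ℝ) (A : Matrix m k 𝕜) : (TT ε A)ᴴ = TT ε A := by
  unfold TT
  rw [Matrix.conjTranspose_nonsing_inv]
  congr 1
  rw [Matrix.conjTranspose_add, Matrix.conjTranspose_mul, Matrix.conjTranspose_conjTranspose,
    Matrix.conjTranspose_smul, Matrix.conjTranspose_one]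
  congr 2
  simp

lemma TT_id {ε : ℝ} (hε : 0 < ε) (A : Matrix m k 𝕜) :
    TT ε A = (A * TT ε A)ᴴ * (A * TT ε A) + (ε : 𝕜) • ((TT ε A)ᴴ * TT ε A) := by
  have h := TT_left hε A
  rw [Matrix.conjTranspose_mul, TT_herm]
  calc TT ε A = (TT ε A * (Aᴴ * A) + (ε : 𝕜) • TT ε A) * TT ε A := by rw [h, Matrix.one_mul]
    _ = _ := by
      rw [Matrix.add_mul, Matrix.smul_mul]
      simp only [Matrix.mul_assoc]

lemma VV_id {ε : ℝ} (hε : 0 < ε) (A : Matrix m k 𝕜) :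
    A * TT ε A * Aᴴ = (A * TT ε A * Aᴴ) * (A * TT ε A * Aᴴ)ᴴ +
      (ε : 𝕜) • ((A * TT ε A) * (A * TT ε A)ᴴ) := by
  have h := TT_left hε A
  have h2 : (A * TT ε A * Aᴴ)ᴴ = A * TT ε A * Aᴴ := by
    rw [Matrix.conjTranspose_mul, Matrix.conjTranspose_mul, Matrix.conjTranspose_conjTranspose,
      TT_herm, Matrix.mul_assoc]
  rw [h2, Matrix.conjTranspose_mul, TT_herm]
  calc A * TT ε A * Aᴴ = A * ((TT ε A * (Aᴴ * A) + (ε : 𝕜) • TT ε A) * TT ε A) * Aᴴ := by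
        rw [h, Matrix.one_mul]
    _ = _ := by
      rw [Matrix.add_mul, Matrix.smul_mul, Matrix.mul_add, Matrix.add_mul, Matrix.mul_smul,
        Matrix.smul_mul]
      simp only [Matrix.mul_assoc]

/-- The real trace of the regularised inverse. -/
noncomputable def tau (ε : ℝ) (A : Matrix m k 𝕜) : ℝ := RCLike.re (trace (TT ε A))

lemma trace_TT_real (ε : ℝ) (A : Matrix m k 𝕜) : ((tau ε A : ℝ) : 𝕜) = trace (TT ε A) := by
  unfold tau
  have h : star (trace (TT ε A)) = trace (TT ε A) := by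
    rw [← Matrix.trace_conjTranspose, TT_herm]
  exact RCLike.conj_eq_iff_re.mp h

lemma tau_eq {ε : ℝ} (hε : 0 < ε) (A : Matrix m k 𝕜) :
    tau ε A = frobSq (A * TT ε A) + ε * frobSq (TT ε A) := by
  rw [frobSq_eq_re_trace, frobSq_eq_re_trace (TT ε A)]
  unfold tau
  conv_lhs => rw [TT_id hε A]
  rw [Matrix.trace_add, Matrix.trace_smul, map_add, smul_eq_mul, RCLike.re_ofReal_mul]

lemma tau_nonneg {ε : ℝ} (hε : 0 < ε) (A : Matrix m k 𝕜) : 0 ≤ tau ε A := by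
  rw [tau_eq hε]
  have := frobSq_nonneg (A * TT ε A)
  have := frobSq_nonneg (TT ε A)
  positivity

lemma trace_AAT {ε : ℝ} (hε : 0 < ε) (A : Matrix m k 𝕜) :
    RCLike.re (trace (Aᴴ * (A * TT ε A))) = Fintype.card k - ε * tau ε A := by
  have h := congrArg (fun M => RCLike.re (trace M)) (TT_right hε A)
  simp only [Matrix.trace_add, Matrix.trace_smul, Matrix.trace_one, map_add, smul_eq_mul,
    RCLike.re_ofReal_mul, RCLike.natCast_re] at h
  rw [← Matrix.mul_assoc]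
  unfold tau
  linarith

lemma trace_V {ε : ℝ} (hε : 0 < ε) (A : Matrix m k 𝕜) :
    RCLike.re (trace (A * TT ε A * Aᴴ)) = Fintype.card k - ε * tau ε A := by
  rw [← trace_AAT hε A, Matrix.trace_mul_comm]

/-! Bounds for the entries. -/

omit [Fintype k] [DecidableEq k] in
lemma entry_sq_le (M : Matrix m k 𝕜) (i : m) (c : k) : ‖M i c‖ ^ 2 ≤ RCLike.re ((Mᴴ * M) c c) := by
  rw [Matrix.mul_apply, map_sum]
  have h : ∀ i, RCLike.re (Mᴴ c i * M i c) = ‖M i c‖ ^ 2 := by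
    intro i
    rw [Matrix.conjTranspose_apply, RCLike.star_def, RCLike.conj_mul]
    norm_cast
  simp only [h]
  exact Finset.single_le_sum (f := fun i => ‖M i c‖ ^ 2) (fun i _ => sq_nonneg _) (Finset.mem_univ i)

omit [Fintype k] [DecidableEq k] in
lemma diag_nonneg (M : Matrix m k 𝕜) (c : k) : 0 ≤ RCLike.re ((Mᴴ * M) c c) := by
  rw [Matrix.mul_apply, map_sum]
  refine Finset.sum_nonneg fun i _ => ?_
  rw [Matrix.conjTranspose_apply, RCLike.star_def, RCLike.conj_mul]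
  have : RCLike.re ((‖M i c‖ : 𝕜) ^ 2) = ‖M i c‖ ^ 2 := by norm_cast
  rw [this]
  positivity

lemma TT_entry {ε : ℝ} (hε : 0 < ε) (A : Matrix m k 𝕜) (c : k) :
    RCLike.re (TT ε A c c) = RCLike.re (((A * TT ε A)ᴴ * (A * TT ε A)) c c) +
      ε * RCLike.re (((TT ε A)ᴴ * TT ε A) c c) := by
  conv_lhs => rw [TT_id hε A]
  rw [Matrix.add_apply, Matrix.smul_apply, map_add, smul_eq_mul, RCLike.re_ofReal_mul]

lemma TT_diag_le {ε : ℝ} (hε : 0 < ε) (A : Matrix m k 𝕜) (c : k) :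
    RCLike.re (TT ε A c c) ≤ 1 / ε := by
  have h1 := TT_entry hε A c
  have h2 := entry_sq_le (TT ε A) c c
  have h3 := diag_nonneg (A * TT ε A) c
  have h4 : RCLike.re (TT ε A c c) ^ 2 ≤ ‖TT ε A c c‖ ^ 2 := by
    have := RCLike.abs_re_le_norm (TT ε A c c)
    rw [← sq_abs]
    exact pow_le_pow_left₀ (abs_nonneg _) this 2
  rw [le_div_iff₀ hε]
  by_contra hcon
  push Not at hcon
  have h5 : 0 < RCLike.re (TT ε A c c) := by
    by_contra h6
    push Not at h6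
    nlinarith
  have h7 : ε * RCLike.re (TT ε A c c) ^ 2 ≤ RCLike.re (TT ε A c c) := by
    have := mul_le_mul_of_nonneg_left (h4.trans h2) hε.le
    linarith
  have h8 : (ε * RCLike.re (TT ε A c c)) * RCLike.re (TT ε A c c) ≤ 1 * RCLike.re (TT ε A c c) := by
    linarith
  have := le_of_mul_le_mul_right h8 h5
  linarith

lemma TT_diag_nonneg {ε : ℝ} (hε : 0 < ε) (A : Matrix m k 𝕜) (c : k) :
    0 ≤ RCLike.re (TT ε A c c) := by
  rw [TT_entry hε A c]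
  have := diag_nonneg (A * TT ε A) c
  have := diag_nonneg (TT ε A) c
  positivity

lemma TT_norm_le {ε : ℝ} (hε : 0 < ε) (A : Matrix m k 𝕜) (a c : k) :
    ‖TT ε A a c‖ ≤ 1 / ε := by
  have h1 := TT_entry hε A c
  have h2 := entry_sq_le (TT ε A) a c
  have h3 := diag_nonneg (A * TT ε A) c
  have h4 := TT_diag_le hε A c
  have h5 : ε * ‖TT ε A a c‖ ^ 2 ≤ 1 / ε := by
    have := mul_le_mul_of_nonneg_left h2 hε.le
    linarith
  have h6 : ‖TT ε A a c‖ ^ 2 ≤ (1 / ε) ^ 2 := by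
    have h7 : ‖TT ε A a c‖ ^ 2 ≤ (1 / ε) / ε := by
      rw [le_div_iff₀ hε]; linarith
    calc _ ≤ (1 / ε) / ε := h7
      _ = _ := by field_simp
  exact le_of_sq_le_sq h6 (by positivity)

lemma AT_sq_le {ε : ℝ} (hε : 0 < ε) (A : Matrix m k 𝕜) (i : m) (c : k) :
    ‖(A * TT ε A) i c‖ ^ 2 ≤ 1 / ε := by
  have h1 := TT_entry hε A c
  have h2 := entry_sq_le (A * TT ε A) i c
  have h3 := diag_nonneg (TT ε A) c
  have h4 := TT_diag_le hε A c
  nlinarith

lemma V_norm_le {ε : ℝ} (hε : 0 < ε) (A : Matrix m k 𝕜) (i : m) :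
    ‖(A * TT ε A * Aᴴ) i i‖ ≤ 1 := by
  have h0 : RCLike.re ((A * TT ε A * Aᴴ) i i) =
      RCLike.re (((A * TT ε A * Aᴴ) * (A * TT ε A * Aᴴ)ᴴ) i i) +
      ε * RCLike.re (((A * TT ε A) * (A * TT ε A)ᴴ) i i) := by
    conv_lhs => rw [VV_id hε A]
    rw [Matrix.add_apply, Matrix.smul_apply, map_add, smul_eq_mul, RCLike.re_ofReal_mul]
  have h1 := entry_sq_le ((A * TT ε A * Aᴴ)ᴴ) i i
  have h2 := diag_nonneg ((A * TT ε A)ᴴ) i
  rw [Matrix.conjTranspose_conjTranspose] at h1 h2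
  rw [Matrix.conjTranspose_apply, norm_star] at h1
  have h3 := RCLike.re_le_norm ((A * TT ε A * Aᴴ) i i)
  have h4 := norm_nonneg ((A * TT ε A * Aᴴ) i i)
  by_contra hcon
  push Not at hcon
  nlinarith

end

end Q170.RN
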