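import Pool.Agent.Q170.RN.Lim

/-! Gaussian measures characterised by their covariance quadratic form; uniqueness. -/

namespace Q170.RN
open MeasureTheory ProbabilityTheory Matrix

/-- `μ` is the standard Gaussian measure of the Euclidean norm `N`. -/
def IsG {V : Type} [AddCommGroup V] [Module ℝ V] [MeasurableSpace V] (N : V → ℝ)
    (μ : Measure V) : Prop :=
  ∃ (K : Type) (_ : Fintype K) (f : (K → ℝ) →ₗ[ℝ] V), (∀ x, N (f x) = ∑ i, x i ^ 2) ∧
    Function.Surjective f ∧ Measurable f ∧ μ = (G K).map f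

section
variable {V W : Type} [AddCommGroup V] [Module ℝ V] [MeasurableSpace V]
  [AddCommGroup W] [Module ℝ W] [MeasurableSpace W]

lemma IsG.unique {N : V → ℝ} {μ ν : Measure V} (h1 : IsG N μ) (h2 : IsG N ν) : μ = ν := by
  obtain ⟨K, hK, f, f1, f2, f3, rfl⟩ := h1
  obtain ⟨K', hK', g, g1, g2, g3, rfl⟩ := h2
  exact G_map_eq f g N f1 g1 f2 g2 g3

lemma IsG.map {N : V → ℝ} {μ : Measure V} (h : IsG N μ) {N' : W → ℝ} (u : V →ₗ[ℝ] W)
    (hu : ∀ v, N' (u v) = N v) (hs : Function.Surjective u) (hm : Measurable u) :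
    IsG N' (μ.map u) := by
  obtain ⟨K, hK, f, f1, f2, f3, rfl⟩ := h
  refine ⟨K, hK, u ∘ₗ f, fun x => ?_, hs.comp f2, hm.comp f3, ?_⟩
  · rw [LinearMap.comp_apply, hu, f1]
  · rw [Measure.map_map hm f3]
    rfl

lemma IsG.prod {N : V → ℝ} {μ : Measure V} (h : IsG N μ) {N' : W → ℝ} {ν : Measure W}
    (h' : IsG N' ν) : IsG (fun p : V × W => N p.1 + N' p.2) (μ.prod ν) := by
  obtain ⟨K, hK, f, f1, f2, f3, rfl⟩ := h
  obtain ⟨K', hK', g, g1, g2, g3, rfl⟩ := h'
  let w : (K ⊕ K' → ℝ) →ₗ[ℝ] (V × W) :=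
    LinearMap.prod (f ∘ₗ LinearMap.funLeft ℝ ℝ Sum.inl) (g ∘ₗ LinearMap.funLeft ℝ ℝ Sum.inr)
  have hwm : Measurable w :=
    (f3.comp (measurable_pi_lambda _ fun i => measurable_pi_apply _)).prodMk
      (g3.comp (measurable_pi_lambda _ fun i => measurable_pi_apply _))
  refine ⟨K ⊕ K', inferInstance, w, fun x => ?_, ?_, hwm, ?_⟩
  · rw [Fintype.sum_sum_type]
    change N (f _) + N' (g _) = _
    rw [f1, g1]
    rfl
  · rintro ⟨A, B⟩
    obtain ⟨x, rfl⟩ := f2 A
    obtain ⟨y, rfl⟩ := g2 B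
    exact ⟨Sum.elim x y, rfl⟩
  · rw [Measure.map_prod_map _ _ f3 g3]
    have h1 := (measurePreserving_sumPiEquivProdPi (ι := K) (ι' := K')
      (fun _ => gaussianReal 0 1)).map_eq
    have h2 : (G K).prod (G K') =
        (G (K ⊕ K')).map (MeasurableEquiv.sumPiEquivProdPi fun _ => ℝ) := h1.symm
    rw [h2, Measure.map_map (f3.prodMap g3) (MeasurableEquiv.measurable _)]
    rfl

end

section
variable {𝕜 : Type} [RCLike 𝕜] [Coord 𝕜] {l m k m₁ m₂ k₁ k₂ : Type} [Fintype l] [Fintype m]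
  [Fintype k] [Fintype m₁] [Fintype m₂] [Fintype k₁] [Fintype k₂]

lemma isG_gM : IsG (frobSq : Matrix m k 𝕜 → ℝ) (gM m k 𝕜) :=
  ⟨(m × k) × Coord.J 𝕜, inferInstance, toM m k 𝕜, frobSq_toM, toM_surj, toM_meas, rfl⟩

omit [Coord 𝕜] in
lemma frobSq_fromRows (A : Matrix m₁ k 𝕜) (B : Matrix m₂ k 𝕜) :
    frobSq (fromRows A B) = frobSq A + frobSq B := by
  unfold frobSq
  rw [Fintype.sum_sum_type]
  rfl

omit [Coord 𝕜] in
lemma frobSq_fromCols (A : Matrix m k₁ 𝕜) (B : Matrix m k₂ 𝕜) :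
    frobSq (fromCols A B) = frobSq A + frobSq B := by
  unfold frobSq
  rw [← Finset.sum_add_distrib]
  refine Finset.sum_congr rfl fun i _ => ?_
  rw [Fintype.sum_sum_type]
  rfl

omit [Coord 𝕜] [Fintype m₁] [Fintype m₂] [Fintype k] in
lemma fromRows_meas {Ω : Type*} [MeasurableSpace Ω] {f : Ω → Matrix m₁ k 𝕜}
    {g : Ω → Matrix m₂ k 𝕜} (hf : Measurable f) (hg : Measurable g) :
    Measurable fun x => fromRows (f x) (g x) := by
  refine measurable_pi_iff.mpr fun i => measurable_pi_iff.mpr fun c => ?_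
  rcases i with i | i
  · exact (entry_meas i c).comp hf
  · exact (entry_meas i c).comp hg

omit [Coord 𝕜] [Fintype m] [Fintype k₁] [Fintype k₂] in
lemma fromCols_meas {Ω : Type*} [MeasurableSpace Ω] {f : Ω → Matrix m k₁ 𝕜}
    {g : Ω → Matrix m k₂ 𝕜} (hf : Measurable f) (hg : Measurable g) :
    Measurable fun x => fromCols (f x) (g x) := by
  refine measurable_pi_iff.mpr fun i => measurable_pi_iff.mpr fun c => ?_
  rcases c with c | c
  · exact (entry_meas i c).comp hf
  · exact (entry_meas i c).comp hg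

omit [Coord 𝕜] [Fintype m] [Fintype k] in
lemma conjTranspose_meas {Ω : Type*} [MeasurableSpace Ω] {f : Ω → Matrix m k 𝕜}
    (hf : Measurable f) : Measurable fun x => (f x)ᴴ := by
  refine measurable_pi_iff.mpr fun i => measurable_pi_iff.mpr fun c => ?_
  exact continuous_star.measurable.comp ((entry_meas c i).comp hf)

omit [Coord 𝕜] [Fintype m] [Fintype k] in
lemma add_meas {Ω : Type*} [MeasurableSpace Ω] {f g : Ω → Matrix m k 𝕜}
    (hf : Measurable f) (hg : Measurable g) : Measurable fun x => f x + g x := by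
  refine measurable_pi_iff.mpr fun i => measurable_pi_iff.mpr fun c => ?_
  exact ((entry_meas i c).comp hf).add ((entry_meas i c).comp hg)

omit [Coord 𝕜] [Fintype m] [Fintype k] in
lemma sub_meas {Ω : Type*} [MeasurableSpace Ω] {f g : Ω → Matrix m k 𝕜}
    (hf : Measurable f) (hg : Measurable g) : Measurable fun x => f x - g x := by
  refine measurable_pi_iff.mpr fun i => measurable_pi_iff.mpr fun c => ?_
  exact ((entry_meas i c).comp hf).sub ((entry_meas i c).comp hg)

omit [Coord 𝕜] [Fintype m] [Fintype k] in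
lemma smul_meas {Ω : Type*} [MeasurableSpace Ω] {f : Ω → Matrix m k 𝕜} (a : ℝ)
    (hf : Measurable f) : Measurable fun x => a • f x := by
  refine measurable_pi_iff.mpr fun i => measurable_pi_iff.mpr fun c => ?_
  exact ((entry_meas i c).comp hf).const_smul a

/-- Second moment of `Z * R`. -/
theorem lintegral_mulR (R : Matrix k l 𝕜) :
    ∫⁻ Z, ENNReal.ofReal (frobSq (Z * R)) ∂(gM m k 𝕜) =
      ENNReal.ofReal (bet 𝕜 * Fintype.card m * frobSq R) := by
  let u : Matrix k m 𝕜 →ₗ[ℝ] Matrix m k 𝕜 :=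
    { toFun := fun Z => Zᴴ
      map_add' := Matrix.conjTranspose_add
      map_smul' := fun a Z => by
        rw [Matrix.conjTranspose_smul, star_trivial, RingHom.id_apply] }
  have hu : Measurable u := conjTranspose_meas measurable_id
  have h1 : (gM k m 𝕜).map u = gM m k 𝕜 :=
    gM_map u (fun M => frobSq_conjTranspose M) (fun M => ⟨Mᴴ, Matrix.conjTranspose_conjTranspose M⟩) hu
  have hm : Measurable fun Z : Matrix m k 𝕜 => ENNReal.ofReal (frobSq (Z * R)) :=
    ENNReal.measurable_ofReal.comp (frobSq_meas.comp (mul_meas measurable_id measurable_const))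
  rw [← h1, lintegral_map hm hu]
  have h2 : ∀ Z : Matrix k m 𝕜, frobSq (u Z * R) = frobSq (Rᴴ * Z) := by
    intro Z
    rw [← frobSq_conjTranspose, Matrix.conjTranspose_mul]
    change frobSq (Rᴴ * Zᴴᴴ) = _
    rw [Matrix.conjTranspose_conjTranspose]
  simp only [h2]
  rw [lintegral_mul, frobSq_conjTranspose]

end

end Q170.RN
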