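import Pool.Agent.Q170.RN.Wis

/-! The limit of the inverse Wishart trace, and almost sure invertibility. -/

namespace Q170.RN
open MeasureTheory ProbabilityTheory Matrix Filter Topology
open scoped ComplexOrder

section
variable {𝕜 : Type} [RCLike 𝕜] {m k : Type} [Fintype m] [Fintype k] [DecidableEq k]

lemma TT_sub {ε : ℝ} (hε : 0 < ε) (A : Matrix m k 𝕜) :
    TT ε A - TT (2 * ε) A = (ε : 𝕜) • (TT ε A * TT (2 * ε) A) := by
  have h1 := TT_left hε A
  have h2 := TT_right (show 0 < 2 * ε by linarith) A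
  have e1 : TT ε A = TT ε A * ((Aᴴ * A) * TT (2 * ε) A + ((2 * ε : ℝ) : 𝕜) • TT (2 * ε) A) := by
    rw [h2, Matrix.mul_one]
  have e2 : TT (2 * ε) A = (TT ε A * (Aᴴ * A) + (ε : 𝕜) • TT ε A) * TT (2 * ε) A := by
    rw [h1, Matrix.one_mul]
  conv_lhs => rw [e1]
  conv_lhs => arg 2; rw [e2]
  rw [Matrix.mul_add, Matrix.add_mul, Matrix.smul_mul, Matrix.mul_smul, ← Matrix.mul_assoc]
  push_cast
  rw [mul_smul, ofNat_smul_eq_nsmul]
  module

lemma frob_le_diff {ε : ℝ} (hε : 0 < ε) (A : Matrix m k 𝕜) :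
    ε * frobSq (TT (2 * ε) A) ≤ tau ε A - tau (2 * ε) A := by
  have h1 := TT_sub hε A
  have h2 : tau ε A - tau (2 * ε) A = ε * RCLike.re (trace (TT ε A * TT (2 * ε) A)) := by
    have := congrArg (fun M => RCLike.re (trace M)) h1
    simp only [Matrix.trace_sub, Matrix.trace_smul, map_sub, smul_eq_mul,
      RCLike.re_ofReal_mul] at this
    exact this
  rw [h2]
  refine mul_le_mul_of_nonneg_left ?_ hε.le
  have h3 : TT ε A * TT (2 * ε) A = TT (2 * ε) A * TT (2 * ε) A +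
      (ε : 𝕜) • (TT ε A * TT (2 * ε) A * TT (2 * ε) A) := by
    have h4 : TT ε A = TT (2 * ε) A + (ε : 𝕜) • (TT ε A * TT (2 * ε) A) := by
      rw [← h1]; abel
    conv_lhs => rw [h4]
    rw [Matrix.add_mul, Matrix.smul_mul]
  rw [h3, Matrix.trace_add, Matrix.trace_smul, map_add, smul_eq_mul, RCLike.re_ofReal_mul]
  have h5 : frobSq (TT (2 * ε) A) = RCLike.re (trace (TT (2 * ε) A * TT (2 * ε) A)) := by
    rw [frobSq_eq_re_trace, TT_herm]
  rw [h5]
  have h6 : 0 ≤ RCLike.re (trace (TT ε A * TT (2 * ε) A * TT (2 * ε) A)) := by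
    set S := TT (2 * ε) A with hS
    have hSh : Sᴴ = S := TT_herm _ _
    have h7 : trace (TT ε A * S * S) = trace ((A * TT ε A * S)ᴴ * (A * TT ε A * S)) +
        (ε : 𝕜) * trace ((TT ε A * S)ᴴ * (TT ε A * S)) := by
      rw [Matrix.trace_mul_comm]
      have h8 : S * (TT ε A * S) = (A * TT ε A * S)ᴴ * (A * TT ε A * S) +
          (ε : 𝕜) • ((TT ε A * S)ᴴ * (TT ε A * S)) := by
        conv_lhs => rw [TT_id hε A]
        rw [Matrix.conjTranspose_mul (A * TT ε A) S, Matrix.conjTranspose_mul (TT ε A) S, hSh,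
          Matrix.add_mul, Matrix.mul_add, Matrix.smul_mul, Matrix.mul_smul]
        simp only [Matrix.mul_assoc]
      rw [h8, Matrix.trace_add, Matrix.trace_smul, smul_eq_mul]
    rw [h7, map_add, RCLike.re_ofReal_mul, ← frobSq_eq_re_trace, ← frobSq_eq_re_trace]
    have := frobSq_nonneg (A * TT ε A * S)
    have := frobSq_nonneg (TT ε A * S)
    positivity
  have := mul_nonneg hε.le h6
  linarith

lemma tau_sq_le (ε : ℝ) (A : Matrix m k 𝕜) :
    tau ε A ^ 2 ≤ Fintype.card k * frobSq (TT ε A) := by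
  have h3 : tau ε A = ∑ c, RCLike.re (TT ε A c c) := by
    unfold tau Matrix.trace
    rw [map_sum]
    rfl
  rw [h3]
  refine (sq_sum_le_card_mul_sum_sq).trans ?_
  rw [Finset.card_univ]
  refine mul_le_mul_of_nonneg_left ?_ (Nat.cast_nonneg _)
  unfold frobSq
  refine Finset.sum_le_sum fun c _ => ?_
  have h4 : RCLike.re (TT ε A c c) ^ 2 ≤ ‖TT ε A c c‖ ^ 2 := by
    have := RCLike.abs_re_le_norm (TT ε A c c)
    rw [← sq_abs]
    exact pow_le_pow_left₀ (abs_nonneg _) this 2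
  exact h4.trans (Finset.single_le_sum (f := fun a => ‖TT ε A c a‖ ^ 2) (fun a _ => sq_nonneg _)
    (Finset.mem_univ c))

/-- On singular matrices the trace is at least `1/ε`. -/
lemma tau_ge_of_singular {ε : ℝ} (hε : 0 < ε) (A : Matrix m k 𝕜) {v : k → 𝕜} (hv : v ≠ 0)
    (hAv : A *ᵥ v = 0) : 1 / ε ≤ tau ε A := by
  have h1 := TT_left hε A
  have h2 : (ε : 𝕜) • (TT ε A *ᵥ v) = v := by
    have := congrArg (fun M => M *ᵥ v) h1
    simp only [Matrix.add_mulVec, Matrix.one_mulVec, Matrix.smul_mulVec] at this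
    rw [← Matrix.mulVec_mulVec, ← Matrix.mulVec_mulVec, hAv, Matrix.mulVec_zero,
      Matrix.mulVec_zero, zero_add] at this
    exact this
  -- norms
  have h3 : ∑ a, ‖v a‖ ^ 2 ≤ ε ^ 2 * (frobSq (TT ε A) * ∑ a, ‖v a‖ ^ 2) := by
    have h4 : ∀ a, ‖v a‖ ^ 2 ≤ ε ^ 2 * ((∑ c, ‖TT ε A a c‖ ^ 2) * ∑ c, ‖v c‖ ^ 2) := by
      intro a
      have h5 : v a = (ε : 𝕜) * ∑ c, TT ε A a c * v c := by
        have := congrFun h2 a
        rw [Pi.smul_apply, smul_eq_mul] at this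
        exact this.symm
      have h6 : ‖v a‖ ≤ ε * ∑ c, ‖TT ε A a c‖ * ‖v c‖ := by
        conv_lhs => rw [h5]
        rw [norm_mul, RCLike.norm_ofReal, abs_of_pos hε]
        refine mul_le_mul_of_nonneg_left ?_ hε.le
        refine (norm_sum_le _ _).trans ?_
        simp only [norm_mul, le_refl]
      have h7 := Finset.sum_mul_sq_le_sq_mul_sq Finset.univ (fun c => ‖TT ε A a c‖) (fun c => ‖v c‖)
      calc ‖v a‖ ^ 2 ≤ (ε * ∑ c, ‖TT ε A a c‖ * ‖v c‖) ^ 2 :=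
            pow_le_pow_left₀ (norm_nonneg _) h6 2
        _ = ε ^ 2 * (∑ c, ‖TT ε A a c‖ * ‖v c‖) ^ 2 := by ring
        _ ≤ _ := mul_le_mul_of_nonneg_left h7 (sq_nonneg _)
    calc ∑ a, ‖v a‖ ^ 2 ≤ ∑ a, ε ^ 2 * ((∑ c, ‖TT ε A a c‖ ^ 2) * ∑ c, ‖v c‖ ^ 2) :=
          Finset.sum_le_sum fun a _ => h4 a
      _ = _ := by
        unfold frobSq
        rw [← Finset.mul_sum, ← Finset.sum_mul]
  have h4 : 0 < ∑ a, ‖v a‖ ^ 2 := by
    obtain ⟨a, ha⟩ := Function.ne_iff.mp hv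
    have h5 := Finset.single_le_sum (f := fun a => ‖v a‖ ^ 2) (fun a _ => sq_nonneg _)
      (Finset.mem_univ a)
    have h6 : 0 < ‖v a‖ := norm_pos_iff.mpr ha
    have h7 : 0 < ‖v a‖ ^ 2 := by positivity
    exact h7.trans_le h5
  have h5 : 1 ≤ ε ^ 2 * frobSq (TT ε A) := by
    have : 1 * ∑ a, ‖v a‖ ^ 2 ≤ (ε ^ 2 * frobSq (TT ε A)) * ∑ a, ‖v a‖ ^ 2 := by linarith
    exact le_of_mul_le_mul_right this h4
  have h6 := tau_eq hε A
  have h7 := frobSq_nonneg (A * TT ε A)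
  rw [div_le_iff₀ hε]
  nlinarith

end

instance (m k 𝕜 : Type) [Fintype m] [Fintype k] [RCLike 𝕜] : BorelSpace (Matrix m k 𝕜) :=
  inferInstanceAs (BorelSpace (m → k → 𝕜))

section
variable (m k 𝕜 : Type) [RCLike 𝕜] [Coord 𝕜] [Fintype m] [Fintype k] [DecidableEq k]

/-- The expectation of the trace. -/
noncomputable def fe (ε : ℝ) : ℝ := ∫ x, tau ε (toM m k 𝕜 x) ∂(G ((m × k) × Coord.J 𝕜))

variable {m k 𝕜}

lemma tau_int {ε : ℝ} (hε : 0 < ε) :
    Integrable (fun x => tau ε (toM m k 𝕜 x)) (G ((m × k) × Coord.J 𝕜)) := by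
  refine Integrable.of_bound ((tau_cont hε).comp toM_cont).aestronglyMeasurable
    (Fintype.card k / ε) (Eventually.of_forall fun x => ?_)
  rw [Real.norm_eq_abs, abs_of_nonneg (tau_nonneg hε _)]
  exact tau_le hε _

lemma tau_sq_int {ε : ℝ} (hε : 0 < ε) :
    Integrable (fun x => tau ε (toM m k 𝕜 x) ^ 2) (G ((m × k) × Coord.J 𝕜)) := by
  refine Integrable.of_bound (((tau_cont hε).comp toM_cont).pow 2).aestronglyMeasurable
    ((Fintype.card k / ε) ^ 2) (Eventually.of_forall fun x => ?_)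
  rw [Real.norm_eq_abs, abs_of_nonneg (sq_nonneg _)]
  exact pow_le_pow_left₀ (tau_nonneg hε _) (tau_le hε _) 2

omit [Coord 𝕜] [DecidableEq k] in
lemma frob_cont : Continuous (frobSq : Matrix m k 𝕜 → ℝ) := by
  unfold frobSq
  refine continuous_finsetSum _ fun i _ => continuous_finsetSum _ fun c _ => ?_
  exact ((continuous_id.matrix_elem i c).norm).pow 2

lemma frob_int {ε : ℝ} (hε : 0 < ε) :
    Integrable (fun x => frobSq (TT ε (toM m k 𝕜 x))) (G ((m × k) × Coord.J 𝕜)) := by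
  refine Integrable.of_bound (frob_cont.comp ((TT_cont hε).comp toM_cont)).aestronglyMeasurable
    (Fintype.card k / ε / ε) (Eventually.of_forall fun x => ?_)
  rw [Real.norm_eq_abs, abs_of_nonneg (frobSq_nonneg _)]
  have h1 := tau_eq hε (toM m k 𝕜 x)
  have h2 := tau_le hε (toM m k 𝕜 x)
  have h3 := frobSq_nonneg (toM m k 𝕜 x * TT ε (toM m k 𝕜 x))
  rw [le_div_iff₀ hε]
  linarith

lemma fe_nonneg {ε : ℝ} (hε : 0 < ε) : 0 ≤ fe m k 𝕜 ε :=
  integral_nonneg fun _ => tau_nonneg hε _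

/-- The identity in terms of expectations. -/
lemma fe_identity {ε : ℝ} (hε : 0 < ε) : Fintype.card k - ε * fe m k 𝕜 ε =
    (bet 𝕜 * (Fintype.card m - Fintype.card k) - Coord.α 𝕜) * fe m k 𝕜 ε +
    ε * (Coord.α 𝕜 * ∫ x, frobSq (TT ε (toM m k 𝕜 x)) ∂(G ((m × k) × Coord.J 𝕜)) +
      bet 𝕜 * ∫ x, tau ε (toM m k 𝕜 x) ^ 2 ∂(G ((m × k) × Coord.J 𝕜))) := by
  have h := wishart_identity (𝕜 := 𝕜) (m := m) (k := k) hε
  rw [integral_sub (integrable_const _) ((tau_int hε).const_mul _), integral_const,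
    integral_const_mul] at h
  have hi : Integrable (fun x => Coord.α 𝕜 * frobSq (TT ε (toM m k 𝕜 x)) +
      bet 𝕜 * tau ε (toM m k 𝕜 x) ^ 2) (G ((m × k) × Coord.J 𝕜)) :=
    ((frob_int hε).const_mul _).add ((tau_sq_int hε).const_mul _)
  rw [integral_add ((tau_int hε).const_mul _) (hi.const_mul ε),
    integral_const_mul, integral_const_mul,
    integral_add ((frob_int hε).const_mul _) ((tau_sq_int hε).const_mul _),
    integral_const_mul, integral_const_mul] at h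
  simpa [fe] using h

lemma bet_eq : bet 𝕜 = 2 - Coord.α 𝕜 := Coord.card

lemma bet_pos : 0 < bet 𝕜 := by
  rw [bet_eq]
  have := Coord.alpha_le (𝕜 := 𝕜)
  linarith

lemma fe_le (hN : 0 < bet 𝕜 * (Fintype.card m - Fintype.card k) - Coord.α 𝕜) {ε : ℝ} (hε : 0 < ε) :
    fe m k 𝕜 ε ≤ Fintype.card k / (bet 𝕜 * (Fintype.card m - Fintype.card k) - Coord.α 𝕜) := by
  rw [le_div_iff₀ hN]
  have h1 := fe_identity (𝕜 := 𝕜) (m := m) (k := k) hε
  have h2 : 0 ≤ ∫ x, frobSq (TT ε (toM m k 𝕜 x)) ∂(G ((m × k) × Coord.J 𝕜)) :=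
    integral_nonneg fun _ => frobSq_nonneg _
  have h3 : 0 ≤ ∫ x, tau ε (toM m k 𝕜 x) ^ 2 ∂(G ((m × k) × Coord.J 𝕜)) :=
    integral_nonneg fun _ => sq_nonneg _
  have h4 := fe_nonneg (𝕜 := 𝕜) (m := m) (k := k) hε
  have h5 := Coord.alpha_nonneg (𝕜 := 𝕜)
  have h6 := bet_nonneg (𝕜 := 𝕜)
  have h7 : 0 ≤ ε * fe m k 𝕜 ε := by positivity
  have h8 : 0 ≤ ε * (Coord.α 𝕜 * ∫ x, frobSq (TT ε (toM m k 𝕜 x)) ∂(G ((m × k) × Coord.J 𝕜)) +
      bet 𝕜 * ∫ x, tau ε (toM m k 𝕜 x) ^ 2 ∂(G ((m × k) × Coord.J 𝕜))) := by positivity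
  linarith

lemma fe_diff {ε : ℝ} (hε : 0 < ε) :
    ε * ∫ x, frobSq (TT (2 * ε) (toM m k 𝕜 x)) ∂(G ((m × k) × Coord.J 𝕜)) ≤
      fe m k 𝕜 ε - fe m k 𝕜 (2 * ε) := by
  unfold fe
  rw [← integral_sub (tau_int hε) (tau_int (by linarith)), ← integral_const_mul]
  exact integral_mono ((frob_int (by linarith)).const_mul _)
    ((tau_int hε).sub (tau_int (by linarith))) fun x => frob_le_diff hε _

/-- The expectations come arbitrarily close to `k / N`. -/
theorem fe_lower (hN : 0 < bet 𝕜 * (Fintype.card m - Fintype.card k) - Coord.α 𝕜) {C : ℝ}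
    (hC : C < Fintype.card k / (bet 𝕜 * (Fintype.card m - Fintype.card k) - Coord.α 𝕜)) :
    ∃ ε : ℝ, 0 < ε ∧ C < fe m k 𝕜 ε := by
  set N := bet 𝕜 * (Fintype.card m - Fintype.card k) - Coord.α 𝕜 with hNdef
  let e : ℕ → ℝ := fun n => (1 / 2 : ℝ) ^ n
  have he : ∀ n, 0 < e n := fun n => by positivity
  have he2 : ∀ n, 2 * e (n + 1) = e n := fun n => by simp only [e]; rw [pow_succ]; ring
  let f : ℕ → ℝ := fun n => fe m k 𝕜 (e n)
  have hmono : Monotone f := by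
    refine monotone_nat_of_le_succ fun n => ?_
    have h1 := fe_diff (𝕜 := 𝕜) (m := m) (k := k) (he (n + 1))
    rw [he2] at h1
    have h2 : 0 ≤ ∫ x, frobSq (TT (e n) (toM m k 𝕜 x)) ∂(G ((m × k) × Coord.J 𝕜)) :=
      integral_nonneg fun _ => frobSq_nonneg _
    have h3 := mul_nonneg (he (n + 1)).le h2
    simp only [f]
    linarith
  have hbdd : BddAbove (Set.range f) := ⟨Fintype.card k / N, by
    rintro _ ⟨n, rfl⟩
    exact fe_le hN (he n)⟩
  have hlim := tendsto_atTop_ciSup hmono hbdd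
  set c := ⨆ n, f n with hc
  have hlim1 : Tendsto (fun n => f (n + 1)) atTop (𝓝 c) := hlim.comp (tendsto_add_atTop_nat 1)
  have hle : ∀ n, (Fintype.card k : ℝ) ≤ (N + e n) * f n +
      2 * (Coord.α 𝕜 + bet 𝕜 * Fintype.card k) * (f (n + 1) - f n) := by
    intro n
    have h1 := fe_identity (𝕜 := 𝕜) (m := m) (k := k) (he n)
    have h2 := fe_diff (𝕜 := 𝕜) (m := m) (k := k) (he (n + 1))
    rw [he2] at h2
    rw [← hNdef] at h1
    have h3 : ∫ x, tau (e n) (toM m k 𝕜 x) ^ 2 ∂(G ((m × k) × Coord.J 𝕜)) ≤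
        Fintype.card k * ∫ x, frobSq (TT (e n) (toM m k 𝕜 x)) ∂(G ((m × k) × Coord.J 𝕜)) := by
      rw [← integral_const_mul]
      exact integral_mono (tau_sq_int (he n)) ((frob_int (he n)).const_mul _)
        fun x => tau_sq_le _ _
    have h4 := mul_le_mul_of_nonneg_left h3 (bet_nonneg (𝕜 := 𝕜))
    set I := ∫ x, frobSq (TT (e n) (toM m k 𝕜 x)) ∂(G ((m × k) × Coord.J 𝕜)) with hI
    set J := ∫ x, tau (e n) (toM m k 𝕜 x) ^ 2 ∂(G ((m × k) × Coord.J 𝕜)) with hJ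
    have h5 : e n * (Coord.α 𝕜 * I + bet 𝕜 * J) ≤
        e n * (Coord.α 𝕜 * I + bet 𝕜 * (Fintype.card k * I)) :=
      mul_le_mul_of_nonneg_left (by linarith) (he n).le
    have h6 : e n * I ≤ 2 * (f (n + 1) - f n) := by
      rw [← he2 n]
      simp only [f]
      linarith
    have h7 : 0 ≤ Coord.α 𝕜 + bet 𝕜 * Fintype.card k := by
      have := Coord.alpha_nonneg (𝕜 := 𝕜)
      have := bet_nonneg (𝕜 := 𝕜)
      positivity
    have h8 := mul_le_mul_of_nonneg_left h6 h7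
    have h9 : f n = fe m k 𝕜 (e n) := rfl
    rw [h9]
    rw [h9] at h8
    nlinarith
  have helim : Tendsto e atTop (𝓝 0) :=
    tendsto_pow_atTop_nhds_zero_of_lt_one (by norm_num) (by norm_num)
  have hlim2 : Tendsto (fun n => (N + e n) * f n +
      2 * (Coord.α 𝕜 + bet 𝕜 * Fintype.card k) * (f (n + 1) - f n)) atTop
      (𝓝 ((N + 0) * c + 2 * (Coord.α 𝕜 + bet 𝕜 * Fintype.card k) * (c - c))) :=
    (((tendsto_const_nhds.add helim).mul hlim)).add ((hlim1.sub hlim).const_mul _)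
  have h1 : (Fintype.card k : ℝ) ≤ (N + 0) * c +
      2 * (Coord.α 𝕜 + bet 𝕜 * Fintype.card k) * (c - c) :=
    ge_of_tendsto' hlim2 hle
  have h2 : (Fintype.card k : ℝ) / N ≤ c := by
    rw [div_le_iff₀ hN]
    linarith
  obtain ⟨n, hn⟩ := ((hlim.eventually (lt_mem_nhds (hC.trans_le h2)))).exists
  exact ⟨e n, he n, hn⟩

/-- Gaussian matrices have full column rank almost surely. -/
theorem ae_inj (hN : 0 ≤ bet 𝕜 * (Fintype.card m - Fintype.card k) - Coord.α 𝕜) :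
    ∀ᵐ A ∂(gM m k 𝕜), ∀ v : k → 𝕜, A *ᵥ v = 0 → v = 0 := by
  have key : ∀ ε : ℝ, 0 < ε →
      gM m k 𝕜 {A | ¬ ∀ v : k → 𝕜, A *ᵥ v = 0 → v = 0} ≤
        ENNReal.ofReal (ε * (Fintype.card k / bet 𝕜)) := by
    intro ε hε
    have h1 := fe_identity (𝕜 := 𝕜) (m := m) (k := k) hε
    have h2 : 0 ≤ ∫ x, frobSq (TT ε (toM m k 𝕜 x)) ∂(G ((m × k) × Coord.J 𝕜)) :=
      integral_nonneg fun _ => frobSq_nonneg _
    have h4 := fe_nonneg (𝕜 := 𝕜) (m := m) (k := k) hε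
    have h5 := Coord.alpha_nonneg (𝕜 := 𝕜)
    have h6 := bet_pos (𝕜 := 𝕜)
    have h7 := mul_meas_ge_le_integral_of_nonneg (μ := G ((m × k) × Coord.J 𝕜))
      (f := fun x => tau ε (toM m k 𝕜 x) ^ 2) (Eventually.of_forall fun x => sq_nonneg _)
      (tau_sq_int hε) ((1 / ε) ^ 2)
    set J := ∫ x, tau ε (toM m k 𝕜 x) ^ 2 ∂(G ((m × k) × Coord.J 𝕜)) with hJ
    set I := ∫ x, frobSq (TT ε (toM m k 𝕜 x)) ∂(G ((m × k) × Coord.J 𝕜)) with hI
    have h8 : ε * (bet 𝕜 * J) ≤ Fintype.card k := by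
      have a1 : 0 ≤ ε * fe m k 𝕜 ε := by positivity
      have a2 : 0 ≤ (bet 𝕜 * (Fintype.card m - Fintype.card k) - Coord.α 𝕜) * fe m k 𝕜 ε :=
        mul_nonneg hN h4
      have a3 : 0 ≤ ε * (Coord.α 𝕜 * I) := by positivity
      nlinarith
    set Pr := (G ((m × k) × Coord.J 𝕜)).real {x | (1 / ε) ^ 2 ≤ tau ε (toM m k 𝕜 x) ^ 2} with hPr
    have h9 : Pr ≤ ε * (Fintype.card k / bet 𝕜) := by
      have b1 : Pr ≤ ε ^ 2 * J := by
        have : Pr = ε ^ 2 * ((1 / ε) ^ 2 * Pr) := by field_simp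
        rw [this]
        exact mul_le_mul_of_nonneg_left h7 (sq_nonneg _)
      have b2 : ε * J ≤ Fintype.card k / bet 𝕜 := by
        rw [le_div_iff₀ h6]
        linarith
      calc Pr ≤ ε * (ε * J) := by rw [← mul_assoc, ← sq]; exact b1
        _ ≤ _ := mul_le_mul_of_nonneg_left b2 hε.le
    have hcl : MeasurableSet {A : Matrix m k 𝕜 | (1 / ε) ^ 2 ≤ tau ε A ^ 2} := by
      have hm : Measurable (tau ε : Matrix m k 𝕜 → ℝ) := (tau_cont hε).measurable
      exact measurableSet_le measurable_const (hm.pow_const 2)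
    calc gM m k 𝕜 {A | ¬ ∀ v : k → 𝕜, A *ᵥ v = 0 → v = 0}
        ≤ gM m k 𝕜 {A : Matrix m k 𝕜 | (1 / ε) ^ 2 ≤ tau ε A ^ 2} := by
          refine measure_mono fun A hA => ?_
          simp only [Set.mem_ofPred_eq, not_forall] at hA
          obtain ⟨v, hv1, hv2⟩ := hA
          exact pow_le_pow_left₀ (by positivity) (tau_ge_of_singular hε A hv2 hv1) 2
      _ = ENNReal.ofReal Pr := by
          unfold gM
          rw [Measure.map_apply toM_meas hcl, hPr, Measure.real, ENNReal.ofReal_toReal (measure_ne_top _ _)]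
          rfl
      _ ≤ _ := ENNReal.ofReal_le_ofReal h9
  rw [ae_iff]
  apply le_antisymm _ zero_le
  have hlim : Tendsto (fun n : ℕ => ENNReal.ofReal ((1 / ((n : ℝ) + 1)) * (Fintype.card k / bet 𝕜)))
      atTop (𝓝 (ENNReal.ofReal (0 * (Fintype.card k / bet 𝕜)))) := by
    refine ENNReal.tendsto_ofReal ?_
    exact tendsto_one_div_add_atTop_nhds_zero_nat.mul_const _
  rw [zero_mul, ENNReal.ofReal_zero] at hlim
  exact ge_of_tendsto' hlim fun n => key _ (by positivity)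

end

end Q170.RN
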