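import Pool.Agent.Q170.RN.Rot

/-! The lower bound for the worst-case error ratio of every algorithm. -/

namespace Q170.RN
open MeasureTheory ProbabilityTheory Matrix
open scoped ComplexOrder

/-- `G` is the Moore-Penrose pseudoinverse of `A`. -/
def IsMP {𝕜 : Type} [RCLike 𝕜] {m k : Type} [Fintype m] [Fintype k] (A : Matrix m k 𝕜)
    (G : Matrix k m 𝕜) : Prop :=
  A * G * A = A ∧ G * A * G = G ∧ (A * G)ᴴ = A * G ∧ (G * A)ᴴ = G * A

/-- The worst-case error ratio of the algorithm `ALG` with a random embedding of law `μ`. -/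
noncomputable def worst {𝕜 : Type} [RCLike 𝕜] {n ℓ d p : ℕ} (r : ℕ)
    (μ : Measure (Matrix (Fin n) (Fin ℓ) 𝕜))
    (ALG : Matrix (Fin n) (Fin ℓ) 𝕜 × Matrix (Fin ℓ) (Fin d) 𝕜 × Matrix (Fin ℓ) (Fin p) 𝕜 →
      Matrix (Fin d) (Fin p) 𝕜) : ENNReal :=
  ⨆ (A : Matrix (Fin n) (Fin d) 𝕜) (G : Matrix (Fin d) (Fin n) 𝕜) (B : Matrix (Fin n) (Fin p) 𝕜)
    (_ : A.rank = r ∧ IsMP A G ∧ B ≠ A * G * B),
    (∫⁻ Om, ENNReal.ofReal (frobSq (B - A * ALG (Om, Omᴴ * A, Omᴴ * B))) ∂μ) /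
      ENNReal.ofReal (frobSq (B - A * G * B))

section
variable {𝕜 : Type} [RCLike 𝕜]

lemma inv_meas {k : Type} [Fintype k] [DecidableEq k] {Ω : Type*} [MeasurableSpace Ω]
    {f : Ω → Matrix k k 𝕜} (hf : Measurable f) : Measurable fun x => (f x)⁻¹ := by
  refine measurable_pi_iff.mpr fun i => measurable_pi_iff.mpr fun j => ?_
  have h : ∀ x, (f x)⁻¹ i j = ((f x).det)⁻¹ * (f x).adjugate i j := by
    intro x
    rw [Matrix.inv_def, Ring.inverse_eq_inv']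
    rfl
  simp only [h]
  refine Measurable.mul (Measurable.inv ?_) ?_
  · exact (continuous_id.matrix_det).measurable.comp hf
  · exact (((continuous_id (X := Matrix k k 𝕜)).matrix_adjugate).matrix_elem i j).measurable.comp hf

lemma QQ_meas {n : ℕ} {κ : Type} [Fintype κ] [DecidableEq κ] {Ω : Type*} [MeasurableSpace Ω]
    {f : Ω → Matrix (Fin n) κ 𝕜} (hf : Measurable f) : Measurable fun x => QQ (f x) := by
  unfold QQ PP
  exact sub_meas measurable_const (mul_meas (mul_meas hf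
    (inv_meas (mul_meas (conjTranspose_meas hf) hf))) (conjTranspose_meas hf))

/-- The coisometry `[I 0]`. -/
def EE (𝕜 : Type) [RCLike 𝕜] {r d : ℕ} (h : r ≤ d) : Matrix (Fin r) (Fin d) 𝕜 :=
  Matrix.of fun i j => if Fin.castLE h i = j then 1 else 0

lemma EE_mul {r d : ℕ} (h : r ≤ d) : EE 𝕜 h * (EE 𝕜 h)ᴴ = 1 := by
  ext i j
  rw [Matrix.mul_apply, Matrix.one_apply, Finset.sum_eq_single (Fin.castLE h i)]
  · simp only [EE, Matrix.conjTranspose_apply, Matrix.of_apply, if_true, one_mul]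
    by_cases hij : i = j
    · subst hij; simp
    · have : ¬ Fin.castLE h j = Fin.castLE h i := by
        intro h2
        apply hij
        exact (Fin.castLE_injective h h2).symm
      rw [if_neg this, if_neg hij, star_zero]
  · intro b _ hb
    simp only [EE, Matrix.of_apply]
    rw [if_neg (Ne.symm hb), zero_mul]
  · simp

/-- The row `e₀`. -/
def E0 (𝕜 : Type) [RCLike 𝕜] {p : ℕ} (j0 : Fin p) : Matrix Unit (Fin p) 𝕜 :=
  Matrix.of fun _ j => if j0 = j then 1 else 0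

lemma E0_mul {p : ℕ} (j0 : Fin p) : E0 𝕜 j0 * (E0 𝕜 j0)ᴴ = 1 := by
  ext i j
  rw [Matrix.mul_apply, Finset.sum_eq_single j0]
  · simp [E0]
  · intro b _ hb
    simp only [E0, Matrix.of_apply]
    rw [if_neg (Ne.symm hb), zero_mul]
  · simp

lemma frobSq_E0_le {n p : ℕ} (j0 : Fin p) (M : Matrix (Fin n) (Fin p) 𝕜) :
    frobSq (M * (E0 𝕜 j0)ᴴ) ≤ frobSq M := by
  unfold frobSq
  refine Finset.sum_le_sum fun i _ => ?_
  rw [Fintype.sum_unique]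
  have : (M * (E0 𝕜 j0)ᴴ) i default = M i j0 := by
    rw [Matrix.mul_apply, Finset.sum_eq_single j0]
    · simp [E0]
    · intro b _ hb
      simp only [E0, Matrix.conjTranspose_apply, Matrix.of_apply]
      rw [if_neg (Ne.symm hb), star_zero, mul_zero]
    · simp
  rw [this]
  exact Finset.single_le_sum (f := fun j => ‖M i j‖ ^ 2) (fun j _ => sq_nonneg _) (Finset.mem_univ j0)

lemma frobSq_E0 {n p : ℕ} (j0 : Fin p) (M : Matrix (Fin n) Unit 𝕜) :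
    frobSq (M * E0 𝕜 j0) = frobSq M := by
  rw [frobSq_eq_re_trace, Matrix.conjTranspose_mul, Matrix.mul_assoc, Matrix.trace_mul_comm,
    Matrix.mul_assoc, Matrix.mul_assoc, E0_mul, Matrix.mul_one, ← frobSq_eq_re_trace]

/-- The pseudoinverse of `A [I 0]`. -/
lemma isMP_full {n r d : ℕ} (h : r ≤ d) {A : Matrix (Fin n) (Fin r) 𝕜} (hA : Inj A) :
    IsMP (A * EE 𝕜 h) ((EE 𝕜 h)ᴴ * ((Aᴴ * A)⁻¹ * Aᴴ)) ∧
      A * EE 𝕜 h * ((EE 𝕜 h)ᴴ * ((Aᴴ * A)⁻¹ * Aᴴ)) = PP A := by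
  have h0 : A * EE 𝕜 h * ((EE 𝕜 h)ᴴ * ((Aᴴ * A)⁻¹ * Aᴴ)) = PP A := by
    rw [Matrix.mul_assoc, ← Matrix.mul_assoc (EE 𝕜 h), EE_mul, Matrix.one_mul]
    unfold PP
    rw [Matrix.mul_assoc]
  have h1 := Matrix.nonsing_inv_mul _ ((Matrix.isUnit_iff_isUnit_det _).mp (isUnit_gram hA))
  have h2 : (EE 𝕜 h)ᴴ * ((Aᴴ * A)⁻¹ * Aᴴ) * (A * EE 𝕜 h) = (EE 𝕜 h)ᴴ * EE 𝕜 h := by
    rw [Matrix.mul_assoc, Matrix.mul_assoc, ← Matrix.mul_assoc Aᴴ, ← Matrix.mul_assoc (Aᴴ * A)⁻¹,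
      h1, Matrix.one_mul]
  refine ⟨⟨?_, ?_, ?_, ?_⟩, h0⟩
  · rw [h0, ← Matrix.mul_assoc, PP_mul hA]
  · rw [h2, Matrix.mul_assoc, ← Matrix.mul_assoc (EE 𝕜 h), EE_mul, Matrix.one_mul]
  · rw [h0, PP_herm]
  · rw [h2, Matrix.conjTranspose_mul, Matrix.conjTranspose_conjTranspose]

lemma rank_full {n r d : ℕ} (h : r ≤ d) {A : Matrix (Fin n) (Fin r) 𝕜} (hA : Inj A) :
    (A * EE 𝕜 h).rank = r := by
  have hrA : A.rank = r := by
    have hinj : Function.Injective A.mulVecLin := by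
      intro v w hvw
      have := hA (v - w) (by rw [Matrix.mulVec_sub, sub_eq_zero]; exact hvw)
      exact sub_eq_zero.mp this
    rw [Matrix.rank, LinearMap.finrank_range_of_inj hinj]
    simp
  apply le_antisymm
  · exact (Matrix.rank_mul_le_left _ _).trans hrA.le
  · have h1 : A = (A * EE 𝕜 h) * (EE 𝕜 h)ᴴ := by rw [Matrix.mul_assoc, EE_mul, Matrix.mul_one]
    calc r = A.rank := hrA.symm
      _ = ((A * EE 𝕜 h) * (EE 𝕜 h)ᴴ).rank := by rw [← h1]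
      _ ≤ _ := Matrix.rank_mul_le_left _ _

end

section
variable {𝕜 : Type} [RCLike 𝕜] [Coord 𝕜] {n ℓ r : ℕ}

lemma prior_ae (hN' : 0 ≤ bet 𝕜 * ((n : ℝ) - (r + 1)) - Coord.α 𝕜) :
    ∀ᵐ v ∂(prior n (Fin r) 𝕜), Inj (fromCols v.1.1 v.1.2) := by
  have h1 := ae_inj (𝕜 := 𝕜) (m := Fin n) (k := Fin r ⊕ Unit) (by
    simpa using hN')
  let u : (Matrix (Fin n) (Fin r) 𝕜 × Matrix (Fin n) Unit 𝕜) →ₗ[ℝ] Matrix (Fin n) (Fin r ⊕ Unit) 𝕜 :=
    { toFun := fun p => fromCols p.1 p.2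
      map_add' := fun p q => by ext i c; rcases c with c | c <;> rfl
      map_smul' := fun a p => by ext i c; rcases c with c | c <;> rfl }
  have hum : Measurable u := fromCols_meas measurable_fst measurable_snd
  have hus : Function.Surjective u := fun M => ⟨(M.toCols₁, M.toCols₂), fromCols_toCols M⟩
  have h2 : ((gM (Fin n) (Fin r) 𝕜).prod (gM (Fin n) Unit 𝕜)).map u = gM (Fin n) (Fin r ⊕ Unit) 𝕜 :=
    gM_prod_map u (fun M => frobSq_fromCols M.1 M.2) hus hum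
  rw [← h2] at h1
  have h3 := ae_of_ae_map hum.aemeasurable h1
  unfold prior
  exact (Measure.quasiMeasurePreserving_fst (μ := (gM (Fin n) (Fin r) 𝕜).prod (gM (Fin n) Unit 𝕜))
    (ν := gM (Fin r) Unit 𝕜)).ae h3

lemma inj_left {A : Matrix (Fin n) (Fin r) 𝕜} {H : Matrix (Fin n) Unit 𝕜}
    (h : Inj (fromCols A H)) : Inj A := by
  intro v hv
  have h1 := h (Sum.elim v 0) (by
    rw [fromCols_mulVec]
    simp [hv])
  funext i
  exact congrFun h1 (Sum.inl i)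

lemma QQ_ne {A : Matrix (Fin n) (Fin r) 𝕜} {H : Matrix (Fin n) Unit 𝕜}
    (h : Inj (fromCols A H)) : QQ A * H ≠ 0 := by
  intro h0
  have hH : H = A * ((Aᴴ * A)⁻¹ * Aᴴ * H) := by
    unfold QQ PP at h0
    rw [Matrix.sub_mul, Matrix.one_mul, sub_eq_zero] at h0
    conv_lhs => rw [h0]
    simp only [Matrix.mul_assoc]
  set y := (Aᴴ * A)⁻¹ * Aᴴ * H with hy
  have h1 := h (Sum.elim (fun i => y i ()) (fun _ => -1)) (by
    rw [fromCols_mulVec]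
    funext a
    have h2 : H a () = ∑ i, A a i * y i () := by
      conv_lhs => rw [hH]
      rw [Matrix.mul_apply]
    simp only [Pi.add_apply, Matrix.mulVec, dotProduct, Function.comp, Sum.elim_inl, Sum.elim_inr,
      Fintype.sum_unique, Pi.zero_apply]
    change ∑ i, A a i * y i () + H a () * -1 = 0
    rw [h2]
    ring)
  have h2 := congrFun h1 (Sum.inr ())
  simp at h2

lemma lintegral_D (hN' : 0 ≤ bet 𝕜 * ((n : ℝ) - (r + 1)) - Coord.α 𝕜) :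
    ∫⁻ v, ENNReal.ofReal (frobSq (QQ v.1.1 * v.1.2)) ∂(prior n (Fin r) 𝕜) =
      ENNReal.ofReal (bet 𝕜 * ((n : ℝ) - r)) := by
  have hm : Measurable fun v : (Matrix (Fin n) (Fin r) 𝕜 × Matrix (Fin n) Unit 𝕜) ×
      Matrix (Fin r) Unit 𝕜 => ENNReal.ofReal (frobSq (QQ v.1.1 * v.1.2)) :=
    ENNReal.measurable_ofReal.comp (frobSq_meas.comp (mul_meas
      (QQ_meas (measurable_fst.comp measurable_fst)) (measurable_snd.comp measurable_fst)))
  have hm' : Measurable fun v : (Matrix (Fin n) (Fin r) 𝕜 × Matrix (Fin n) Unit 𝕜) =>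
      ENNReal.ofReal (frobSq (QQ v.1 * v.2)) :=
    ENNReal.measurable_ofReal.comp (frobSq_meas.comp (mul_meas
      (QQ_meas measurable_fst) measurable_snd))
  unfold prior
  rw [lintegral_prod _ hm.aemeasurable]
  simp only [lintegral_const, measure_univ, mul_one]
  rw [lintegral_prod _ hm'.aemeasurable]
  simp only [lintegral_mul]
  have hN'' : 0 ≤ bet 𝕜 * ((Fintype.card (Fin n) : ℝ) - Fintype.card (Fin r)) - Coord.α 𝕜 := by
    simp only [Fintype.card_fin]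
    have := bet_nonneg (𝕜 := 𝕜)
    nlinarith
  have hae := ae_inj (𝕜 := 𝕜) (m := Fin n) (k := Fin r) hN''
  have h1 : ∫⁻ A, ENNReal.ofReal (bet 𝕜 * (Fintype.card Unit : ℝ) * frobSq (QQ A))
      ∂(gM (Fin n) (Fin r) 𝕜) = ∫⁻ _A, ENNReal.ofReal (bet 𝕜 * ((n : ℝ) - r))
      ∂(gM (Fin n) (Fin r) 𝕜) := by
    refine lintegral_congr_ae ?_
    filter_upwards [hae] with A hA
    rw [frobSq_QQ hA]
    simp
  rw [h1, lintegral_const, measure_univ, mul_one]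

/-- **Main inequality.** -/
theorem main_ineq {d p : ℕ} (hℓ : ℓ ≤ n) (hrd : r ≤ d) (hp : 1 ≤ p) {ε s : ℝ} (hε : 0 < ε)
    (hs : s ^ 2 * ε = 1)
    (hN : 0 ≤ bet 𝕜 * ((ℓ : ℝ) - r) - Coord.α 𝕜)
    (hN' : 0 ≤ bet 𝕜 * ((n : ℝ) - (r + 1)) - Coord.α 𝕜)
    (μ : Measure (Matrix (Fin n) (Fin ℓ) 𝕜)) [IsProbabilityMeasure μ]
    (ALG : Matrix (Fin n) (Fin ℓ) 𝕜 × Matrix (Fin ℓ) (Fin d) 𝕜 × Matrix (Fin ℓ) (Fin p) 𝕜 →
      Matrix (Fin d) (Fin p) 𝕜) (hALG : Measurable ALG) :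
    ENNReal.ofReal (bet 𝕜 * (((ℓ : ℝ) - r) + ((n : ℝ) - ℓ) * (1 + bet 𝕜 * fe (Fin ℓ) (Fin r) 𝕜 ε))) ≤
      worst r μ ALG * ENNReal.ofReal (bet 𝕜 * ((n : ℝ) - r)) := by
  have j0 : Fin p := ⟨0, hp⟩
  set S := worst r μ ALG with hS
  let L : ((Matrix (Fin n) (Fin r) 𝕜 × Matrix (Fin n) Unit 𝕜) × Matrix (Fin r) Unit 𝕜) →
      Matrix (Fin n) (Fin ℓ) 𝕜 → ENNReal := fun v Om =>
    ENNReal.ofReal (frobSq (bb s v - v.1.1 * (EE 𝕜 hrd * ALG (Om, Omᴴ * v.1.1 * EE 𝕜 hrd,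
      Omᴴ * bb s v * E0 𝕜 j0) * (E0 𝕜 j0)ᴴ)))
  have hLm : Measurable (Function.uncurry L) := by
    have m1 : Measurable fun q : ((Matrix (Fin n) (Fin r) 𝕜 × Matrix (Fin n) Unit 𝕜) ×
        Matrix (Fin r) Unit 𝕜) × Matrix (Fin n) (Fin ℓ) 𝕜 => q.1.1.1 :=
      measurable_fst.comp (measurable_fst.comp measurable_fst)
    have m2 : Measurable fun q : ((Matrix (Fin n) (Fin r) 𝕜 × Matrix (Fin n) Unit 𝕜) ×
        Matrix (Fin r) Unit 𝕜) × Matrix (Fin n) (Fin ℓ) 𝕜 => bb s q.1 :=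
      (bb_meas s).comp measurable_fst
    refine ENNReal.measurable_ofReal.comp (frobSq_meas.comp (sub_meas m2 (mul_meas m1
      (mul_meas (mul_meas measurable_const (hALG.comp ?_)) measurable_const))))
    exact measurable_snd.prodMk ((mul_meas (mul_meas (conjTranspose_meas measurable_snd) m1)
      measurable_const).prodMk (mul_meas (mul_meas (conjTranspose_meas measurable_snd) m2)
      measurable_const))
  -- upper bound
  have hup : ∫⁻ v, ∫⁻ Om, L v Om ∂μ ∂(prior n (Fin r) 𝕜) ≤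
      S * ENNReal.ofReal (bet 𝕜 * ((n : ℝ) - r)) := by
    have hm : Measurable fun v : (Matrix (Fin n) (Fin r) 𝕜 × Matrix (Fin n) Unit 𝕜) ×
        Matrix (Fin r) Unit 𝕜 => ENNReal.ofReal (frobSq (QQ v.1.1 * v.1.2)) :=
      ENNReal.measurable_ofReal.comp (frobSq_meas.comp (mul_meas
        (QQ_meas (measurable_fst.comp measurable_fst)) (measurable_snd.comp measurable_fst)))
    rw [← lintegral_D hN', ← lintegral_const_mul _ hm]
    refine lintegral_mono_ae ?_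
    filter_upwards [prior_ae hN'] with v hv
    have hA : Inj v.1.1 := inj_left hv
    obtain ⟨hMP, hPP⟩ := isMP_full hrd hA
    set A := v.1.1 * EE 𝕜 hrd with hAdef
    set Gm := (EE 𝕜 hrd)ᴴ * ((v.1.1ᴴ * v.1.1)⁻¹ * v.1.1ᴴ) with hG
    set B := bb s v * E0 𝕜 j0 with hB
    have hres : B - A * Gm * B = QQ v.1.1 * v.1.2 * E0 𝕜 j0 := by
      rw [hPP, hB, ← Matrix.mul_assoc, ← Matrix.sub_mul]
      congr 1
      have e1 : QQ v.1.1 * bb s v = QQ v.1.1 * v.1.2 := by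
        unfold bb
        rw [Matrix.mul_add, Matrix.mul_smul, ← Matrix.mul_assoc, QQ_mul hA, Matrix.zero_mul,
          smul_zero, zero_add]
      rw [← e1]
      unfold QQ
      rw [Matrix.sub_mul, Matrix.one_mul]
    have hD : frobSq (B - A * Gm * B) = frobSq (QQ v.1.1 * v.1.2) := by
      rw [hres, frobSq_E0]
    have hne0 : 0 < frobSq (QQ v.1.1 * v.1.2) := by
      refine lt_of_le_of_ne (frobSq_nonneg _) fun h0 => ?_
      apply QQ_ne hv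
      ext i c
      have h1 := (Finset.sum_eq_zero_iff_of_nonneg (fun i _ => Finset.sum_nonneg fun c _ =>
        sq_nonneg _)).mp h0.symm i (Finset.mem_univ i)
      have h2 := (Finset.sum_eq_zero_iff_of_nonneg (fun c _ => sq_nonneg _)).mp h1 c
        (Finset.mem_univ c)
      simpa using h2
    have hBne : B ≠ A * Gm * B := by
      intro h0
      have : B - A * Gm * B = 0 := sub_eq_zero.mpr h0
      rw [this] at hD
      have h1 : frobSq (0 : Matrix (Fin n) (Fin p) 𝕜) = 0 := by simp [frobSq]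
      rw [h1] at hD
      exact hne0.ne hD
    have hsup : (∫⁻ Om, ENNReal.ofReal (frobSq (B - A * ALG (Om, Omᴴ * A, Omᴴ * B))) ∂μ) /
        ENNReal.ofReal (frobSq (B - A * Gm * B)) ≤ S := by
      rw [hS]
      unfold worst
      exact le_iSup_of_le A (le_iSup_of_le Gm (le_iSup_of_le B
        (le_iSup_of_le ⟨rank_full hrd hA, hMP, hBne⟩ le_rfl)))
    rw [hD, ENNReal.div_le_iff (by simpa using hne0) ENNReal.ofReal_ne_top] at hsup
    refine le_trans (lintegral_mono fun Om => ENNReal.ofReal_le_ofReal ?_) hsup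
    have e2 := frobSq_E0_le j0 (B - A * ALG (Om, Omᴴ * A, Omᴴ * B))
    refine le_trans (le_of_eq ?_) e2
    congr 1
    rw [Matrix.sub_mul, hB, Matrix.mul_assoc (bb s v), E0_mul, Matrix.mul_one]
    congr 1
    rw [hAdef]
    simp only [Matrix.mul_assoc]
  -- lower bound
  have hlow : ENNReal.ofReal (bet 𝕜 * (((ℓ : ℝ) - r) +
      ((n : ℝ) - ℓ) * (1 + bet 𝕜 * fe (Fin ℓ) (Fin r) 𝕜 ε))) ≤
      ∫⁻ v, ∫⁻ Om, L v Om ∂μ ∂(prior n (Fin r) 𝕜) := by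
    rw [lintegral_lintegral_swap hLm.aemeasurable]
    have h1 : ∀ Om : Matrix (Fin n) (Fin ℓ) 𝕜, ENNReal.ofReal (bet 𝕜 * (((ℓ : ℝ) - r) +
        ((n : ℝ) - ℓ) * (1 + bet 𝕜 * fe (Fin ℓ) (Fin r) 𝕜 ε))) ≤
        ∫⁻ v, L v Om ∂(prior n (Fin r) 𝕜) := by
      intro Om
      have hφ : Measurable fun q : Matrix (Fin ℓ) (Fin r) 𝕜 × Matrix (Fin ℓ) Unit 𝕜 =>
          EE 𝕜 hrd * ALG (Om, q.1 * EE 𝕜 hrd, q.2 * E0 𝕜 j0) * (E0 𝕜 j0)ᴴ :=
        mul_meas (mul_meas measurable_const (hALG.comp (measurable_const.prodMk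
          ((mul_meas measurable_fst measurable_const).prodMk
            (mul_meas measurable_snd measurable_const))))) measurable_const
      have h2 := fixedOm (𝕜 := 𝕜) (κ := Fin r) hℓ hε hs (by simpa using hN) Om _ hφ
      simp only [Fintype.card_fin] at h2
      exact h2
    calc _ = ∫⁻ _Om : Matrix (Fin n) (Fin ℓ) 𝕜, ENNReal.ofReal (bet 𝕜 * (((ℓ : ℝ) - r) +
        ((n : ℝ) - ℓ) * (1 + bet 𝕜 * fe (Fin ℓ) (Fin r) 𝕜 ε))) ∂μ := by
          rw [lintegral_const, measure_univ, mul_one]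
      _ ≤ _ := lintegral_mono h1
  exact hlow.trans hup

/-- **The theorem** in terms of `a = α / β` (`1` for `ℝ`, `0` for `ℂ`). -/
theorem main {d p : ℕ} (hℓ : ℓ ≤ n) (hrd : r ≤ d) (hp : 1 ≤ p) {a : ℕ}
    (ha : Coord.α 𝕜 = bet 𝕜 * a) (hr : r + a < ℓ)
    (μ : Measure (Matrix (Fin n) (Fin ℓ) 𝕜)) [IsProbabilityMeasure μ]
    (ALG : Matrix (Fin n) (Fin ℓ) 𝕜 × Matrix (Fin ℓ) (Fin d) 𝕜 × Matrix (Fin ℓ) (Fin p) 𝕜 →
      Matrix (Fin d) (Fin p) 𝕜) (hALG : Measurable ALG) :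
    ENNReal.ofReal (1 + ((n : ℝ) - ℓ) / ((n : ℝ) - r) * ((r : ℝ) / ((ℓ : ℝ) - r - a))) ≤
      worst r μ ALG := by
  have hb := bet_pos (𝕜 := 𝕜)
  have hr' : (r : ℝ) + a < ℓ := by exact_mod_cast hr
  have hr1 : (r : ℝ) + a + 1 ≤ ℓ := by exact_mod_cast hr
  have hℓ' : (ℓ : ℝ) ≤ n := by exact_mod_cast hℓ
  have hNpos : 0 < bet 𝕜 * ((ℓ : ℝ) - r) - Coord.α 𝕜 := by
    rw [ha]
    have : 0 < bet 𝕜 * ((ℓ : ℝ) - r - a) := mul_pos hb (by linarith)
    linarith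
  have hN' : 0 ≤ bet 𝕜 * ((n : ℝ) - (r + 1)) - Coord.α 𝕜 := by
    rw [ha]
    have : 0 ≤ bet 𝕜 * ((n : ℝ) - (r + 1) - a) := mul_nonneg hb.le (by linarith)
    linarith
  by_cases hT : worst r μ ALG = ⊤
  · rw [hT]; exact le_top
  have ha0 : (0 : ℝ) ≤ a := Nat.cast_nonneg _
  have hnr : 0 < (n : ℝ) - r := by linarith
  -- the real inequality for each ε
  have key : ∀ ε : ℝ, 0 < ε → 1 + ((n : ℝ) - ℓ) / ((n : ℝ) - r) * (bet 𝕜 * fe (Fin ℓ) (Fin r) 𝕜 ε) ≤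
      (worst r μ ALG).toReal := by
    intro ε hε
    have hs : (1 / Real.sqrt ε) ^ 2 * ε = 1 := by
      rw [div_pow, Real.sq_sqrt hε.le]
      field_simp
    have h1 := main_ineq (𝕜 := 𝕜) hℓ hrd hp hε hs hNpos.le hN' μ ALG hALG
    have h2 : worst r μ ALG = ENNReal.ofReal (worst r μ ALG).toReal :=
      (ENNReal.ofReal_toReal hT).symm
    rw [h2, ← ENNReal.ofReal_mul ENNReal.toReal_nonneg] at h1
    have h3 := (ENNReal.ofReal_le_ofReal_iff (mul_nonneg ENNReal.toReal_nonneg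
      (mul_nonneg hb.le hnr.le))).mp h1
    have h4 : (n : ℝ) - r + ((n : ℝ) - ℓ) * (bet 𝕜 * fe (Fin ℓ) (Fin r) 𝕜 ε) ≤
        (worst r μ ALG).toReal * ((n : ℝ) - r) := by
      have : bet 𝕜 * ((n : ℝ) - r + ((n : ℝ) - ℓ) * (bet 𝕜 * fe (Fin ℓ) (Fin r) 𝕜 ε)) ≤
        bet 𝕜 * ((worst r μ ALG).toReal * ((n : ℝ) - r)) := by linarith
      exact le_of_mul_le_mul_left this hb
    have h5 : 1 + ((n : ℝ) - ℓ) / ((n : ℝ) - r) * (bet 𝕜 * fe (Fin ℓ) (Fin r) 𝕜 ε) =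
        ((n : ℝ) - r + ((n : ℝ) - ℓ) * (bet 𝕜 * fe (Fin ℓ) (Fin r) 𝕜 ε)) / ((n : ℝ) - r) := by
      field_simp
    rw [h5, div_le_iff₀ hnr]
    exact h4
  have h2 : worst r μ ALG = ENNReal.ofReal (worst r μ ALG).toReal :=
    (ENNReal.ofReal_toReal hT).symm
  rw [h2]
  refine ENNReal.ofReal_le_ofReal ?_
  have ht : 0 ≤ ((n : ℝ) - ℓ) / ((n : ℝ) - r) * bet 𝕜 :=
    mul_nonneg (div_nonneg (by linarith) hnr.le) hb.le
  have hbound : (r : ℝ) / ((ℓ : ℝ) - r - a) = bet 𝕜 * ((Fintype.card (Fin r) : ℝ) /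
      (bet 𝕜 * ((Fintype.card (Fin ℓ) : ℝ) - Fintype.card (Fin r)) - Coord.α 𝕜)) := by
    rw [Fintype.card_fin, Fintype.card_fin, ha]
    have e1 : bet 𝕜 * ((ℓ : ℝ) - r) - bet 𝕜 * a = bet 𝕜 * ((ℓ : ℝ) - r - a) := by ring
    rw [e1]
    have e2 : (ℓ : ℝ) - r - a ≠ 0 := by linarith
    field_simp
  rw [hbound]
  by_contra hcon
  push Not at hcon
  rcases ht.eq_or_lt with ht0 | htpos
  · have h3 := key 1 one_pos
    rw [← mul_assoc, ← ht0] at h3 hcon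
    linarith
  · have h3 : ((worst r μ ALG).toReal - 1) / (((n : ℝ) - ℓ) / ((n : ℝ) - r) * bet 𝕜) <
        (Fintype.card (Fin r) : ℝ) /
        (bet 𝕜 * ((Fintype.card (Fin ℓ) : ℝ) - Fintype.card (Fin r)) - Coord.α 𝕜) := by
      rw [div_lt_iff₀ htpos]
      linarith
    obtain ⟨ε, hε, h4⟩ := fe_lower (𝕜 := 𝕜) (m := Fin ℓ) (k := Fin r) (by simpa using hNpos) h3
    rw [div_lt_iff₀ htpos] at h4
    have h5 := key ε hε
    linarith

end

end Q170.RN
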