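import Pool.Agent.Q170.RN.Gau

/-! Standard Gaussian matrices: invariance, splitting, second moments. -/

namespace Q170.RN
open MeasureTheory ProbabilityTheory Matrix

/-- The standard Gaussian measure on `m × k` matrices over `𝕜` (all real coordinates are
independent standard normal). -/
noncomputable def gM (m k : Type) [Fintype m] [Fintype k] (𝕜 : Type) [RCLike 𝕜] [Coord 𝕜] :
    Measure (Matrix m k 𝕜) :=
  (G ((m × k) × Coord.J 𝕜)).map (toM m k 𝕜)

section
variable {𝕜 : Type} [RCLike 𝕜] [Coord 𝕜] {m k m' k' m₁ k₁ m₂ k₂ : Type} [Fintype m] [Fintype k]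
  [Fintype m'] [Fintype k'] [Fintype m₁] [Fintype k₁] [Fintype m₂] [Fintype k₂]

instance {κ : Type} [Fintype κ] : IsProbabilityMeasure (G κ) := by
  unfold G; infer_instance

instance : IsProbabilityMeasure (gM m k 𝕜) := by
  unfold gM
  exact Measure.isProbabilityMeasure_map toM_meas.aemeasurable

/-- Isometric linear maps preserve the Gaussian measure. -/
theorem gM_map (u : Matrix m k 𝕜 →ₗ[ℝ] Matrix m' k' 𝕜) (hu : ∀ M, frobSq (u M) = frobSq M)
    (hs : Function.Surjective u) (hm : Measurable u) : (gM m k 𝕜).map u = gM m' k' 𝕜 := by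
  unfold gM
  rw [Measure.map_map hm toM_meas]
  exact G_map_eq (u ∘ₗ toM m k 𝕜) (toM m' k' 𝕜) frobSq
    (fun x => by rw [LinearMap.comp_apply, hu, frobSq_toM]) frobSq_toM
    (hs.comp toM_surj) toM_surj toM_meas

/-- Isometric linear maps on a product. -/
theorem gM_prod_map (u : (Matrix m₁ k₁ 𝕜 × Matrix m₂ k₂ 𝕜) →ₗ[ℝ] Matrix m k 𝕜)
    (hu : ∀ M, frobSq (u M) = frobSq M.1 + frobSq M.2)
    (hs : Function.Surjective u) (hm : Measurable u) :
    ((gM m₁ k₁ 𝕜).prod (gM m₂ k₂ 𝕜)).map u = gM m k 𝕜 := by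
  unfold gM
  rw [Measure.map_prod_map _ _ toM_meas toM_meas, Measure.map_map hm (toM_meas.prodMap toM_meas)]
  have h1 := (measurePreserving_sumPiEquivProdPi (ι := (m₁ × k₁) × Coord.J 𝕜)
    (ι' := (m₂ × k₂) × Coord.J 𝕜) (fun _ => gaussianReal 0 1)).map_eq
  have h2 : (G ((m₁ × k₁) × Coord.J 𝕜)).prod (G ((m₂ × k₂) × Coord.J 𝕜)) =
      (G ((m₁ × k₁) × Coord.J 𝕜 ⊕ (m₂ × k₂) × Coord.J 𝕜)).map
        (MeasurableEquiv.sumPiEquivProdPi fun _ => ℝ) := h1.symm
  rw [h2, Measure.map_map (hm.comp (toM_meas.prodMap toM_meas)) (MeasurableEquiv.measurable _)]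
  let w : ((m₁ × k₁) × Coord.J 𝕜 ⊕ (m₂ × k₂) × Coord.J 𝕜 → ℝ) →ₗ[ℝ]
      (Matrix m₁ k₁ 𝕜 × Matrix m₂ k₂ 𝕜) :=
    LinearMap.prod (toM m₁ k₁ 𝕜 ∘ₗ LinearMap.funLeft ℝ ℝ Sum.inl)
      (toM m₂ k₂ 𝕜 ∘ₗ LinearMap.funLeft ℝ ℝ Sum.inr)
  have hw : Function.Surjective w := by
    rintro ⟨A, B⟩
    obtain ⟨x, rfl⟩ := toM_surj A
    obtain ⟨y, rfl⟩ := toM_surj B
    exact ⟨Sum.elim x y, rfl⟩
  refine G_map_eq (u ∘ₗ w) (toM m k 𝕜) frobSq (fun x => ?_) frobSq_toM (hs.comp hw) toM_surj toM_meas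
  rw [LinearMap.comp_apply, hu, Fintype.sum_sum_type]
  change frobSq (toM m₁ k₁ 𝕜 _) + frobSq (toM m₂ k₂ 𝕜 _) = _
  rw [frobSq_toM, frobSq_toM]
  rfl

end

section
variable {K : Type} [Fintype K]

lemma integral_lin_sq (c : EuclideanSpace ℝ K) :
    ∫ g, inner ℝ c g * inner ℝ c g ∂(stdGaussian (EuclideanSpace ℝ K)) = ‖c‖ ^ 2 := by
  have h := variance_dual_stdGaussian (E := EuclideanSpace ℝ K) (innerSL ℝ c)
  rw [variance_eq_integral (by fun_prop), integral_strongDual_stdGaussian, innerSL_apply_norm] at h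
  rw [← h]
  apply integral_congr_ae
  filter_upwards with g
  simp [pow_two]

lemma integrable_lin_sq (c : EuclideanSpace ℝ K) :
    Integrable (fun g => inner ℝ c g * inner ℝ c g) (stdGaussian (EuclideanSpace ℝ K)) := by
  have h : MemLp (fun g => inner ℝ c g) 2 (stdGaussian (EuclideanSpace ℝ K)) :=
    IsGaussian.memLp_dual (stdGaussian (EuclideanSpace ℝ K)) (innerSL ℝ c) 2 (by norm_num)
  exact h.integrable_mul h

/-- Second moment of a linear functional. -/
theorem lintegral_sq (c : K → ℝ) :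
    ∫⁻ x, ENNReal.ofReal ((∑ p, c p * x p) ^ 2) ∂(G K) = ENNReal.ofReal (∑ p, c p ^ 2) := by
  have m3 : Measurable (WithLp.toLp 2 : (K → ℝ) → EuclideanSpace ℝ K) :=
    (PiLp.continuous_toLp 2 _).measurable
  have h1 : ∫⁻ g, ENNReal.ofReal (inner ℝ (WithLp.toLp 2 c) g * inner ℝ (WithLp.toLp 2 c) g)
      ∂(stdGaussian (EuclideanSpace ℝ K)) = ENNReal.ofReal (∑ p, c p ^ 2) := by
    rw [← ofReal_integral_eq_lintegral_ofReal (integrable_lin_sq _)
      (Filter.Eventually.of_forall fun g => mul_self_nonneg _), integral_lin_sq]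
    congr 1
    rw [EuclideanSpace.real_norm_sq_eq]
  rw [← h1, ← map_pi_eq_stdGaussian, lintegral_map (by fun_prop) m3]
  apply lintegral_congr
  intro x
  congr 1
  rw [sq]
  have : ∑ p, c p * x p = inner ℝ (WithLp.toLp 2 c) (WithLp.toLp 2 x) := by
    rw [PiLp.inner_apply]
    apply Finset.sum_congr rfl
    intro p _
    simp [mul_comm]
  rw [this]

end

section
variable {𝕜 : Type} [RCLike 𝕜] [Coord 𝕜] {l m k : Type} [Fintype l] [Fintype m] [Fintype k]

omit [Coord 𝕜] [Fintype m] [Fintype k] in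
lemma entry_meas (i : m) (c : k) : Measurable (fun M : Matrix m k 𝕜 => M i c) :=
  (measurable_pi_apply c).comp (measurable_pi_apply i)

omit [Coord 𝕜] in
lemma frobSq_meas : Measurable (frobSq : Matrix m k 𝕜 → ℝ) := by
  unfold frobSq
  exact Finset.measurable_sum _ fun i _ => Finset.measurable_sum _ fun c _ =>
    (entry_meas i c).norm.pow_const 2

omit [Coord 𝕜] [Fintype k] [Fintype l] in
lemma mul_meas {Ω : Type*} [MeasurableSpace Ω] {f : Ω → Matrix l m 𝕜} {g : Ω → Matrix m k 𝕜}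
    (hf : Measurable f) (hg : Measurable g) : Measurable fun x => f x * g x := by
  refine measurable_pi_iff.mpr fun i => measurable_pi_iff.mpr fun c => ?_
  simp only [Matrix.mul_apply]
  exact Finset.measurable_sum _ fun a _ => ((entry_meas i a).comp hf).mul ((entry_meas a c).comp hg)

/-- Left multiplication as a real linear map. -/
def mulL (k : Type) (M : Matrix l m 𝕜) : Matrix m k 𝕜 →ₗ[ℝ] Matrix l k 𝕜 where
  toFun Z := M * Z
  map_add' := Matrix.mul_add M
  map_smul' a Z := by rw [RingHom.id_apply, Matrix.mul_smul]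

/-- Second moment of a real linear map. -/
theorem lintegral_frob {K : Type} [Fintype K] [DecidableEq K] (L : (K → ℝ) →ₗ[ℝ] Matrix l k 𝕜) :
    ∫⁻ x, ENNReal.ofReal (frobSq (L x)) ∂(G K) =
      ENNReal.ofReal (∑ p, frobSq (L (Pi.single p 1))) := by
  have hsum : ∀ x, L x = ∑ p, x p • L (Pi.single p 1) := by
    intro x
    conv_lhs => rw [show x = ∑ p, x p • (Pi.single p (1 : ℝ) : K → ℝ) by
      rw [← pi_eq_sum_univ' x]]
    rw [map_sum]
    simp only [map_smul]
  have hpt : ∀ x, frobSq (L x) = ∑ i, ∑ c, ∑ j,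
      (∑ p, RCLike.re (star (Coord.e (𝕜 := 𝕜) j) * L (Pi.single p 1) i c) * x p) ^ 2 := by
    intro x
    unfold frobSq
    refine Finset.sum_congr rfl fun i _ => Finset.sum_congr rfl fun c _ => ?_
    rw [← parseval]
    refine Finset.sum_congr rfl fun j _ => ?_
    congr 1
    rw [hsum x, Matrix.sum_apply, Finset.mul_sum, map_sum]
    refine Finset.sum_congr rfl fun p _ => ?_
    rw [Matrix.smul_apply, RCLike.real_smul_eq_coe_mul, mul_left_comm, RCLike.re_ofReal_mul, mul_comm]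
  have hlin : ∀ c : K → ℝ, Measurable fun x : K → ℝ => ENNReal.ofReal ((∑ p, c p * x p) ^ 2) := by
    intro c; fun_prop
  have hof : ∀ x : K → ℝ, ENNReal.ofReal (∑ i, ∑ c, ∑ j,
      (∑ p, RCLike.re (star (Coord.e (𝕜 := 𝕜) j) * L (Pi.single p 1) i c) * x p) ^ 2) =
      ∑ i, ∑ c, ∑ j, ENNReal.ofReal
      ((∑ p, RCLike.re (star (Coord.e (𝕜 := 𝕜) j) * L (Pi.single p 1) i c) * x p) ^ 2) := by
    intro x
    rw [ENNReal.ofReal_sum_of_nonneg (fun i _ => Finset.sum_nonneg fun c _ =>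
      Finset.sum_nonneg fun j _ => sq_nonneg _)]
    refine Finset.sum_congr rfl fun i _ => ?_
    rw [ENNReal.ofReal_sum_of_nonneg (fun c _ => Finset.sum_nonneg fun j _ => sq_nonneg _)]
    refine Finset.sum_congr rfl fun c _ => ?_
    rw [ENNReal.ofReal_sum_of_nonneg (fun j _ => sq_nonneg _)]
  rw [lintegral_congr (fun x => by rw [hpt x, hof x])]
  rw [lintegral_finsetSum _ (fun i _ => Finset.measurable_sum _ fun c _ =>
    Finset.measurable_sum _ fun j _ => hlin _)]
  have e1 : ∀ i, ∫⁻ x, ∑ c, ∑ j, ENNReal.ofReal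
      ((∑ p, RCLike.re (star (Coord.e (𝕜 := 𝕜) j) * L (Pi.single p 1) i c) * x p) ^ 2) ∂(G K) =
      ∑ c, ∑ j, ENNReal.ofReal (∑ p, RCLike.re (star (Coord.e (𝕜 := 𝕜) j) *
        L (Pi.single p 1) i c) ^ 2) := by
    intro i
    rw [lintegral_finsetSum _ (fun c _ => Finset.measurable_sum _ fun j _ => hlin _)]
    refine Finset.sum_congr rfl fun c _ => ?_
    rw [lintegral_finsetSum _ (fun j _ => hlin _)]
    refine Finset.sum_congr rfl fun j _ => ?_
    exact lintegral_sq _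
  simp only [e1]
  have e2 : ∑ p, frobSq (L (Pi.single p 1)) = ∑ i, ∑ c, ∑ j, ∑ p,
      RCLike.re (star (Coord.e (𝕜 := 𝕜) j) * L (Pi.single p 1) i c) ^ 2 := by
    unfold frobSq
    rw [Finset.sum_comm]
    refine Finset.sum_congr rfl fun i _ => ?_
    rw [Finset.sum_comm]
    refine Finset.sum_congr rfl fun c _ => ?_
    rw [Finset.sum_comm]
    refine Finset.sum_congr rfl fun p _ => ?_
    rw [← parseval]
  rw [e2, ENNReal.ofReal_sum_of_nonneg (fun i _ => Finset.sum_nonneg fun c _ =>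
      Finset.sum_nonneg fun j _ => Finset.sum_nonneg fun p _ => sq_nonneg _)]
  refine Finset.sum_congr rfl fun i _ => ?_
  rw [ENNReal.ofReal_sum_of_nonneg (fun c _ => Finset.sum_nonneg fun j _ =>
    Finset.sum_nonneg fun p _ => sq_nonneg _)]
  refine Finset.sum_congr rfl fun c _ => ?_
  rw [ENNReal.ofReal_sum_of_nonneg (fun j _ => Finset.sum_nonneg fun p _ => sq_nonneg _)]

/-- The number of real coordinates of the field. -/
noncomputable def bet (𝕜 : Type) [RCLike 𝕜] [Coord 𝕜] : ℝ := Fintype.card (Coord.J 𝕜)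

lemma bet_nonneg : 0 ≤ bet 𝕜 := Nat.cast_nonneg _

omit [Fintype m] [Fintype k] in
lemma toM_single [DecidableEq m] [DecidableEq k] (i : m) (c : k) (j : Coord.J 𝕜) :
    toM m k 𝕜 (Pi.single ((i, c), j) 1) = Matrix.single i c (Coord.e j) := by
  ext a b
  rw [toM_apply]
  by_cases h : i = a ∧ c = b
  · obtain ⟨rfl, rfl⟩ := h
    rw [Matrix.single_apply_same, Finset.sum_eq_single j]
    · simp
    · intro l _ hl
      rw [Pi.single_eq_of_ne (by simpa using hl)]
      simp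
    · simp
  · rw [Matrix.single_apply_of_ne _ _ _ _ _ h]
    apply Finset.sum_eq_zero
    intro l _
    rw [Pi.single_eq_of_ne (by
      intro h2
      apply h
      simp only [Prod.mk.injEq] at h2
      exact ⟨h2.1.1.symm, h2.1.2.symm⟩)]
    simp

/-- Second moment of `M * Z`. -/
theorem lintegral_mul (M : Matrix l m 𝕜) :
    ∫⁻ Z, ENNReal.ofReal (frobSq (M * Z)) ∂(gM m k 𝕜) =
      ENNReal.ofReal (bet 𝕜 * Fintype.card k * frobSq M) := by
  classical
  have hm : Measurable fun Z : Matrix m k 𝕜 => ENNReal.ofReal (frobSq (M * Z)) :=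
    ENNReal.measurable_ofReal.comp (frobSq_meas.comp (mul_meas measurable_const measurable_id))
  unfold gM
  rw [lintegral_map hm toM_meas]
  have h1 := lintegral_frob (mulL k M ∘ₗ toM m k 𝕜)
  have h2 : ∀ x, (mulL k M ∘ₗ toM m k 𝕜) x = M * toM m k 𝕜 x := fun x => rfl
  simp only [h2] at h1
  rw [h1]
  congr 1
  have h3 : ∀ p : (m × k) × Coord.J 𝕜, frobSq (M * toM m k 𝕜 (Pi.single p 1)) =
      ∑ i, ‖M i p.1.1‖ ^ 2 := by
    rintro ⟨⟨a, c⟩, j⟩
    rw [toM_single]
    unfold frobSq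
    refine Finset.sum_congr rfl fun i _ => ?_
    rw [Finset.sum_eq_single c]
    · rw [Matrix.mul_single_apply_same, norm_mul, norm_e, mul_one]
    · intro b _ hb
      rw [Matrix.mul_single_apply_of_ne _ _ _ _ _ hb]
      simp
    · simp
  simp only [h3]
  rw [Fintype.sum_prod_type, Fintype.sum_prod_type]
  simp only [Finset.sum_const, Finset.card_univ, nsmul_eq_mul]
  unfold frobSq bet
  rw [Finset.sum_comm (s := (Finset.univ : Finset l)), Finset.mul_sum]
  refine Finset.sum_congr rfl fun a _ => ?_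
  ring

end

end Q170.RN
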