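import Pool.Agent.Q170.RN.IsG

/-! The posterior inequality by reflection, and the two blocks of the loss. -/

namespace Q170.RN
open MeasureTheory ProbabilityTheory Matrix
open scoped ComplexOrder

section
variable {𝕜 : Type} [RCLike 𝕜] [Coord 𝕜] {ι κ π l : Type} [Fintype ι] [Fintype κ]
  [Fintype π] [Fintype l] [DecidableEq κ]

omit [Coord 𝕜] [Fintype κ] [DecidableEq κ] in
lemma frobSq_smul (a : ℝ) (M : Matrix ι π 𝕜) : frobSq (a • M) = a ^ 2 * frobSq M := by
  unfold frobSq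
  rw [Finset.mul_sum]
  refine Finset.sum_congr rfl fun i _ => ?_
  rw [Finset.mul_sum]
  refine Finset.sum_congr rfl fun c _ => ?_
  rw [Matrix.smul_apply, norm_smul, mul_pow, Real.norm_eq_abs, sq_abs]

omit [Coord 𝕜] [Fintype κ] [DecidableEq κ] in
/-- The parallelogram inequality. -/
lemma frobSq_parallel (M M' U : Matrix ι π 𝕜) :
    frobSq (M - M') ≤ 2 * (frobSq (M - U) + frobSq (M' - U)) := by
  unfold frobSq
  rw [← Finset.sum_add_distrib, Finset.mul_sum]
  refine Finset.sum_le_sum fun i _ => ?_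
  rw [← Finset.sum_add_distrib, Finset.mul_sum]
  refine Finset.sum_le_sum fun c _ => ?_
  rw [Matrix.sub_apply, Matrix.sub_apply, Matrix.sub_apply]
  have h : ‖M i c - M' i c‖ ≤ ‖M i c - U i c‖ + ‖M' i c - U i c‖ := by
    have := norm_sub_le (M i c - U i c) (M' i c - U i c)
    rwa [sub_sub_sub_cancel_right] at this
  have h2 := norm_nonneg (M i c - M' i c)
  nlinarith [sq_nonneg (‖M i c - U i c‖ - ‖M' i c - U i c‖)]

/-- The posterior mean deviation `N = ε (T X - s T Aᴴ H)`. -/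
noncomputable def NN (ε s : ℝ) (A : Matrix ι κ 𝕜) (p : Matrix κ π 𝕜 × Matrix ι π 𝕜) :
    Matrix κ π 𝕜 := ε • (TT ε A * p.1 - s • (TT ε A * Aᴴ * p.2))

/-- The reflection. -/
noncomputable def refl (ε s : ℝ) (A : Matrix ι κ 𝕜) :
    (Matrix κ π 𝕜 × Matrix ι π 𝕜) →ₗ[ℝ] (Matrix κ π 𝕜 × Matrix ι π 𝕜) where
  toFun p := (p.1 - (2 : ℝ) • NN ε s A p, p.2 + (2 * s : ℝ) • (A * NN ε s A p))
  map_add' p q := by
    have h : NN ε s A (p + q) = NN ε s A p + NN ε s A q := by
      unfold NN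
      rw [Prod.fst_add, Prod.snd_add, Matrix.mul_add, Matrix.mul_add]
      module
    rw [h]
    ext1
    · simp only [Prod.fst_add]
      module
    · simp only [Prod.snd_add]
      rw [Matrix.mul_add]
      module
  map_smul' a p := by
    have h : NN ε s A (a • p) = a • NN ε s A p := by
      unfold NN
      rw [Prod.smul_fst, Prod.smul_snd, Matrix.mul_smul, Matrix.mul_smul]
      module
    rw [h]
    ext1
    · simp only [Prod.smul_fst, RingHom.id_apply]
      module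
    · simp only [Prod.smul_snd, RingHom.id_apply]
      rw [Matrix.mul_smul]
      module

omit [Coord 𝕜] [Fintype κ] [Fintype π] [DecidableEq κ] in
lemma real_smul_eq (a : ℝ) (M : Matrix κ π 𝕜) : a • M = (a : 𝕜) • M := by
  ext i j
  rw [Matrix.smul_apply, Matrix.smul_apply, RCLike.real_smul_eq_coe_smul (K := 𝕜)]

omit [Coord 𝕜] [Fintype π] in
/-- The normal equation `(1 + s² AᴴA) N = X - s Aᴴ H` when `s² ε = 1`. -/
lemma NN_eq {ε s : ℝ} (hε : 0 < ε) (hs : s ^ 2 * ε = 1) (A : Matrix ι κ 𝕜)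
    (p : Matrix κ π 𝕜 × Matrix ι π 𝕜) :
    NN ε s A p + s ^ 2 • (Aᴴ * (A * NN ε s A p)) = p.1 - s • (Aᴴ * p.2) := by
  have h1 := TT_right hε A
  set Y := p.1 - s • (Aᴴ * p.2) with hY
  have h2 : NN ε s A p = ε • (TT ε A * Y) := by
    unfold NN
    rw [hY, Matrix.mul_sub, Matrix.mul_smul, Matrix.mul_assoc]
  have h3 : Aᴴ * (A * (TT ε A * Y)) + ε • (TT ε A * Y) = Y := by
    have := congrArg (fun M => M * Y) h1
    simp only [Matrix.add_mul, Matrix.one_mul, Matrix.smul_mul, Matrix.mul_assoc] at this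
    rw [real_smul_eq]
    exact this
  rw [h2, Matrix.mul_smul, Matrix.mul_smul, smul_smul, hs, one_smul, add_comm]
  exact h3

omit [Coord 𝕜] [Fintype π] in
/-- The observation `s A X + H` is unchanged. -/
lemma refl_obs (ε s : ℝ) (A : Matrix ι κ 𝕜) (p : Matrix κ π 𝕜 × Matrix ι π 𝕜) :
    s • (A * (refl ε s A p).1) + (refl ε s A p).2 = s • (A * p.1) + p.2 := by
  change s • (A * (p.1 - (2 : ℝ) • NN ε s A p)) + (p.2 + (2 * s : ℝ) • (A * NN ε s A p)) = _
  rw [Matrix.mul_sub, Matrix.mul_smul]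
  module

omit [Coord 𝕜] [Fintype κ] [DecidableEq κ] in
lemma frobSq_sub' (M N : Matrix ι π 𝕜) : frobSq (M - N) = frobSq M + frobSq N -
    2 * RCLike.re (trace (Nᴴ * M)) := by
  rw [frobSq_eq_re_trace, frobSq_eq_re_trace M, frobSq_eq_re_trace N, Matrix.conjTranspose_sub,
    Matrix.sub_mul, Matrix.mul_sub, Matrix.mul_sub, Matrix.trace_sub, Matrix.trace_sub,
    Matrix.trace_sub, map_sub, map_sub, map_sub]
  have h : RCLike.re (trace (Mᴴ * N)) = RCLike.re (trace (Nᴴ * M)) := by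
    have : trace (Mᴴ * N) = star (trace (Nᴴ * M)) := by
      rw [← Matrix.trace_conjTranspose, Matrix.conjTranspose_mul, Matrix.conjTranspose_conjTranspose]
    rw [this, RCLike.star_def, RCLike.conj_re]
  rw [h]
  ring

omit [Coord 𝕜] in
/-- The reflection is an isometry. -/
lemma refl_isom {ε s : ℝ} (hε : 0 < ε) (hs : s ^ 2 * ε = 1) (A : Matrix ι κ 𝕜)
    (p : Matrix κ π 𝕜 × Matrix ι π 𝕜) :
    frobSq (refl ε s A p).1 + frobSq (refl ε s A p).2 = frobSq p.1 + frobSq p.2 := by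
  have h := NN_eq hε hs A p
  set N := NN ε s A p with hN
  change frobSq (p.1 - (2 : ℝ) • N) + frobSq (p.2 + (2 * s : ℝ) • (A * N)) = _
  have e1 : p.2 + (2 * s : ℝ) • (A * N) = p.2 - (-(2 * s) : ℝ) • (A * N) := by
    rw [neg_smul, sub_neg_eq_add]
  rw [e1, frobSq_sub', frobSq_sub', frobSq_smul, frobSq_smul]
  simp only [Matrix.conjTranspose_smul, star_trivial, Matrix.smul_mul, Matrix.trace_smul,
    RCLike.smul_re]
  -- pair the normal equation with N
  have h2 := congrArg (fun M => RCLike.re (trace (Nᴴ * M))) h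
  simp only [Matrix.mul_add, Matrix.mul_sub, Matrix.mul_smul, Matrix.trace_add, Matrix.trace_sub,
    Matrix.trace_smul, map_add, map_sub, RCLike.smul_re] at h2
  have e2 : Nᴴ * (Aᴴ * (A * N)) = (A * N)ᴴ * (A * N) := by
    rw [Matrix.conjTranspose_mul, Matrix.mul_assoc]
  have e3 : Nᴴ * (Aᴴ * p.2) = (A * N)ᴴ * p.2 := by
    rw [Matrix.conjTranspose_mul, Matrix.mul_assoc]
  rw [e2, e3, ← frobSq_eq_re_trace, ← frobSq_eq_re_trace] at h2
  linear_combination (4 : ℝ) * h2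

omit [Coord 𝕜] [Fintype π] in
/-- The reflection is an involution. -/
lemma refl_refl {ε s : ℝ} (hε : 0 < ε) (hs : s ^ 2 * ε = 1) (A : Matrix ι κ 𝕜)
    (p : Matrix κ π 𝕜 × Matrix ι π 𝕜) : refl ε s A (refl ε s A p) = p := by
  have h := NN_eq hε hs A p
  have h1 : NN ε s A (refl ε s A p) = - NN ε s A p := by
    have e0 : ∀ q : Matrix κ π 𝕜 × Matrix ι π 𝕜,
        NN ε s A q = ε • (TT ε A * (q.1 - s • (Aᴴ * q.2))) := by
      intro q
      unfold NN
      rw [Matrix.mul_sub, Matrix.mul_smul, Matrix.mul_assoc]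
    have e1 : (refl ε s A p).1 - s • (Aᴴ * (refl ε s A p).2) = -(p.1 - s • (Aᴴ * p.2)) := by
      change (p.1 - (2 : ℝ) • NN ε s A p) - s • (Aᴴ * (p.2 + (2 * s : ℝ) • (A * NN ε s A p))) = _
      rw [Matrix.mul_add, Matrix.mul_smul, ← h]
      have h' : p.1 = NN ε s A p + s ^ 2 • (Aᴴ * (A * NN ε s A p)) + s • (Aᴴ * p.2) := by
        rw [h]; abel
      generalize Aᴴ * (A * NN ε s A p) = Z at *
      generalize Aᴴ * p.2 = Y at *
      rw [h']
      module
    rw [e0, e1, e0, Matrix.mul_neg, smul_neg]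
  ext1
  · change (refl ε s A p).1 - (2 : ℝ) • NN ε s A (refl ε s A p) = p.1
    rw [h1]
    change (p.1 - (2 : ℝ) • NN ε s A p) - (2 : ℝ) • (-NN ε s A p) = p.1
    module
  · change (refl ε s A p).2 + (2 * s : ℝ) • (A * NN ε s A (refl ε s A p)) = p.2
    rw [h1]
    change (p.2 + (2 * s : ℝ) • (A * NN ε s A p)) + (2 * s : ℝ) • (A * (-NN ε s A p)) = p.2
    rw [Matrix.mul_neg]
    module

omit [Coord 𝕜] [Fintype π] in
lemma NN_meas (ε s : ℝ) (A : Matrix ι κ 𝕜) :
    Measurable (NN ε s A : Matrix κ π 𝕜 × Matrix ι π 𝕜 → Matrix κ π 𝕜) := by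
  unfold NN
  exact smul_meas _ (sub_meas (mul_meas measurable_const measurable_fst)
    (smul_meas _ (mul_meas measurable_const measurable_snd)))

omit [Coord 𝕜] [Fintype π] in
lemma refl_meas (ε s : ℝ) (A : Matrix ι κ 𝕜) :
    Measurable (refl ε s A : (Matrix κ π 𝕜 × Matrix ι π 𝕜) →ₗ[ℝ] _) := by
  have h : Measurable fun p : Matrix κ π 𝕜 × Matrix ι π 𝕜 =>
      (p.1 - (2 : ℝ) • NN ε s A p, p.2 + (2 * s : ℝ) • (A * NN ε s A p)) :=
    (sub_meas measurable_fst (smul_meas _ (NN_meas ε s A))).prodMk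
      (add_meas measurable_snd (smul_meas _ (mul_meas measurable_const (NN_meas ε s A))))
  exact h

/-- The reflection preserves the Gaussian measure. -/
lemma refl_map {ε s : ℝ} (hε : 0 < ε) (hs : s ^ 2 * ε = 1) (A : Matrix ι κ 𝕜) :
    ((gM κ π 𝕜).prod (gM ι π 𝕜)).map (refl ε s A) = (gM κ π 𝕜).prod (gM ι π 𝕜) := by
  have h1 : IsG (fun p : Matrix κ π 𝕜 × Matrix ι π 𝕜 => frobSq p.1 + frobSq p.2)
      ((gM κ π 𝕜).prod (gM ι π 𝕜)) := isG_gM.prod isG_gM
  exact (h1.map (refl ε s A) (refl_isom hε hs A) (fun p => ⟨refl ε s A p, refl_refl hε hs A p⟩)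
    (refl_meas ε s A)).unique h1

/-- Second moment of the deviation. -/
lemma lintegral_NN {ε s : ℝ} (hε : 0 < ε) (hs : s ^ 2 * ε = 1) (A : Matrix ι κ 𝕜) :
    ∫⁻ p, ENNReal.ofReal (s ^ 2 * frobSq (NN ε s A p)) ∂((gM κ π 𝕜).prod (gM ι π 𝕜)) =
      ENNReal.ofReal (bet 𝕜 * Fintype.card π * tau ε A) := by
  let u : (Matrix κ π 𝕜 × Matrix ι π 𝕜) →ₗ[ℝ] Matrix (κ ⊕ ι) π 𝕜 :=
    { toFun := fun p => fromRows p.1 p.2
      map_add' := fun p q => by ext i c; rcases i with i | i <;> rfl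
      map_smul' := fun a p => by ext i c; rcases i with i | i <;> rfl }
  have hum : Measurable u := fromRows_meas measurable_fst measurable_snd
  have hus : Function.Surjective u := by
    intro M
    refine ⟨(M.toRows₁, M.toRows₂), ?_⟩
    exact fromRows_toRows M
  have h1 : ((gM κ π 𝕜).prod (gM ι π 𝕜)).map u = gM (κ ⊕ ι) π 𝕜 :=
    gM_prod_map u (fun M => frobSq_fromRows M.1 M.2) hus hum
  set R : Matrix κ (κ ⊕ ι) 𝕜 := fromCols (ε • TT ε A) (-(ε * s) • (TT ε A * Aᴴ)) with hR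
  have h2 : ∀ p : Matrix κ π 𝕜 × Matrix ι π 𝕜, s ^ 2 * frobSq (NN ε s A p) =
      frobSq ((s • R) * u p) := by
    intro p
    rw [Matrix.smul_mul, frobSq_smul]
    congr 2
    change _ = R * fromRows p.1 p.2
    rw [hR, fromCols_mul_fromRows]
    unfold NN
    rw [Matrix.smul_mul, Matrix.smul_mul]
    module
  have hm : Measurable fun Z : Matrix (κ ⊕ ι) π 𝕜 => ENNReal.ofReal (frobSq ((s • R) * Z)) :=
    ENNReal.measurable_ofReal.comp (frobSq_meas.comp (mul_meas measurable_const measurable_id))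
  simp only [h2]
  rw [← lintegral_map hm hum, h1, lintegral_mul, frobSq_smul, hR, frobSq_fromCols, frobSq_smul,
    frobSq_smul]
  congr 1
  have h3 := tau_eq hε A
  have h4 : frobSq (TT ε A * Aᴴ) = frobSq (A * TT ε A) := by
    rw [← frobSq_conjTranspose, Matrix.conjTranspose_mul, Matrix.conjTranspose_conjTranspose,
      TT_herm]
  rw [h4, h3]
  have h5 : s ^ 2 * (ε ^ 2 * frobSq (TT ε A) + (-(ε * s)) ^ 2 * frobSq (A * TT ε A)) =
      (s ^ 2 * ε) * (ε * frobSq (TT ε A)) + (s ^ 2 * ε) ^ 2 * frobSq (A * TT ε A) := by ring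
  rw [h5, hs]
  ring

/-- **Posterior inequality**: no estimator of `s X` from `s A X + H` beats the posterior variance. -/
theorem posterior {ε s : ℝ} (hε : 0 < ε) (hs : s ^ 2 * ε = 1) (A : Matrix ι κ 𝕜)
    (u : Matrix ι π 𝕜 → Matrix κ π 𝕜) (hu : Measurable u) :
    ENNReal.ofReal (bet 𝕜 * Fintype.card π * tau ε A) ≤
      ∫⁻ p, ENNReal.ofReal (frobSq (s • p.1 - u (s • (A * p.1) + p.2)))
        ∂((gM κ π 𝕜).prod (gM ι π 𝕜)) := by
  set F : Matrix κ π 𝕜 × Matrix ι π 𝕜 → ENNReal := fun p =>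
    ENNReal.ofReal (frobSq (s • p.1 - u (s • (A * p.1) + p.2))) with hF
  have hFm : Measurable F := by
    refine ENNReal.measurable_ofReal.comp (frobSq_meas.comp (sub_meas (smul_meas _ measurable_fst)
      (hu.comp (add_meas (smul_meas _ (mul_meas measurable_const measurable_fst)) measurable_snd))))
  have h1 : ∫⁻ p, F (refl ε s A p) ∂((gM κ π 𝕜).prod (gM ι π 𝕜)) =
      ∫⁻ p, F p ∂((gM κ π 𝕜).prod (gM ι π 𝕜)) := by
    conv_rhs => rw [← refl_map hε hs A]
    rw [lintegral_map hFm (refl_meas ε s A)]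
  have h2 : ∀ p : Matrix κ π 𝕜 × Matrix ι π 𝕜,
      ENNReal.ofReal (2 * (s ^ 2 * frobSq (NN ε s A p))) ≤ F p + F (refl ε s A p) := by
    intro p
    simp only [hF]
    rw [refl_obs, ← ENNReal.ofReal_add (frobSq_nonneg _) (frobSq_nonneg _)]
    refine ENNReal.ofReal_le_ofReal ?_
    have h3 := frobSq_parallel (s • p.1) (s • (refl ε s A p).1) (u (s • (A * p.1) + p.2))
    have h4 : s • p.1 - s • (refl ε s A p).1 = (2 * s) • NN ε s A p := by
      change s • p.1 - s • (p.1 - (2 : ℝ) • NN ε s A p) = _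
      module
    rw [h4, frobSq_smul] at h3
    nlinarith
  have h3 : ∫⁻ p, ENNReal.ofReal (2 * (s ^ 2 * frobSq (NN ε s A p)))
      ∂((gM κ π 𝕜).prod (gM ι π 𝕜)) ≤ 2 * ∫⁻ p, F p ∂((gM κ π 𝕜).prod (gM ι π 𝕜)) := by
    refine (lintegral_mono h2).trans ?_
    rw [lintegral_add_left hFm, h1, two_mul]
  have h4 : ∫⁻ p, ENNReal.ofReal (2 * (s ^ 2 * frobSq (NN ε s A p)))
      ∂((gM κ π 𝕜).prod (gM ι π 𝕜)) =
      2 * ENNReal.ofReal (bet 𝕜 * Fintype.card π * tau ε A) := by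
    rw [← lintegral_NN hε hs A, ← lintegral_const_mul]
    · refine lintegral_congr fun p => ?_
      rw [ENNReal.ofReal_mul (by norm_num)]
      norm_num
    · exact ENNReal.measurable_ofReal.comp ((frobSq_meas.comp (NN_meas ε s A)).const_mul _)
  rw [h4] at h3
  exact (ENNReal.mul_le_mul_iff_right (by norm_num) (by norm_num)).mp h3

end

end Q170.RN
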