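import Pool.Agent.Q170.RN.Core

/-! Adapted coordinates and the bound for every fixed embedding. -/

namespace Q170.RN
open MeasureTheory ProbabilityTheory Matrix
open scoped ComplexOrder

/-- Adapted orthonormal coordinates. -/
lemma exists_unitary {𝕜 : Type} [RCLike 𝕜] {n ℓ : ℕ} (h : ℓ ≤ n)
    (Om : Matrix (Fin n) (Fin ℓ) 𝕜) :
    ∃ U : Matrix (Fin n) (Fin ℓ ⊕ Fin (n - ℓ)) 𝕜, Uᴴ * U = 1 ∧ U * Uᴴ = 1 ∧
      ∀ i j, (Uᴴ * Om) (Sum.inr i) j = 0 := by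
  let f : Fin n → EuclideanSpace 𝕜 (Fin n) := fun i =>
    if hi : (i : ℕ) < ℓ then WithLp.toLp 2 (fun a => Om a ⟨i, hi⟩) else 0
  let b := InnerProductSpace.gramSchmidtOrthonormalBasis (𝕜 := 𝕜) (by simp) f
  let U₀ : Matrix (Fin n) (Fin n) 𝕜 := Matrix.of fun a j => b j a
  have h1 : U₀ᴴ * U₀ = 1 := by
    ext i j
    rw [Matrix.mul_apply, Matrix.one_apply]
    have h2 := orthonormal_iff_ite.mp b.orthonormal i j
    rw [← h2, PiLp.inner_apply]
    refine Finset.sum_congr rfl fun a _ => ?_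
    simp only [Matrix.conjTranspose_apply, U₀, Matrix.of_apply, RCLike.inner_apply,
      RCLike.star_def]
    ring
  have h2 : U₀ * U₀ᴴ = 1 := mul_eq_one_comm.mp h1
  have hn : ℓ + (n - ℓ) = n := by omega
  let e : Fin ℓ ⊕ Fin (n - ℓ) ≃ Fin n := finSumFinEquiv.trans (finCongr hn)
  refine ⟨U₀.submatrix id e, ?_, ?_, ?_⟩
  · rw [Matrix.conjTranspose_submatrix]
    change U₀ᴴ.submatrix e (Equiv.refl _) * U₀.submatrix (Equiv.refl _) e = 1
    rw [Matrix.submatrix_mul_equiv U₀ᴴ U₀ e (Equiv.refl _) e]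
    rw [h1, Matrix.submatrix_one_equiv]
  · rw [Matrix.conjTranspose_submatrix, Matrix.submatrix_mul_equiv U₀ U₀ᴴ id e id, h2]
    exact Matrix.submatrix_one_equiv (Equiv.refl _)
  · intro i j
    have h3 : (((U₀.submatrix id e)ᴴ * Om) (Sum.inr i) j) =
        inner 𝕜 (b (e (Sum.inr i))) (f ⟨j, by omega⟩) := by
      rw [Matrix.mul_apply, PiLp.inner_apply]
      refine Finset.sum_congr rfl fun a _ => ?_
      simp only [Matrix.conjTranspose_apply, Matrix.submatrix_apply, U₀, Matrix.of_apply,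
        RCLike.inner_apply, RCLike.star_def, id, f]
      rw [dif_pos j.2]
      ring
    rw [h3]
    refine InnerProductSpace.gramSchmidtOrthonormalBasis_inv_triangular _ f ?_
    rw [Fin.lt_def]
    simp [e]
    omega

section
variable {𝕜 : Type} [RCLike 𝕜] [Coord 𝕜] {n ℓ : ℕ} {κ : Type} [Fintype κ] [DecidableEq κ]

/-- The prior: a Gaussian matrix `A`, Gaussian noise `H`, Gaussian `X`. -/
noncomputable def prior (n : ℕ) (κ 𝕜 : Type) [RCLike 𝕜] [Coord 𝕜] [Fintype κ] :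
    Measure ((Matrix (Fin n) κ 𝕜 × Matrix (Fin n) Unit 𝕜) × Matrix κ Unit 𝕜) :=
  ((gM (Fin n) κ 𝕜).prod (gM (Fin n) Unit 𝕜)).prod (gM κ Unit 𝕜)

instance : IsProbabilityMeasure (prior n κ 𝕜) := by
  unfold prior; infer_instance

/-- The right-hand side `B = s A X + H`. -/
noncomputable def bb (s : ℝ) (v : (Matrix (Fin n) κ 𝕜 × Matrix (Fin n) Unit 𝕜) × Matrix κ Unit 𝕜) :
    Matrix (Fin n) Unit 𝕜 := s • (v.1.1 * v.2) + v.1.2

/-- Change of coordinates. -/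
noncomputable def Psi (U : Matrix (Fin n) (Fin ℓ ⊕ Fin (n - ℓ)) 𝕜) :
    (Matrix (Fin ℓ) κ 𝕜 × ((Matrix κ Unit 𝕜 × Matrix (Fin ℓ) Unit 𝕜) ×
      (Matrix (Fin (n - ℓ)) κ 𝕜 × Matrix (Fin (n - ℓ)) Unit 𝕜))) →ₗ[ℝ]
    ((Matrix (Fin n) κ 𝕜 × Matrix (Fin n) Unit 𝕜) × Matrix κ Unit 𝕜) where
  toFun q := ((U * fromRows q.1 q.2.2.1, U * fromRows q.2.1.2 q.2.2.2), q.2.1.1)
  map_add' p q := by
    have e : ∀ (k : Type) (A B : Matrix (Fin ℓ) k 𝕜) (C D : Matrix (Fin (n - ℓ)) k 𝕜),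
        fromRows (A + B) (C + D) = fromRows A C + fromRows B D := by
      intro k A B C D
      ext i c; rcases i with i | i <;> rfl
    simp only [Prod.fst_add, Prod.snd_add, e, Matrix.mul_add]
    rfl
  map_smul' a q := by
    have e : ∀ (k : Type) (A : Matrix (Fin ℓ) k 𝕜) (C : Matrix (Fin (n - ℓ)) k 𝕜),
        fromRows (a • A) (a • C) = a • fromRows A C := by
      intro k A C
      ext i c; rcases i with i | i <;> rfl
    simp only [Prod.smul_fst, Prod.smul_snd, e, Matrix.mul_smul, RingHom.id_apply]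
    rfl

omit [Coord 𝕜] in
lemma frobSq_unitary {m k l : Type} [Fintype m] [Fintype k] [Fintype l] [DecidableEq k]
    {U : Matrix m k 𝕜} (hU : Uᴴ * U = 1) (M : Matrix k l 𝕜) : frobSq (U * M) = frobSq M := by
  rw [frobSq_eq_re_trace, frobSq_eq_re_trace, Matrix.conjTranspose_mul, Matrix.mul_assoc,
    ← Matrix.mul_assoc Uᴴ, hU, Matrix.one_mul]

omit [Coord 𝕜] [Fintype κ] [DecidableEq κ] in
lemma Psi_meas (U : Matrix (Fin n) (Fin ℓ ⊕ Fin (n - ℓ)) 𝕜) : Measurable (Psi (κ := κ) U) := by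
  have h : Measurable fun q : Matrix (Fin ℓ) κ 𝕜 × ((Matrix κ Unit 𝕜 × Matrix (Fin ℓ) Unit 𝕜) ×
    (Matrix (Fin (n - ℓ)) κ 𝕜 × Matrix (Fin (n - ℓ)) Unit 𝕜)) =>
    ((U * fromRows q.1 q.2.2.1, U * fromRows q.2.1.2 q.2.2.2), q.2.1.1) := by
    refine ((mul_meas measurable_const (fromRows_meas measurable_fst
      (measurable_fst.comp (measurable_snd.comp measurable_snd)))).prodMk
      (mul_meas measurable_const (fromRows_meas
      (measurable_snd.comp (measurable_fst.comp measurable_snd))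
      (measurable_snd.comp (measurable_snd.comp measurable_snd))))).prodMk
      (measurable_fst.comp (measurable_fst.comp measurable_snd))
  exact h

omit [DecidableEq κ] in
lemma Psi_map {U : Matrix (Fin n) (Fin ℓ ⊕ Fin (n - ℓ)) 𝕜} (h1 : Uᴴ * U = 1) (h2 : U * Uᴴ = 1) :
    ((gM (Fin ℓ) κ 𝕜).prod (((gM κ Unit 𝕜).prod (gM (Fin ℓ) Unit 𝕜)).prod
      ((gM (Fin (n - ℓ)) κ 𝕜).prod (gM (Fin (n - ℓ)) Unit 𝕜)))).map (Psi U) = prior n κ 𝕜 := by
  have i1 := (isG_gM (𝕜 := 𝕜) (m := Fin ℓ) (k := κ)).prod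
    (((isG_gM (𝕜 := 𝕜) (m := κ) (k := Unit)).prod (isG_gM (𝕜 := 𝕜) (m := Fin ℓ) (k := Unit))).prod
    ((isG_gM (𝕜 := 𝕜) (m := Fin (n - ℓ)) (k := κ)).prod
      (isG_gM (𝕜 := 𝕜) (m := Fin (n - ℓ)) (k := Unit))))
  have i2 := ((isG_gM (𝕜 := 𝕜) (m := Fin n) (k := κ)).prod
    (isG_gM (𝕜 := 𝕜) (m := Fin n) (k := Unit))).prod (isG_gM (𝕜 := 𝕜) (m := κ) (k := Unit))
  refine (i1.map (Psi U) ?_ ?_ ?_).unique i2
  · intro q
    change (frobSq (U * fromRows q.1 q.2.2.1) + frobSq (U * fromRows q.2.1.2 q.2.2.2)) +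
      frobSq q.2.1.1 = _
    rw [frobSq_unitary h1, frobSq_unitary h1, frobSq_fromRows, frobSq_fromRows]
    ring
  · rintro ⟨⟨A, H⟩, X⟩
    refine ⟨((Uᴴ * A).toRows₁, ((X, (Uᴴ * H).toRows₁), ((Uᴴ * A).toRows₂, (Uᴴ * H).toRows₂))), ?_⟩
    change ((U * fromRows (Uᴴ * A).toRows₁ (Uᴴ * A).toRows₂,
      U * fromRows (Uᴴ * H).toRows₁ (Uᴴ * H).toRows₂), X) = _
    rw [fromRows_toRows, fromRows_toRows, ← Matrix.mul_assoc, ← Matrix.mul_assoc, h2,
      Matrix.one_mul, Matrix.one_mul]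
  · exact Psi_meas U

omit [Coord 𝕜] [DecidableEq κ] in
lemma bb_meas (s : ℝ) : Measurable (bb (𝕜 := 𝕜) (n := n) (κ := κ) s) := by
  unfold bb
  exact add_meas (smul_meas s (mul_meas (measurable_fst.comp measurable_fst) measurable_snd))
    (measurable_snd.comp measurable_fst)

/-- **The bound for a fixed embedding.** -/
theorem fixedOm (hℓ : ℓ ≤ n) {ε s : ℝ} (hε : 0 < ε) (hs : s ^ 2 * ε = 1)
    (hN : 0 ≤ bet 𝕜 * ((ℓ : ℝ) - Fintype.card κ) - Coord.α 𝕜) (Om : Matrix (Fin n) (Fin ℓ) 𝕜)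
    (φ : Matrix (Fin ℓ) κ 𝕜 × Matrix (Fin ℓ) Unit 𝕜 → Matrix κ Unit 𝕜) (hφ : Measurable φ) :
    ENNReal.ofReal (bet 𝕜 * (((ℓ : ℝ) - Fintype.card κ) +
      ((n : ℝ) - ℓ) * (1 + bet 𝕜 * fe (Fin ℓ) κ 𝕜 ε))) ≤
      ∫⁻ v, ENNReal.ofReal (frobSq (bb s v - v.1.1 * φ (Omᴴ * v.1.1, Omᴴ * bb s v)))
        ∂(prior n κ 𝕜) := by
  obtain ⟨U, h1, h2, h3⟩ := exists_unitary hℓ Om
  set R := (Uᴴ * Om).toRows₁ with hR
  have h4 : Omᴴ * U = fromCols Rᴴ 0 := by
    have : Uᴴ * Om = fromRows R 0 := by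
      ext i j
      rcases i with i | i
      · rfl
      · exact h3 i j
    calc Omᴴ * U = (Uᴴ * Om)ᴴ := by rw [Matrix.conjTranspose_mul, Matrix.conjTranspose_conjTranspose]
      _ = _ := by
        rw [this]
        ext i j
        rcases j with j | j
        · rfl
        · simp
  have hm : Measurable fun v : (Matrix (Fin n) κ 𝕜 × Matrix (Fin n) Unit 𝕜) × Matrix κ Unit 𝕜 =>
      ENNReal.ofReal (frobSq (bb s v - v.1.1 * φ (Omᴴ * v.1.1, Omᴴ * bb s v))) := by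
    refine ENNReal.measurable_ofReal.comp (frobSq_meas.comp (sub_meas (bb_meas s)
      (mul_meas (measurable_fst.comp measurable_fst) (hφ.comp ?_))))
    exact (mul_meas measurable_const (measurable_fst.comp measurable_fst)).prodMk
      (mul_meas measurable_const (bb_meas s))
  rw [← Psi_map h1 h2, lintegral_map hm (Psi_meas U)]
  have hφ' : Measurable fun q : Matrix (Fin ℓ) κ 𝕜 × Matrix (Fin ℓ) Unit 𝕜 =>
      φ (Rᴴ * q.1, Rᴴ * q.2) :=
    hφ.comp ((mul_meas measurable_const measurable_fst).prodMk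
      (mul_meas measurable_const measurable_snd))
  have hcore := core (𝕜 := 𝕜) (ι₁ := Fin ℓ) (ι₂ := Fin (n - ℓ)) (κ := κ) (π := Unit) hε hs
    (by simpa using hN) _ hφ'
  simp only [Fintype.card_unit, Fintype.card_fin, Nat.cast_one, mul_one, Nat.cast_sub hℓ] at hcore
  refine hcore.trans (le_of_eq ?_)
  refine lintegral_congr fun q => ?_
  congr 1
  have e1 : Omᴴ * (U * fromRows q.1 q.2.2.1) = Rᴴ * q.1 := by
    rw [← Matrix.mul_assoc, h4, fromCols_mul_fromRows, Matrix.zero_mul, add_zero]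
  have e2 : bb s (Psi U q) = U * fromRows (s • (q.1 * q.2.1.1) + q.2.1.2)
      (s • (q.2.2.1 * q.2.1.1) + q.2.2.2) := by
    change s • (U * fromRows q.1 q.2.2.1 * q.2.1.1) + U * fromRows q.2.1.2 q.2.2.2 = _
    rw [Matrix.mul_assoc, ← Matrix.mul_smul, ← Matrix.mul_add, fromRows_mul]
    congr 1
    ext i c; rcases i with i | i <;> rfl
  have e3 : Omᴴ * bb s (Psi U q) = Rᴴ * (s • (q.1 * q.2.1.1) + q.2.1.2) := by
    rw [e2, ← Matrix.mul_assoc, h4, fromCols_mul_fromRows, Matrix.zero_mul, add_zero]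
  change _ = frobSq (bb s (Psi U q) - U * fromRows q.1 q.2.2.1 *
    φ (Omᴴ * (U * fromRows q.1 q.2.2.1), Omᴴ * bb s (Psi U q)))
  rw [e3, e1, e2, Matrix.mul_assoc, ← Matrix.mul_sub, frobSq_unitary h1, fromRows_mul]
  have e4 : ∀ (A B : Matrix (Fin ℓ) Unit 𝕜) (C D : Matrix (Fin (n - ℓ)) Unit 𝕜),
      fromRows A C - fromRows B D = fromRows (A - B) (C - D) := by
    intro A B C D
    ext i c; rcases i with i | i <;> rfl
  rw [e4, frobSq_fromRows]
  unfold lossF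
  congr 2
  · rw [Matrix.mul_sub, Matrix.mul_smul]
    abel
  · rw [Matrix.mul_sub, Matrix.mul_smul]
    abel

end

end Q170.RN
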