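import Pool.Agent.Q170.RN.Fatou

/-! The worst-case error ratio for the sketch `(Ω, AΩ, A^*AΩ)`. -/

namespace Q170.RN
open MeasureTheory ProbabilityTheory Matrix Filter Topology
open scoped ComplexOrder

/-- The squared error of the best approximation of rank at most `q`. -/
noncomputable def bestErr {𝕜 : Type} [RCLike 𝕜] {d n : ℕ} (q : ℕ)
    (A : Matrix (Fin d) (Fin n) 𝕜) : ℝ :=
  ⨅ M : {M : Matrix (Fin d) (Fin n) 𝕜 // M.rank ≤ q}, frobSq (A - M.1)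

/-- The worst-case ratio `ρ_q` over matrices of rank `r`. -/
noncomputable def worstSVD {𝕜 : Type} [RCLike 𝕜] {n ℓ d : ℕ} (q r : ℕ)
    (μ : Measure (Matrix (Fin n) (Fin ℓ) 𝕜))
    (ALG : Matrix (Fin n) (Fin ℓ) 𝕜 × Matrix (Fin d) (Fin ℓ) 𝕜 × Matrix (Fin n) (Fin ℓ) 𝕜 →
      Matrix (Fin d) (Fin n) 𝕜) : ENNReal :=
  ⨆ (A : Matrix (Fin d) (Fin n) 𝕜) (_ : A.rank = r ∧ 0 < bestErr q A),
    (∫⁻ Om, ENNReal.ofReal (frobSq (A - ALG (Om, A * Om, Aᴴ * A * Om))) ∂μ) /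
      ENNReal.ofReal (bestErr q A)

section
variable {𝕜 : Type} [RCLike 𝕜]

lemma exists_isom {κ : Type} [Fintype κ] [DecidableEq κ] {d : ℕ} (h : Fintype.card κ ≤ d) :
    ∃ U : Matrix (Fin d) κ 𝕜, Uᴴ * U = 1 := by
  refine ⟨(EE 𝕜 h)ᴴ.submatrix (Equiv.refl _) (Fintype.equivFin κ), ?_⟩
  rw [Matrix.conjTranspose_submatrix, Matrix.conjTranspose_conjTranspose,
    Matrix.submatrix_mul_equiv, EE_mul, Matrix.submatrix_one_equiv]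

lemma frobSq_mul_le {l m k : Type} [Fintype l] [Fintype m] [Fintype k] (M : Matrix l m 𝕜)
    (X : Matrix m k 𝕜) : frobSq (M * X) ≤ frobSq M * frobSq X := by
  have h1 : ∀ i c, ‖(M * X) i c‖ ^ 2 ≤ (∑ j, ‖M i j‖ ^ 2) * (∑ j, ‖X j c‖ ^ 2) := by
    intro i c
    have h2 : ‖(M * X) i c‖ ≤ ∑ j, ‖M i j‖ * ‖X j c‖ := by
      rw [Matrix.mul_apply]
      refine (norm_sum_le _ _).trans (Finset.sum_le_sum fun j _ => ?_)
      rw [norm_mul]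
    calc ‖(M * X) i c‖ ^ 2 ≤ (∑ j, ‖M i j‖ * ‖X j c‖) ^ 2 :=
          pow_le_pow_left₀ (norm_nonneg _) h2 2
      _ ≤ _ := Finset.sum_mul_sq_le_sq_mul_sq _ _ _
  have h3 : frobSq X = ∑ c, ∑ j, ‖X j c‖ ^ 2 := by
    unfold frobSq
    rw [Finset.sum_comm]
  rw [h3]
  unfold frobSq
  rw [Finset.sum_mul]
  refine Finset.sum_le_sum fun i _ => ?_
  rw [Finset.mul_sum]
  exact Finset.sum_le_sum fun c _ => h1 i c

lemma frobSq_coisom {l m k : Type} [Fintype l] [Fintype m] [Fintype k] [DecidableEq m]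
    {V : Matrix m k 𝕜} (hV : V * Vᴴ = 1) (M : Matrix l m 𝕜) : frobSq (M * V) = frobSq M := by
  rw [← frobSq_conjTranspose, Matrix.conjTranspose_mul,
    frobSq_unitary (by rw [Matrix.conjTranspose_conjTranspose]; exact hV), frobSq_conjTranspose]

lemma exists_ker {m κ : Type} [Fintype m] [Fintype κ] [DecidableEq κ] (N : Matrix m κ 𝕜)
    (h : N.rank < Fintype.card κ) : ∃ v : κ → 𝕜, v ≠ 0 ∧ N *ᵥ v = 0 := by
  by_contra hcon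
  push Not at hcon
  have hinj : Function.Injective N.mulVecLin := by
    intro v w hvw
    by_contra hne
    exact hcon (v - w) (sub_ne_zero.mpr hne) (by
      rw [Matrix.mulVec_sub, sub_eq_zero]; exact hvw)
  have hr : N.rank = Fintype.card κ := by
    rw [Matrix.rank, LinearMap.finrank_range_of_inj hinj]
    simp
  omega

variable {d n q w : ℕ}

/-- The matrices of the prior. -/
noncomputable def AA (U₀ : Matrix (Fin d) (Fin q ⊕ Fin w) 𝕜)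
    (V₀ : Matrix (Fin n) (Fin q ⊕ Fin w) 𝕜) (t : ℝ)
    (p : unitaryGroup (Fin q ⊕ Fin w) 𝕜 × unitaryGroup (Fin q ⊕ Fin w) 𝕜) :
    Matrix (Fin d) (Fin n) 𝕜 :=
  U₀ * (p.2 : Matrix (Fin q ⊕ Fin w) (Fin q ⊕ Fin w) 𝕜) *
    (SS 𝕜 q w t * (p.1 : Matrix (Fin q ⊕ Fin w) (Fin q ⊕ Fin w) 𝕜) * V₀ᴴ)

lemma SS_inv {t : ℝ} (ht : t ≠ 0) : SS 𝕜 q w t⁻¹ * SS 𝕜 q w t = 1 := by
  have h1 : SS 𝕜 q w t = fromRows (fromCols (t • (1 : Matrix (Fin q) (Fin q) 𝕜))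
      (0 : Matrix (Fin q) (Fin w) 𝕜)) (fromCols (0 : Matrix (Fin w) (Fin q) 𝕜)
      (1 : Matrix (Fin w) (Fin w) 𝕜)) := by
    unfold SS
    rw [fromRows_fromCols_eq_fromBlocks]
  conv_lhs => rw [h1]
  rw [SS_mul_rows]
  ext i j
  rcases i with i | i <;> rcases j with j | j
  · simp [Matrix.one_apply, ht]
  · simp
  · simp
  · simp [Matrix.one_apply]

section
variable {U₀ : Matrix (Fin d) (Fin q ⊕ Fin w) 𝕜} {V₀ : Matrix (Fin n) (Fin q ⊕ Fin w) 𝕜}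
  (hU : U₀ᴴ * U₀ = 1) (hV : V₀ᴴ * V₀ = 1) (p : unitaryGroup (Fin q ⊕ Fin w) 𝕜 ×
    unitaryGroup (Fin q ⊕ Fin w) 𝕜)

include hU in
lemma UQ_isom : (U₀ * (p.2 : Matrix (Fin q ⊕ Fin w) (Fin q ⊕ Fin w) 𝕜))ᴴ *
    (U₀ * (p.2 : Matrix (Fin q ⊕ Fin w) (Fin q ⊕ Fin w) 𝕜)) = 1 := by
  rw [Matrix.conjTranspose_mul, Matrix.mul_assoc, ← Matrix.mul_assoc U₀ᴴ, hU, Matrix.one_mul,
    unit_left]

include hV in
lemma WV_coisom : ((p.1 : Matrix (Fin q ⊕ Fin w) (Fin q ⊕ Fin w) 𝕜) * V₀ᴴ) *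
    ((p.1 : Matrix (Fin q ⊕ Fin w) (Fin q ⊕ Fin w) 𝕜) * V₀ᴴ)ᴴ = 1 := by
  rw [Matrix.conjTranspose_mul, Matrix.conjTranspose_conjTranspose, Matrix.mul_assoc,
    ← Matrix.mul_assoc V₀ᴴ, hV, Matrix.one_mul, unit_right]

include hU hV in
lemma AA_rank {t : ℝ} (ht : t ≠ 0) : (AA U₀ V₀ t p).rank = q + w := by
  have hc : Fintype.card (Fin q ⊕ Fin w) = q + w := by simp
  apply le_antisymm
  · unfold AA
    refine (Matrix.rank_mul_le_left _ _).trans ?_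
    refine (Matrix.rank_le_card_width _).trans ?_
    exact hc.le
  · have h1 : SS 𝕜 q w t⁻¹ * ((U₀ * (p.2 : Matrix (Fin q ⊕ Fin w) (Fin q ⊕ Fin w) 𝕜))ᴴ *
        AA U₀ V₀ t p * ((p.1 : Matrix (Fin q ⊕ Fin w) (Fin q ⊕ Fin w) 𝕜) * V₀ᴴ)ᴴ) = 1 := by
      have h2 := UQ_isom hU p
      have h3 := WV_coisom hV p
      unfold AA
      calc _ = SS 𝕜 q w t⁻¹ * (((U₀ * (p.2 : Matrix (Fin q ⊕ Fin w) (Fin q ⊕ Fin w) 𝕜))ᴴ *
          (U₀ * (p.2 : Matrix (Fin q ⊕ Fin w) (Fin q ⊕ Fin w) 𝕜))) * (SS 𝕜 q w t *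
          (((p.1 : Matrix (Fin q ⊕ Fin w) (Fin q ⊕ Fin w) 𝕜) * V₀ᴴ) *
          ((p.1 : Matrix (Fin q ⊕ Fin w) (Fin q ⊕ Fin w) 𝕜) * V₀ᴴ)ᴴ))) := by
            simp only [Matrix.mul_assoc]
        _ = 1 := by rw [h2, h3, Matrix.mul_one, Matrix.one_mul, SS_inv ht]
    have h4 : (1 : Matrix (Fin q ⊕ Fin w) (Fin q ⊕ Fin w) 𝕜).rank = q + w := by
      rw [Matrix.rank_one, hc]
    rw [← h4, ← h1]
    refine (Matrix.rank_mul_le_right _ _).trans ((Matrix.rank_mul_le_left _ _).trans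
      (Matrix.rank_mul_le_right _ _))

include hU hV in
lemma AA_best_le (t : ℝ) : bestErr q (AA U₀ V₀ t p) ≤ w := by
  set S₀ : Matrix (Fin q ⊕ Fin w) (Fin q ⊕ Fin w) 𝕜 :=
    fromRows (t • (1 : Matrix (Fin q) (Fin q) 𝕜)) (0 : Matrix (Fin w) (Fin q) 𝕜) *
      fromCols (1 : Matrix (Fin q) (Fin q) 𝕜) (0 : Matrix (Fin q) (Fin w) 𝕜) with hS₀
  set UQ := U₀ * (p.2 : Matrix (Fin q ⊕ Fin w) (Fin q ⊕ Fin w) 𝕜) with hUQ
  set WV := (p.1 : Matrix (Fin q ⊕ Fin w) (Fin q ⊕ Fin w) 𝕜) * V₀ᴴ with hWV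
  have hr : (UQ * (S₀ * WV)).rank ≤ q := by
    refine (Matrix.rank_mul_le_right _ _).trans ((Matrix.rank_mul_le_left _ _).trans ?_)
    refine (Matrix.rank_mul_le_left _ _).trans ((Matrix.rank_le_card_width _).trans ?_)
    simp
  have hbd : BddBelow (Set.range fun M : {M : Matrix (Fin d) (Fin n) 𝕜 // M.rank ≤ q} =>
      frobSq (AA U₀ V₀ t p - M.1)) := ⟨0, by rintro _ ⟨M, rfl⟩; exact frobSq_nonneg _⟩
  refine (ciInf_le hbd ⟨UQ * (S₀ * WV), hr⟩).trans ?_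
  have h1 : AA U₀ V₀ t p - UQ * (S₀ * WV) = UQ * ((SS 𝕜 q w t - S₀) * WV) := by
    unfold AA
    rw [Matrix.sub_mul, Matrix.mul_sub, hUQ, hWV]
    simp only [Matrix.mul_assoc]
  change frobSq (AA U₀ V₀ t p - UQ * (S₀ * WV)) ≤ w
  rw [h1, frobSq_unitary (UQ_isom hU p), frobSq_coisom (WV_coisom hV p)]
  have h2 : SS 𝕜 q w t - S₀ = fromRows (0 : Matrix (Fin q) (Fin q ⊕ Fin w) 𝕜)
      (fromCols (0 : Matrix (Fin w) (Fin q) 𝕜) (1 : Matrix (Fin w) (Fin w) 𝕜)) := by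
    unfold SS
    rw [hS₀, fromRows_mul_fromCols]
    ext i j
    rcases i with i | i <;> rcases j with j | j
    · simp
    · simp
    · simp
    · simp
  rw [h2, frobSq_fromRows, frobSq_fromCols]
  have h3 : frobSq (0 : Matrix (Fin q) (Fin q ⊕ Fin w) 𝕜) = 0 := by simp [frobSq]
  have h4 : frobSq (0 : Matrix (Fin w) (Fin q) 𝕜) = 0 := by simp [frobSq]
  have h5 : frobSq (1 : Matrix (Fin w) (Fin w) 𝕜) = w := by
    rw [frobSq_eq_re_trace]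
    simp
  rw [h3, h4, h5]
  linarith

include hU hV in
lemma AA_best_pos (hw : 0 < w) {t : ℝ} (ht : 1 ≤ t) : 0 < bestErr q (AA U₀ V₀ t p) := by
  have : Nonempty {M : Matrix (Fin d) (Fin n) 𝕜 // M.rank ≤ q} := ⟨⟨0, by
    rw [Matrix.rank_zero]; exact Nat.zero_le _⟩⟩
  refine lt_of_lt_of_le one_pos (le_ciInf fun M => ?_)
  obtain ⟨M, hM⟩ := M
  change 1 ≤ frobSq (AA U₀ V₀ t p - M)
  set UQ := U₀ * (p.2 : Matrix (Fin q ⊕ Fin w) (Fin q ⊕ Fin w) 𝕜) with hUQ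
  set WV := (p.1 : Matrix (Fin q ⊕ Fin w) (Fin q ⊕ Fin w) 𝕜) * V₀ᴴ with hWV
  have hr : (M * WVᴴ).rank < Fintype.card (Fin q ⊕ Fin w) := by
    refine lt_of_le_of_lt ((Matrix.rank_mul_le_left _ _).trans hM) ?_
    simp [hw]
  obtain ⟨v, hv, hv0⟩ := exists_ker _ hr
  set X : Matrix (Fin q ⊕ Fin w) Unit 𝕜 := Matrix.of fun i _ => v i with hX
  have hX0 : M * WVᴴ * X = 0 := by
    ext i c
    exact congrFun hv0 i
  have hXpos : 0 < frobSq X := by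
    obtain ⟨i, hi⟩ := Function.ne_iff.mp hv
    have h1 : ‖v i‖ ^ 2 ≤ frobSq X := by
      unfold frobSq
      refine le_trans ?_ (Finset.single_le_sum (f := fun i => ∑ c, ‖X i c‖ ^ 2)
        (fun i _ => Finset.sum_nonneg fun c _ => sq_nonneg _) (Finset.mem_univ i))
      simp [hX]
    have h2 : 0 < ‖v i‖ ^ 2 := by
      have := norm_pos_iff.mpr (show v i ≠ 0 from hi)
      positivity
    linarith
  have h1 : (AA U₀ V₀ t p - M) * (WVᴴ * X) = UQ * (SS 𝕜 q w t * X) := by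
    have h2 : AA U₀ V₀ t p * (WVᴴ * X) = UQ * (SS 𝕜 q w t * X) := by
      unfold AA
      calc _ = UQ * (SS 𝕜 q w t * ((WV * WVᴴ) * X)) := by
            rw [hUQ, hWV]; simp only [Matrix.mul_assoc]
        _ = _ := by rw [WV_coisom hV p, Matrix.one_mul]
    rw [Matrix.sub_mul, h2, ← Matrix.mul_assoc M, hX0, sub_zero]
  have h2 := frobSq_mul_le (AA U₀ V₀ t p - M) (WVᴴ * X)
  have h2' : frobSq (WVᴴ * X) = frobSq X := frobSq_unitary (by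
    rw [Matrix.conjTranspose_conjTranspose]; exact WV_coisom hV p) X
  rw [h1, frobSq_unitary (UQ_isom hU p), h2'] at h2
  have h3 : frobSq X ≤ frobSq (SS 𝕜 q w t * X) := by
    have e : X = fromRows X.toRows₁ X.toRows₂ := (fromRows_toRows X).symm
    rw [e, SS_mul_rows, frobSq_fromRows, frobSq_fromRows, frobSq_smul]
    have h4 := frobSq_nonneg X.toRows₁
    have h5 : 1 ≤ t ^ 2 := by nlinarith
    nlinarith
  by_contra hcon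
  push Not at hcon
  nlinarith

end

end

section
variable {𝕜 : Type} [RCLike 𝕜] {d n q w ℓ : ℕ}

lemma AA_meas (U₀ : Matrix (Fin d) (Fin q ⊕ Fin w) 𝕜) (V₀ : Matrix (Fin n) (Fin q ⊕ Fin w) 𝕜)
    (t : ℝ) : Measurable (AA U₀ V₀ t) :=
  mul_meas (mul_meas measurable_const (coe_meas.comp measurable_snd))
    (mul_meas (mul_meas measurable_const (coe_meas.comp measurable_fst)) measurable_const)

/-- **The Bayes bound for a fixed embedding.** -/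
theorem svd_fixed {U₀ : Matrix (Fin d) (Fin q ⊕ Fin w) 𝕜} {V₀ : Matrix (Fin n) (Fin q ⊕ Fin w) 𝕜}
    (hU₀ : U₀ᴴ * U₀ = 1) (hV₀ : V₀ᴴ * V₀ = 1) {t : ℝ} (ht : t ≠ 0)
    (hℓ : ℓ ≤ Fintype.card (Fin q ⊕ Fin w)) (Om : Matrix (Fin n) (Fin ℓ) 𝕜)
    (ALG : Matrix (Fin n) (Fin ℓ) 𝕜 × Matrix (Fin d) (Fin ℓ) 𝕜 × Matrix (Fin n) (Fin ℓ) 𝕜 →
      Matrix (Fin d) (Fin n) 𝕜) (hALG : Measurable ALG) :
    cc (SS 𝕜 q w t) hℓ ≤ ∫⁻ p, ENNReal.ofReal (frobSq (AA U₀ V₀ t p -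
      ALG (Om, AA U₀ V₀ t p * Om, (AA U₀ V₀ t p)ᴴ * AA U₀ V₀ t p * Om)))
      ∂((hU (Fin q ⊕ Fin w) 𝕜).prod (hU (Fin q ⊕ Fin w) 𝕜)) := by
  obtain ⟨W₀, R, hR⟩ := exists_factor hℓ (V₀ᴴ * Om)
  have hA := AA_meas U₀ V₀ t
  have hm : Measurable fun p => ENNReal.ofReal (frobSq (AA U₀ V₀ t p -
      ALG (Om, AA U₀ V₀ t p * Om, (AA U₀ V₀ t p)ᴴ * AA U₀ V₀ t p * Om))) := by
    refine ENNReal.measurable_ofReal.comp (frobSq_meas.comp (sub_meas hA (hALG.comp ?_)))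
    exact measurable_const.prodMk ((mul_meas hA measurable_const).prodMk
      (mul_meas (mul_meas (conjTranspose_meas hA) hA) measurable_const))
  rw [lintegral_prod _ hm.aemeasurable, ← cc_eq (SS 𝕜 q w t) hℓ W₀]
  refine lintegral_mono fun W => ?_
  have hinj : Inj (SS 𝕜 q w t * ((W : Matrix (Fin q ⊕ Fin w) (Fin q ⊕ Fin w) 𝕜) *
      (W₀ : Matrix (Fin q ⊕ Fin w) (Fin q ⊕ Fin w) 𝕜) * JJ 𝕜 hℓ)) := by
    refine inj_left_mul (SS_inv ht) ?_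
    rw [Matrix.mul_assoc]
    exact inj_left_mul (unit_left W) (inj_left_mul (unit_left W₀) (inj_JJ hℓ))
  set Y := SS 𝕜 q w t * ((W : Matrix (Fin q ⊕ Fin w) (Fin q ⊕ Fin w) 𝕜) *
      (W₀ : Matrix (Fin q ⊕ Fin w) (Fin q ⊕ Fin w) 𝕜) * JJ 𝕜 hℓ) with hY
  set M := SS 𝕜 q w t * (W : Matrix (Fin q ⊕ Fin w) (Fin q ⊕ Fin w) 𝕜) * V₀ᴴ with hM
  have hMO : M * Om = Y * R := by
    rw [hM, Matrix.mul_assoc, hR, hY]
    simp only [Matrix.mul_assoc]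
  have hP : PP Y * (M * Om) = M * Om := by
    rw [hMO, ← Matrix.mul_assoc, PP_mul hinj]
  have h1 := refl_bound U₀ hU₀ M Om (PP Y) (PP_herm Y) (PP_PP hinj) hP ALG hALG
  have h2 : frobSq ((1 - PP Y) * M) = FF (SS 𝕜 q w t)
      ((W : Matrix (Fin q ⊕ Fin w) (Fin q ⊕ Fin w) 𝕜) *
      (W₀ : Matrix (Fin q ⊕ Fin w) (Fin q ⊕ Fin w) 𝕜) * JJ 𝕜 hℓ) := by
    rw [hM, Matrix.mul_assoc (SS 𝕜 q w t), ← Matrix.mul_assoc (1 - PP Y),
      frobSq_coisom (WV_coisom hV₀ (W, W))]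
    rfl
  rw [h2] at h1
  exact h1

/-- **The Bayes bound for a random embedding.** -/
theorem svd_random {U₀ : Matrix (Fin d) (Fin q ⊕ Fin w) 𝕜} {V₀ : Matrix (Fin n) (Fin q ⊕ Fin w) 𝕜}
    (hU₀ : U₀ᴴ * U₀ = 1) (hV₀ : V₀ᴴ * V₀ = 1) {t : ℝ} (ht : 1 ≤ t) (hw : 0 < w)
    (hℓ : ℓ ≤ Fintype.card (Fin q ⊕ Fin w))
    (μ : Measure (Matrix (Fin n) (Fin ℓ) 𝕜)) [IsProbabilityMeasure μ]
    (ALG : Matrix (Fin n) (Fin ℓ) 𝕜 × Matrix (Fin d) (Fin ℓ) 𝕜 × Matrix (Fin n) (Fin ℓ) 𝕜 →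
      Matrix (Fin d) (Fin n) 𝕜) (hALG : Measurable ALG) :
    cc (SS 𝕜 q w t) hℓ ≤ worstSVD q (q + w) μ ALG * ENNReal.ofReal w := by
  have ht0 : t ≠ 0 := by linarith
  let F : Matrix (Fin n) (Fin ℓ) 𝕜 → unitaryGroup (Fin q ⊕ Fin w) 𝕜 ×
      unitaryGroup (Fin q ⊕ Fin w) 𝕜 → ENNReal := fun Om p =>
    ENNReal.ofReal (frobSq (AA U₀ V₀ t p -
      ALG (Om, AA U₀ V₀ t p * Om, (AA U₀ V₀ t p)ᴴ * AA U₀ V₀ t p * Om)))
  have hFm : Measurable (Function.uncurry F) := by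
    have hA : Measurable fun x : Matrix (Fin n) (Fin ℓ) 𝕜 × (unitaryGroup (Fin q ⊕ Fin w) 𝕜 ×
      unitaryGroup (Fin q ⊕ Fin w) 𝕜) => AA U₀ V₀ t x.2 := (AA_meas U₀ V₀ t).comp measurable_snd
    refine ENNReal.measurable_ofReal.comp (frobSq_meas.comp (sub_meas hA (hALG.comp ?_)))
    exact measurable_fst.prodMk ((mul_meas hA measurable_fst).prodMk
      (mul_meas (mul_meas (conjTranspose_meas hA) hA) measurable_fst))
  set ν := (hU (Fin q ⊕ Fin w) 𝕜).prod (hU (Fin q ⊕ Fin w) 𝕜) with hν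
  calc cc (SS 𝕜 q w t) hℓ = ∫⁻ _Om : Matrix (Fin n) (Fin ℓ) 𝕜, cc (SS 𝕜 q w t) hℓ ∂μ := by
        rw [lintegral_const, measure_univ, mul_one]
    _ ≤ ∫⁻ Om, ∫⁻ p, F Om p ∂ν ∂μ :=
        lintegral_mono fun Om => svd_fixed hU₀ hV₀ ht0 hℓ Om ALG hALG
    _ = ∫⁻ p, ∫⁻ Om, F Om p ∂μ ∂ν := lintegral_lintegral_swap hFm.aemeasurable
    _ ≤ ∫⁻ _p, worstSVD q (q + w) μ ALG * ENNReal.ofReal w ∂ν := by
        refine lintegral_mono fun p => ?_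
        have hpos := AA_best_pos hU₀ hV₀ p hw ht
        have hle := AA_best_le hU₀ hV₀ p t
        have h1 : (∫⁻ Om, F Om p ∂μ) / ENNReal.ofReal (bestErr q (AA U₀ V₀ t p)) ≤
            worstSVD q (q + w) μ ALG := by
          unfold worstSVD
          exact le_iSup₂_of_le (AA U₀ V₀ t p) ⟨AA_rank hU₀ hV₀ p ht0, hpos⟩ le_rfl
        rw [ENNReal.div_le_iff (by simpa using hpos) ENNReal.ofReal_ne_top] at h1
        exact h1.trans (mul_le_mul' le_rfl (ENNReal.ofReal_le_ofReal hle))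
    _ = _ := by rw [lintegral_const, measure_univ, mul_one]

end

section
variable {𝕜 : Type} [RCLike 𝕜] [Coord 𝕜] {d n q w ℓ : ℕ}

/-- **The lower bound**, with `r = q + w`. -/
theorem svd_main0 {a : ℕ} (ha : Coord.α 𝕜 = bet 𝕜 * a) (hℓ : ℓ < q + w) (hd : q + w ≤ d)
    (hn : q + w ≤ n) (hq : q + a < ℓ)
    (μ : Measure (Matrix (Fin n) (Fin ℓ) 𝕜)) [IsProbabilityMeasure μ]
    (ALG : Matrix (Fin n) (Fin ℓ) 𝕜 × Matrix (Fin d) (Fin ℓ) 𝕜 × Matrix (Fin n) (Fin ℓ) 𝕜 →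
      Matrix (Fin d) (Fin n) 𝕜) (hALG : Measurable ALG) :
    ENNReal.ofReal ((((q + w : ℕ) : ℝ) - ℓ) / w * (1 + (q : ℝ) / ((ℓ : ℝ) - q - a))) ≤
      worstSVD q (q + w) μ ALG := by
  have hb := bet_pos (𝕜 := 𝕜)
  have hbα : Coord.α 𝕜 ≤ bet 𝕜 := by
    rw [bet_eq]
    have := Coord.alpha_le (𝕜 := 𝕜)
    linarith
  have hwpos : 0 < w := by omega
  have hw' : (0 : ℝ) < w := by exact_mod_cast hwpos
  have hqℓ : q ≤ ℓ := by omega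
  have hq' : (q : ℝ) + a + 1 ≤ ℓ := by exact_mod_cast hq
  have hℓ' : (ℓ : ℝ) + 1 ≤ (q : ℝ) + w := by exact_mod_cast hℓ
  have hcard : Fintype.card (Fin q ⊕ Fin w) = q + w := by simp
  have hℓc : ℓ ≤ Fintype.card (Fin q ⊕ Fin w) := by rw [hcard]; omega
  obtain ⟨U₀, hU₀⟩ := exists_isom (𝕜 := 𝕜) (κ := Fin q ⊕ Fin w) (d := d) (by rw [hcard]; exact hd)
  obtain ⟨V₀, hV₀⟩ := exists_isom (𝕜 := 𝕜) (κ := Fin q ⊕ Fin w) (d := n) (by rw [hcard]; exact hn)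
  have e0 : (w : ℝ) - (ℓ - q : ℕ) = (q : ℝ) + w - ℓ := by
    rw [Nat.cast_sub hqℓ]; ring
  have hN : 0 ≤ bet 𝕜 * ((w : ℝ) - (ℓ - q : ℕ)) - Coord.α 𝕜 := by
    rw [e0]
    nlinarith
  have hNpos : 0 < bet 𝕜 * ((ℓ : ℝ) - q) - Coord.α 𝕜 := by
    rw [ha]
    have : 0 < bet 𝕜 * ((ℓ : ℝ) - q - a) := mul_pos hb (by linarith)
    linarith
  by_cases hT : worstSVD q (q + w) μ ALG = ⊤
  · rw [hT]; exact le_top
  have hfin : worstSVD q (q + w) μ ALG =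
      ENNReal.ofReal (worstSVD q (q + w) μ ALG).toReal := (ENNReal.ofReal_toReal hT).symm
  have key : ∀ ε : ℝ, 0 < ε → ((q : ℝ) + w - ℓ) / w * (1 + bet 𝕜 * fe (Fin ℓ) (Fin q) 𝕜 ε) ≤
      (worstSVD q (q + w) μ ALG).toReal := by
    intro ε hε
    have h1 := cc_lower (𝕜 := 𝕜) hqℓ hℓc hN hNpos.le hε
      (worstSVD q (q + w) μ ALG * ENNReal.ofReal w) (fun k => svd_random hU₀ hV₀
        (by have : (0 : ℝ) ≤ k := Nat.cast_nonneg k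
            linarith) hwpos hℓc μ ALG hALG)
    rw [hfin, ← ENNReal.ofReal_mul ENNReal.toReal_nonneg] at h1
    have h3 := (ENNReal.ofReal_le_ofReal_iff (mul_nonneg ENNReal.toReal_nonneg hw'.le)).mp h1
    rw [e0] at h3
    rw [div_mul_eq_mul_div, div_le_iff₀ hw']
    exact h3
  rw [hfin]
  refine ENNReal.ofReal_le_ofReal ?_
  have hc : 0 < ((q : ℝ) + w - ℓ) / w := div_pos (by linarith) hw'
  have hbound : (q : ℝ) / ((ℓ : ℝ) - q - a) = bet 𝕜 * ((Fintype.card (Fin q) : ℝ) /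
      (bet 𝕜 * ((Fintype.card (Fin ℓ) : ℝ) - Fintype.card (Fin q)) - Coord.α 𝕜)) := by
    rw [Fintype.card_fin, Fintype.card_fin, ha]
    have e1 : bet 𝕜 * ((ℓ : ℝ) - q) - bet 𝕜 * a = bet 𝕜 * ((ℓ : ℝ) - q - a) := by ring
    rw [e1]
    have e2 : (ℓ : ℝ) - q - a ≠ 0 := by linarith
    field_simp
  rw [hbound]
  push_cast
  by_contra hcon
  push Not at hcon
  have h3 : ((worstSVD q (q + w) μ ALG).toReal / (((q : ℝ) + w - ℓ) / w) - 1) / bet 𝕜 <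
      (Fintype.card (Fin q) : ℝ) /
      (bet 𝕜 * ((Fintype.card (Fin ℓ) : ℝ) - Fintype.card (Fin q)) - Coord.α 𝕜) := by
    rw [div_lt_iff₀ hb, sub_lt_iff_lt_add, div_lt_iff₀ hc]
    linarith
  obtain ⟨ε, hε, h4⟩ := fe_lower (𝕜 := 𝕜) (m := Fin ℓ) (k := Fin q) (by simpa using hNpos) h3
  rw [div_lt_iff₀ hb, sub_lt_iff_lt_add, div_lt_iff₀ hc] at h4
  have h5 := key ε hε
  linarith

/-- **The lower bound for every algorithm.** -/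
theorem svd_main {a r : ℕ} (ha : Coord.α 𝕜 = bet 𝕜 * a) (hℓ : ℓ ≤ r) (hd : r ≤ d)
    (hn : r ≤ n) (hq : q + a < ℓ)
    (μ : Measure (Matrix (Fin n) (Fin ℓ) 𝕜)) [IsProbabilityMeasure μ]
    (ALG : Matrix (Fin n) (Fin ℓ) 𝕜 × Matrix (Fin d) (Fin ℓ) 𝕜 × Matrix (Fin n) (Fin ℓ) 𝕜 →
      Matrix (Fin d) (Fin n) 𝕜) (hALG : Measurable ALG) :
    ENNReal.ofReal (((r : ℝ) - ℓ) / ((r : ℝ) - q) * (1 + (q : ℝ) / ((ℓ : ℝ) - q - a))) ≤
      worstSVD q r μ ALG := by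
  rcases hℓ.eq_or_lt with h | h
  · have e : (r : ℝ) - ℓ = 0 := by
      rw [sub_eq_zero]
      exact_mod_cast h.symm
    rw [e, zero_div, zero_mul, ENNReal.ofReal_zero]
    exact zero_le
  · obtain ⟨w, rfl⟩ : ∃ w, r = q + w := ⟨r - q, by omega⟩
    have h1 := svd_main0 ha h hd hn hq μ ALG hALG
    have e : ((q + w : ℕ) : ℝ) - q = w := by push_cast; ring
    rw [e]
    exact h1

end

end Q170.RN
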