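import Pool.Agent.Q170.RN.Der

/-! Expectation of the trace of the regularised inverse Wishart matrix. -/

namespace Q170.RN
open MeasureTheory ProbabilityTheory Matrix Filter Topology
open scoped ComplexOrder

section
variable {𝕜 : Type} [RCLike 𝕜] [Coord 𝕜] {m k : Type} [Fintype m] [Fintype k] [DecidableEq k]

omit [Fintype m] [Fintype k] [DecidableEq k] in
lemma parseval₂ (z w : 𝕜) : ∑ j, RCLike.re (star (Coord.e (𝕜 := 𝕜) j) * z) *
    RCLike.re (star (Coord.e (𝕜 := 𝕜) j) * w) = RCLike.re (star z * w) := by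
  have h0 : star z * w = ∑ j, star z *
      (((RCLike.re (star (Coord.e (𝕜 := 𝕜) j) * w) : ℝ) : 𝕜) * Coord.e j) := by
    rw [← Finset.mul_sum, Coord.compl w]
  rw [h0, map_sum]
  refine Finset.sum_congr rfl fun j _ => ?_
  rw [mul_left_comm, RCLike.re_ofReal_mul, mul_comm]
  congr 1
  have h3 : star z * Coord.e j = star (star (Coord.e (𝕜 := 𝕜) j) * z) := by
    simp [mul_comm]
  rw [h3, RCLike.star_def, RCLike.conj_re]

omit [Fintype m] [Fintype k] [DecidableEq k] in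
lemma toM_cont : Continuous (toM m k 𝕜) := by
  refine continuous_matrix fun i c => ?_
  have : (fun x => toM m k 𝕜 x i c) =
      fun x : (m × k) × Coord.J 𝕜 → ℝ => ∑ j, ((x ((i, c), j) : ℝ) : 𝕜) * Coord.e j := rfl
  rw [this]
  refine continuous_finsetSum _ fun j _ => ?_
  exact (RCLike.continuous_ofReal.comp (continuous_apply _)).mul continuous_const

omit [Coord 𝕜] in
lemma TT_cont {ε : ℝ} (hε : 0 < ε) : Continuous (TT ε : Matrix m k 𝕜 → Matrix k k 𝕜) := by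
  have h1 : Continuous fun A : Matrix m k 𝕜 => Aᴴ * A + (ε : 𝕜) • (1 : Matrix k k 𝕜) :=
    ((continuous_id.matrix_conjTranspose).matrix_mul continuous_id).add continuous_const
  have h2 : (TT ε : Matrix m k 𝕜 → Matrix k k 𝕜) = fun A =>
      ((Aᴴ * A + (ε : 𝕜) • (1 : Matrix k k 𝕜)).det)⁻¹ •
        (Aᴴ * A + (ε : 𝕜) • (1 : Matrix k k 𝕜)).adjugate := by
    funext A
    unfold TT
    rw [Matrix.inv_def, Ring.inverse_eq_inv']
  rw [h2]
  have h3 : Continuous fun A : Matrix m k 𝕜 =>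
      ((Aᴴ * A + (ε : 𝕜) • (1 : Matrix k k 𝕜)).det)⁻¹ :=
    h1.matrix_det.inv₀ fun A =>
      ((Matrix.isUnit_iff_isUnit_det _).mp (isUnit_aux hε A)).ne_zero
  exact h3.smul h1.matrix_adjugate

omit [Coord 𝕜] in
lemma AT_cont {ε : ℝ} (hε : 0 < ε) : Continuous fun A : Matrix m k 𝕜 => A * TT ε A :=
  continuous_id.matrix_mul (TT_cont hε)

omit [Fintype m] [Fintype k] in
lemma toM_update [DecidableEq m] (x : (m × k) × Coord.J 𝕜 → ℝ) (i : m) (c : k) (j : Coord.J 𝕜)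
    (t : ℝ) : toM m k 𝕜 (Function.update x ((i, c), j) t) =
      toM m k 𝕜 x + (t - x ((i, c), j)) • Matrix.single i c (Coord.e j) := by
  rw [← toM_single, ← map_smul, ← map_add]
  congr 1
  funext p
  by_cases hp : p = ((i, c), j)
  · subst hp
    simp
  · rw [Function.update_of_ne hp]
    simp [Pi.single_eq_of_ne hp]

/-- The coordinate function used in the integration by parts. -/
noncomputable def ff (ε : ℝ) (p : (m × k) × Coord.J 𝕜) (x : (m × k) × Coord.J 𝕜 → ℝ) : ℝ :=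
  RCLike.re (star (Coord.e (𝕜 := 𝕜) p.2) * (toM m k 𝕜 x * TT ε (toM m k 𝕜 x)) p.1.1 p.1.2)

/-- Its partial derivative. -/
noncomputable def ff' (ε : ℝ) (p : (m × k) × Coord.J 𝕜) (x : (m × k) × Coord.J 𝕜 → ℝ) : ℝ :=
  RCLike.re (star (Coord.e (𝕜 := 𝕜) p.2) * (Coord.e p.2 * TT ε (toM m k 𝕜 x) p.1.2 p.1.2 -
    (toM m k 𝕜 x * TT ε (toM m k 𝕜 x)) p.1.1 p.1.2 * star (Coord.e p.2) *
      (toM m k 𝕜 x * TT ε (toM m k 𝕜 x)) p.1.1 p.1.2 -
    (toM m k 𝕜 x * TT ε (toM m k 𝕜 x) * (toM m k 𝕜 x)ᴴ) p.1.1 p.1.1 * Coord.e p.2 *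
      TT ε (toM m k 𝕜 x) p.1.2 p.1.2))

lemma ff_deriv [DecidableEq m] {ε : ℝ} (hε : 0 < ε) (p : (m × k) × Coord.J 𝕜)
    (x : (m × k) × Coord.J 𝕜 → ℝ) :
    HasDerivAt (fun t => ff ε p (Function.update x p t)) (ff' ε p x) (x p) := by
  obtain ⟨⟨i, c⟩, j⟩ := p
  have h1 := hasDerivAt_AT_single hε (toM m k 𝕜 x) (Coord.e (𝕜 := 𝕜) j) (x ((i, c), j)) i c
  have h2 := h1.const_mul (star (Coord.e (𝕜 := 𝕜) j))
  have h3 := (RCLike.reCLM (K := 𝕜)).hasFDerivAt.comp_hasDerivAt (x ((i, c), j)) h2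
  refine (h3.congr_deriv ?_).congr_of_eventuallyEq (Filter.Eventually.of_forall fun t => ?_)
  · rfl
  · simp only [Function.comp, ff, toM_update]
    rfl

lemma ff_cont {ε : ℝ} (hε : 0 < ε) (p : (m × k) × Coord.J 𝕜) : Continuous (ff ε p) := by
  unfold ff
  refine RCLike.continuous_re.comp (continuous_const.mul ?_)
  exact ((AT_cont hε).comp toM_cont).matrix_elem _ _

lemma ff'_cont {ε : ℝ} (hε : 0 < ε) (p : (m × k) × Coord.J 𝕜) : Continuous (ff' ε p) := by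
  unfold ff'
  have h1 : Continuous fun x => TT ε (toM m k 𝕜 x) := (TT_cont hε).comp toM_cont
  have h2 : Continuous fun x => toM m k 𝕜 x * TT ε (toM m k 𝕜 x) := (AT_cont hε).comp toM_cont
  have h3 : Continuous fun x => toM m k 𝕜 x * TT ε (toM m k 𝕜 x) * (toM m k 𝕜 x)ᴴ :=
    h2.matrix_mul toM_cont.matrix_conjTranspose
  refine RCLike.continuous_re.comp (continuous_const.mul ?_)
  refine ((continuous_const.mul (h1.matrix_elem _ _)).sub
    (((h2.matrix_elem _ _).mul continuous_const).mul (h2.matrix_elem _ _))).sub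
    (((h3.matrix_elem _ _).mul continuous_const).mul (h1.matrix_elem _ _))

lemma ff_bound {ε : ℝ} (hε : 0 < ε) (p : (m × k) × Coord.J 𝕜) (x : (m × k) × Coord.J 𝕜 → ℝ) :
    |ff ε p x| ≤ 1 + 3 / ε := by
  unfold ff
  refine (RCLike.abs_re_le_norm _).trans ?_
  rw [norm_mul, norm_star, norm_e, one_mul]
  have h := AT_sq_le hε (toM m k 𝕜 x) p.1.1 p.1.2
  have h2 : 0 < 1 / ε := by positivity
  have h3 : 3 / ε = 3 * (1 / ε) := by ring
  rw [h3]
  nlinarith [norm_nonneg ((toM m k 𝕜 x * TT ε (toM m k 𝕜 x)) p.1.1 p.1.2)]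

lemma ff'_bound {ε : ℝ} (hε : 0 < ε) (p : (m × k) × Coord.J 𝕜) (x : (m × k) × Coord.J 𝕜 → ℝ) :
    |ff' ε p x| ≤ 1 + 3 / ε := by
  unfold ff'
  refine (RCLike.abs_re_le_norm _).trans ?_
  rw [norm_mul, norm_star, norm_e, one_mul]
  refine (norm_sub_le _ _).trans ?_
  have h0 := norm_sub_le (Coord.e p.2 * TT ε (toM m k 𝕜 x) p.1.2 p.1.2)
    ((toM m k 𝕜 x * TT ε (toM m k 𝕜 x)) p.1.1 p.1.2 * star (Coord.e p.2) *
      (toM m k 𝕜 x * TT ε (toM m k 𝕜 x)) p.1.1 p.1.2)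
  have h1 := AT_sq_le hε (toM m k 𝕜 x) p.1.1 p.1.2
  have h2 := TT_norm_le hε (toM m k 𝕜 x) p.1.2 p.1.2
  have h3 := V_norm_le hε (toM m k 𝕜 x) p.1.1
  rw [norm_mul, norm_mul, norm_mul, norm_star, norm_e, one_mul, mul_one, ← sq] at h0
  rw [norm_mul (_ * _), norm_mul, norm_e, mul_one]
  have h4 : ‖(toM m k 𝕜 x * TT ε (toM m k 𝕜 x) * (toM m k 𝕜 x)ᴴ) p.1.1 p.1.1‖ *
      ‖TT ε (toM m k 𝕜 x) p.1.2 p.1.2‖ ≤ 1 * (1 / ε) :=
    mul_le_mul h3 h2 (norm_nonneg _) zero_le_one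
  have h5 : 3 / ε = 3 * (1 / ε) := by ring
  rw [h5]
  linarith

/-- The first side of the integration by parts. -/
lemma sum_x_ff {ε : ℝ} (hε : 0 < ε) (x : (m × k) × Coord.J 𝕜 → ℝ) :
    ∑ p, x p * ff ε p x = Fintype.card k - ε * tau ε (toM m k 𝕜 x) := by
  rw [← trace_AAT hε, Fintype.sum_prod_type, Fintype.sum_prod_type]
  have h1 : ∀ i c, ∑ j, x ((i, c), j) * ff ε ((i, c), j) x =
      RCLike.re (star (toM m k 𝕜 x i c) * (toM m k 𝕜 x * TT ε (toM m k 𝕜 x)) i c) := by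
    intro i c
    rw [← parseval₂]
    refine Finset.sum_congr rfl fun j _ => ?_
    rw [re_toM]
    rfl
  simp only [h1]
  rw [Matrix.trace, map_sum, Finset.sum_comm]
  refine Finset.sum_congr rfl fun c _ => ?_
  rw [Matrix.diag_apply, Matrix.mul_apply, map_sum]
  rfl

/-- The second side of the integration by parts. -/
lemma sum_ff' {ε : ℝ} (hε : 0 < ε) (x : (m × k) × Coord.J 𝕜 → ℝ) :
    ∑ p, ff' ε p x = (bet 𝕜 * (Fintype.card m - Fintype.card k) - Coord.α 𝕜) * tau ε (toM m k 𝕜 x) +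
      ε * (Coord.α 𝕜 * frobSq (TT ε (toM m k 𝕜 x)) + bet 𝕜 * tau ε (toM m k 𝕜 x) ^ 2) := by
  rw [Fintype.sum_prod_type, Fintype.sum_prod_type]
  set A := toM m k 𝕜 x with hA
  have h1 : ∀ i c, ∑ j, ff' ε ((i, c), j) x = bet 𝕜 * RCLike.re (TT ε A c c) -
      Coord.α 𝕜 * ‖(A * TT ε A) i c‖ ^ 2 -
      bet 𝕜 * (RCLike.re ((A * TT ε A * Aᴴ) i i) * RCLike.re (TT ε A c c)) := by
    intro i c
    have hT : ((RCLike.re (TT ε A c c) : ℝ) : 𝕜) = TT ε A c c := by
      have : star (TT ε A c c) = TT ε A c c := by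
        have h2 := congrFun (congrFun (TT_herm ε A) c) c
        rw [Matrix.conjTranspose_apply] at h2
        exact h2
      exact RCLike.conj_eq_iff_re.mp this
    have h2 : ∀ j, ff' ε ((i, c), j) x = RCLike.re (TT ε A c c) -
        RCLike.re (star (Coord.e (𝕜 := 𝕜) j) * star (Coord.e j) *
          ((A * TT ε A) i c * (A * TT ε A) i c)) -
        RCLike.re ((A * TT ε A * Aᴴ) i i) * RCLike.re (TT ε A c c) := by
      intro j
      have he : star (Coord.e (𝕜 := 𝕜) j) * Coord.e j = 1 := by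
        rw [RCLike.star_def, RCLike.conj_mul, norm_e]
        simp
      unfold ff'
      rw [← hA]
      simp only []
      rw [mul_sub, mul_sub, map_sub, map_sub]
      congr 1
      · congr 1
        · rw [← mul_assoc, he, one_mul]
        · congr 1
          ring
      · have : star (Coord.e (𝕜 := 𝕜) j) * ((A * TT ε A * Aᴴ) i i * Coord.e j * TT ε A c c) =
            (A * TT ε A * Aᴴ) i i * TT ε A c c := by
          calc _ = (star (Coord.e (𝕜 := 𝕜) j) * Coord.e j) *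
                ((A * TT ε A * Aᴴ) i i * TT ε A c c) := by ring
            _ = _ := by rw [he, one_mul]
        rw [this, ← hT, mul_comm, RCLike.re_ofReal_mul, RCLike.ofReal_re, mul_comm]
    simp only [h2]
    rw [Finset.sum_sub_distrib, Finset.sum_sub_distrib, Coord.sq]
    simp only [Finset.sum_const, Finset.card_univ, nsmul_eq_mul]
    rfl
  simp only [h1]
  simp only [Finset.sum_sub_distrib, ← Finset.mul_sum, Finset.sum_const, Finset.card_univ,
    nsmul_eq_mul]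
  have h3 : ∑ c, RCLike.re (TT ε A c c) = tau ε A := by
    unfold tau Matrix.trace
    rw [map_sum]
    rfl
  have h4 : ∑ i, ∑ c, ‖(A * TT ε A) i c‖ ^ 2 = frobSq (A * TT ε A) := rfl
  have h5 : ∑ i, RCLike.re ((A * TT ε A * Aᴴ) i i) = Fintype.card k - ε * tau ε A := by
    rw [← trace_V hε A, Matrix.trace, map_sum]
    rfl
  have h7 := tau_eq hε A
  rw [h3, h4]
  have h8 : ∑ i, RCLike.re ((A * TT ε A * Aᴴ) i i) * tau ε A =
      (Fintype.card k - ε * tau ε A) * tau ε A := by rw [← Finset.sum_mul, h5]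
  rw [h8]
  have h9 : frobSq (A * TT ε A) = tau ε A - ε * frobSq (TT ε A) := by linarith
  rw [h9]
  ring

omit [Coord 𝕜] in
lemma tau_le {ε : ℝ} (hε : 0 < ε) (A : Matrix m k 𝕜) : tau ε A ≤ Fintype.card k / ε := by
  have h3 : tau ε A = ∑ c, RCLike.re (TT ε A c c) := by
    unfold tau Matrix.trace
    rw [map_sum]
    rfl
  rw [h3]
  calc ∑ c, RCLike.re (TT ε A c c) ≤ ∑ _c : k, 1 / ε :=
        Finset.sum_le_sum fun c _ => TT_diag_le hε A c
    _ = Fintype.card k / ε := by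
        rw [Finset.sum_const, Finset.card_univ, nsmul_eq_mul]
        ring

omit [Coord 𝕜] in
lemma tau_cont {ε : ℝ} (hε : 0 < ε) : Continuous (tau ε : Matrix m k 𝕜 → ℝ) := by
  unfold tau
  exact RCLike.continuous_re.comp (TT_cont hε).matrix_trace

/-- Stein's identity for the inverse Wishart trace. -/
theorem wishart_identity {ε : ℝ} (hε : 0 < ε) :
    ∫ x, (Fintype.card k - ε * tau ε (toM m k 𝕜 x)) ∂(G ((m × k) × Coord.J 𝕜)) =
    ∫ x, ((bet 𝕜 * (Fintype.card m - Fintype.card k) - Coord.α 𝕜) * tau ε (toM m k 𝕜 x) +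
      ε * (Coord.α 𝕜 * frobSq (TT ε (toM m k 𝕜 x)) + bet 𝕜 * tau ε (toM m k 𝕜 x) ^ 2))
      ∂(G ((m × k) × Coord.J 𝕜)) := by
  classical
  have h1 : ∀ p : (m × k) × Coord.J 𝕜, ∫ x, x p * ff ε p x ∂(G ((m × k) × Coord.J 𝕜)) =
      ∫ x, ff' ε p x ∂(G ((m × k) × Coord.J 𝕜)) := fun p =>
    stein p (ff ε p) (ff' ε p) (1 + 3 / ε) (ff_cont hε p).measurable (ff'_cont hε p).measurable
      (ff_bound hε p) (ff'_bound hε p) (ff_deriv hε p)
  have i1 : ∀ p : (m × k) × Coord.J 𝕜, Integrable (fun x => x p * ff ε p x)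
      (G ((m × k) × Coord.J 𝕜)) := fun p =>
    (eval_integrable p).mul_bdd (c := 1 + 3 / ε) (ff_cont hε p).aestronglyMeasurable
      (Eventually.of_forall fun t => ff_bound hε p t)
  have i2 : ∀ p : (m × k) × Coord.J 𝕜, Integrable (fun x => ff' ε p x)
      (G ((m × k) × Coord.J 𝕜)) := fun p =>
    Integrable.of_bound (ff'_cont hε p).aestronglyMeasurable (1 + 3 / ε)
      (Eventually.of_forall fun t => ff'_bound hε p t)
  simp only [← sum_x_ff hε, ← sum_ff' hε]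
  rw [integral_finsetSum _ (fun p _ => i1 p), integral_finsetSum _ (fun p _ => i2 p)]
  exact Finset.sum_congr rfl fun p _ => h1 p

end

end Q170.RN
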